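import Pool.Agent.Q270.EN.Stm2
import Pool.Agent.Q163.RP.Count
import Pool.Agent.Q163.RP.Mult

set_option autoImplicit false

/-!
# CORE: decomposition of correlations by the largest prime to an odd power
-/

namespace Pool.Agent.Q270.EN

open Finset Filter Topology MeasureTheory

lemma mem_pr {P : Set ℕ} {x p : ℕ} : p ∈ pr P x ↔ p.Prime ∧ p ∈ P ∧ p ≤ x := by
  classical
  unfold pr
  rw [Finset.mem_filter, Finset.mem_Icc]
  constructor
  · rintro ⟨⟨_, h1⟩, h2, h3⟩
    exact ⟨h2, h3, h1⟩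
  · rintro ⟨h2, h3, h1⟩
    exact ⟨⟨h2.one_lt.le, h1⟩, h2, h3⟩

lemma mem_neg {Ω : Type} {e : ℕ → Ω → ℝ} {S : Finset ℕ} {ω : Ω} {p : ℕ} :
    p ∈ neg e S ω ↔ p ∈ S ∧ e p ω = -1 := by
  classical
  unfold neg
  rw [Finset.mem_filter]

lemma meas_neg {Ω : Type} [MeasurableSpace Ω] {e : ℕ → Ω → ℝ} (he : Sgn e) (S : Finset ℕ) :
    @Measurable Ω (Finset ℕ) _ ⊤ (neg e S) := by
  refine @measurable_to_countable' (Finset ℕ) Ω ⊤ _ _ _ fun a => ?_
  have h1 : neg e S ⁻¹' {a} = if a ⊆ S then ⋂ p ∈ S, (if p ∈ a then {ω | e p ω = -1} else {ω | e p ω = -1}ᶜ)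
      else ∅ := by
    split_ifs with h
    · ext ω
      simp only [Set.mem_preimage, Set.mem_singleton_iff, Set.mem_iInter]
      constructor
      · intro h2 p hp
        split_ifs with h3
        · rw [← h2] at h3
          exact (mem_neg.1 h3).2
        · intro h4
          apply h3
          rw [← h2]
          exact mem_neg.2 ⟨hp, h4⟩
      · intro h2
        ext p
        rw [mem_neg]
        constructor
        · rintro ⟨h3, h4⟩
          by_contra h5
          have := h2 p h3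
          rw [if_neg h5] at this
          exact this h4
        · intro h3
          have h4 := h2 p (h h3)
          rw [if_pos h3] at h4
          exact ⟨h h3, h4⟩
    · ext ω
      simp only [Set.mem_preimage, Set.mem_singleton_iff, Set.mem_empty_iff_false, iff_false]
      intro h2
      apply h
      rw [← h2]
      intro p hp
      exact (mem_neg.1 hp).1
  rw [h1]
  split_ifs with h
  · refine Finset.measurableSet_biInter _ fun p _ => ?_
    have h2 : MeasurableSet {ω | e p ω = -1} := (he.meas p) (measurableSet_singleton (-1 : ℝ))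
    split_ifs
    · exact h2
    · exact h2.compl
  · exact MeasurableSet.empty

/-- the indices with an odd exponent -/
noncomputable def odd (S : Finset ℕ) (M : ℕ) : Finset ℕ := S.filter fun p => Odd (M.factorization p)

/-- product of signs given by the set of minus signs -/
noncomputable def sg (A a : Finset ℕ) : ℝ := ∏ q ∈ A, if q ∈ a then -1 else 1

lemma abs_sg (A a : Finset ℕ) : |sg A a| = 1 := by
  unfold sg
  rw [Finset.abs_prod]
  refine Finset.prod_eq_one fun q _ => ?_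
  split_ifs <;> simp

lemma cmf_prod (P : Set ℕ) (s : ℕ → ℝ) (T : Finset ℕ) (n : ℕ) (hn : 1 ≤ n) :
    ∏ h ∈ T, cmf P s (n + h) = cmf P s (∏ h ∈ T, (n + h)) := by
  classical
  have h1 : ∀ m, cmf P s m = Pool.Agent.Q163.RP.mult (fun p => if p ∈ P then s p else 1) m := by
    intro m
    unfold cmf Pool.Agent.Q163.RP.mult
    rfl
  rw [h1, Pool.Agent.Q163.RP.mult_prod _ T (fun h => n + h) (fun h _ => by omega)]
  exact Finset.prod_congr rfl fun h _ => h1 _

lemma cmf_eq {P : Set ℕ} {s : ℕ → ℝ} (hs : ∀ p, s p = 1 ∨ s p = -1) {X M : ℕ} (hM : M ≠ 0)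
    (hX : ∀ p : ℕ, p.Prime → p ∣ M → p ≤ X) :
    cmf P s M = ∏ p ∈ odd (pr P X) M, s p := by
  classical
  have h1 : cmf P s M = ∏ p ∈ M.primeFactors ∪ pr P X, (if p ∈ P then s p else 1) ^ M.factorization p := by
    unfold cmf
    refine Finset.prod_subset Finset.subset_union_left fun p _ hp => ?_
    rw [← Nat.support_factorization, Finsupp.notMem_support_iff] at hp
    rw [hp, pow_zero]
  rw [h1]
  have h2 : odd (pr P X) M ⊆ M.primeFactors ∪ pr P X := fun p hp =>
    Finset.mem_union_right _ (Finset.mem_filter.1 hp).1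
  have h3 : ∏ p ∈ odd (pr P X) M, s p =
      ∏ p ∈ odd (pr P X) M, (if p ∈ P then s p else 1) ^ M.factorization p := by
    refine Finset.prod_congr rfl fun p hp => ?_
    obtain ⟨h4, h5⟩ := Finset.mem_filter.1 hp
    rw [if_pos (mem_pr.1 h4).2.1]
    rcases hs p with h6 | h6
    · rw [h6, one_pow]
    · rw [h6, h5.neg_one_pow]
  rw [h3]
  symm
  refine Finset.prod_subset h2 fun p hp hp2 => ?_
  by_cases h4 : p ∈ P
  · rw [if_pos h4]
    have h5 : ¬ Odd (M.factorization p) := by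
      intro h5
      apply hp2
      refine Finset.mem_filter.2 ⟨?_, h5⟩
      have h6 : M.factorization p ≠ 0 := by
        intro h7
        rw [h7] at h5
        exact absurd h5 (by decide)
      have h7 : p ∈ M.primeFactors := by
        rw [← Nat.support_factorization, Finsupp.mem_support_iff]
        exact h6
      have h8 := Nat.mem_primeFactors.1 h7
      exact mem_pr.2 ⟨h8.1, h4, hX p h8.1 h8.2.1⟩
    rw [Nat.not_odd_iff_even] at h5
    rcases hs p with h6 | h6
    · rw [h6, one_pow]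
    · rw [h6, h5.neg_one_pow]
  · rw [if_neg h4, one_pow]

lemma prod_sg {Ω : Type} {e : ℕ → Ω → ℝ} (hv : ∀ p ω, e p ω = 1 ∨ e p ω = -1) (A S : Finset ℕ)
    (hA : A ⊆ S) (ω : Ω) : ∏ p ∈ A, e p ω = sg A (neg e S ω) := by
  unfold sg
  refine Finset.prod_congr rfl fun p hp => ?_
  by_cases h : e p ω = -1
  · rw [if_pos (mem_neg.2 ⟨hA hp, h⟩), h]
  · rw [if_neg (fun h2 => h (mem_neg.1 h2).2)]
    exact (hv p ω).resolve_right h

/-- the coefficient of the sign at `p` -/
noncomputable def dl (S : Finset ℕ) (M : ℕ → ℕ) (w : ℕ → ℂ) (N : ℕ) (p : ℕ) (a : Finset ℕ) : ℂ :=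
  ∑ n ∈ (Icc 1 N).filter (fun n => p ∈ odd S (M n) ∧ ∀ q ∈ odd S (M n), q ≤ p),
    w n * ((sg ((odd S (M n)).erase p) a : ℝ) : ℂ)

lemma norm_dl (S : Finset ℕ) (M : ℕ → ℕ) (w : ℕ → ℂ) (hw : ∀ n, ‖w n‖ ≤ 1) (N : ℕ) (p : ℕ)
    (a : Finset ℕ) : ‖dl S M w N p a‖ ≤
      (((Icc 1 N).filter fun n => p ∈ odd S (M n)).card : ℕ) := by
  classical
  unfold dl
  refine (norm_sum_le _ _).trans ?_
  have h1 : ∀ n ∈ (Icc 1 N).filter (fun n => p ∈ odd S (M n) ∧ ∀ q ∈ odd S (M n), q ≤ p),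
      ‖w n * ((sg ((odd S (M n)).erase p) a : ℝ) : ℂ)‖ ≤ 1 := by
    intro n _
    rw [norm_mul, Complex.norm_real, Real.norm_eq_abs, abs_sg, mul_one]
    exact hw n
  refine (Finset.sum_le_sum h1).trans ?_
  rw [Finset.sum_const, nsmul_eq_mul, mul_one]
  have h2 : ((Icc 1 N).filter (fun n => p ∈ odd S (M n) ∧ ∀ q ∈ odd S (M n), q ≤ p)).card ≤
      ((Icc 1 N).filter fun n => p ∈ odd S (M n)).card := by
    apply Finset.card_le_card
    intro n hn
    rw [Finset.mem_filter] at hn ⊢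
    exact ⟨hn.1, hn.2.1⟩
  exact_mod_cast h2

/-- the decomposition -/
lemma decomp {Ω : Type} {e : ℕ → Ω → ℝ} (hv : ∀ p ω, e p ω = 1 ∨ e p ω = -1) (S : Finset ℕ)
    (M : ℕ → ℕ) (w : ℕ → ℂ) (N y : ℕ) (ω : Ω) :
    ∑ n ∈ Icc 1 N, w n * ((∏ p ∈ odd S (M n), e p ω : ℝ) : ℂ) =
      ∑ n ∈ (Icc 1 N).filter (fun n => ∀ p ∈ S, y < p → Even ((M n).factorization p)),
        w n * ((∏ p ∈ odd S (M n), e p ω : ℝ) : ℂ) +
      ∑ p ∈ S.filter (y < ·), ((e p ω : ℝ) : ℂ) * dl S M w N p (neg e (S.filter (· < p)) ω) := by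
  classical
  rw [← Finset.sum_filter_add_sum_filter_not (Icc 1 N)
    (fun n => ∀ p ∈ S, y < p → Even ((M n).factorization p))]
  congr 1
  -- each term on the right
  have h1 : ∀ p ∈ S.filter (y < ·), ((e p ω : ℝ) : ℂ) * dl S M w N p (neg e (S.filter (· < p)) ω) =
      ∑ n ∈ (Icc 1 N).filter (fun n => ¬ ∀ p ∈ S, y < p → Even ((M n).factorization p)),
        if (p ∈ odd S (M n) ∧ ∀ q ∈ odd S (M n), q ≤ p) then
          w n * ((∏ p ∈ odd S (M n), e p ω : ℝ) : ℂ) else 0 := by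
    intro p hp
    obtain ⟨hp1, hp2⟩ := Finset.mem_filter.1 hp
    rw [← Finset.sum_filter]
    unfold dl
    rw [Finset.mul_sum]
    have h2 : ((Icc 1 N).filter (fun n => ¬ ∀ p ∈ S, y < p → Even ((M n).factorization p))).filter
        (fun n => p ∈ odd S (M n) ∧ ∀ q ∈ odd S (M n), q ≤ p) =
        (Icc 1 N).filter (fun n => p ∈ odd S (M n) ∧ ∀ q ∈ odd S (M n), q ≤ p) := by
      ext n
      simp only [Finset.mem_filter]
      constructor
      · rintro ⟨⟨h3, _⟩, h4⟩
        exact ⟨h3, h4⟩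
      · rintro ⟨h3, h4⟩
        refine ⟨⟨h3, ?_⟩, h4⟩
        intro h5
        have h6 := h5 p hp1 hp2
        have h7 := (Finset.mem_filter.1 h4.1).2
        rw [← Nat.not_even_iff_odd] at h7
        exact h7 h6
    rw [h2]
    refine Finset.sum_congr rfl fun n hn => ?_
    obtain ⟨_, h3, h4⟩ := Finset.mem_filter.1 hn
    have h5 : ∏ q ∈ odd S (M n), e q ω = e p ω * sg ((odd S (M n)).erase p)
        (neg e (S.filter (· < p)) ω) := by
      rw [← Finset.mul_prod_erase _ _ h3]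
      congr 1
      apply prod_sg hv
      intro q hq
      obtain ⟨h6, h7⟩ := Finset.mem_erase.1 hq
      refine Finset.mem_filter.2 ⟨(Finset.mem_filter.1 h7).1, ?_⟩
      have := h4 q h7
      omega
    rw [h5]
    push_cast
    ring
  rw [Finset.sum_congr rfl h1, Finset.sum_comm]
  refine Finset.sum_congr rfl fun n hn => ?_
  obtain ⟨_, h2⟩ := Finset.mem_filter.1 hn
  push Not at h2
  obtain ⟨p0, h3, h4, h5⟩ := h2
  have h6 : p0 ∈ odd S (M n) := Finset.mem_filter.2 ⟨h3, by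
    rw [← Nat.not_even_iff_odd]
    exact h5⟩
  have hne : (odd S (M n)).Nonempty := ⟨p0, h6⟩
  obtain ⟨pm, hpm⟩ : ∃ pm, pm = (odd S (M n)).max' hne := ⟨_, rfl⟩
  have h7 : pm ∈ odd S (M n) := by
    rw [hpm]
    exact Finset.max'_mem _ _
  have h8 : ∀ q ∈ odd S (M n), q ≤ pm := by
    intro q hq
    rw [hpm]
    exact Finset.le_max' _ _ hq
  rw [Finset.sum_eq_single pm]
  · rw [if_pos ⟨h7, h8⟩]
  · intro q _ hq
    rw [if_neg]
    rintro ⟨h9, h10⟩
    apply hq
    exact le_antisymm (h8 q h9) (h10 pm h7)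
  · intro h9
    exfalso
    apply h9
    refine Finset.mem_filter.2 ⟨(Finset.mem_filter.1 h7).1, ?_⟩
    have := h8 p0 h6
    omega

lemma inv_sq_sum (y : ℕ) (hy : 1 ≤ y) (R : Finset ℕ) (hR : ∀ p ∈ R, y < p) :
    ∑ p ∈ R, 1 / (p : ℝ) ^ 2 ≤ 1 / (y : ℝ) := by
  have hsub : R ⊆ Ioc y (R.sup id) := by
    intro p hp
    rw [Finset.mem_Ioc]
    exact ⟨hR p hp, Finset.le_sup (f := id) hp⟩
  refine (Finset.sum_le_sum_of_subset_of_nonneg hsub (fun p _ _ => by positivity)).trans ?_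
  have h1 : ∀ z : ℕ, ∑ p ∈ Ioc y z, 1 / (p : ℝ) ^ 2 ≤ 1 / (y : ℝ) := by
    intro z
    have h2 : ∀ z : ℕ, y ≤ z → ∑ p ∈ Ioc y z, 1 / (p : ℝ) ^ 2 ≤ 1 / (y : ℝ) - 1 / (z : ℝ) := by
      intro z hz
      induction z, hz using Nat.le_induction with
      | base => simp
      | succ z hz ih =>
        rw [← Finset.insert_Ioc_right_eq_Ioc_add_one hz, Finset.sum_insert (by simp)]
        have hz0 : (0 : ℝ) < z := by exact_mod_cast (by omega : 0 < z)
        have h3 : 1 / ((z + 1 : ℕ) : ℝ) ^ 2 ≤ 1 / (z : ℝ) - 1 / ((z + 1 : ℕ) : ℝ) := by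
          push_cast
          rw [div_sub_div _ _ hz0.ne' (by positivity), div_le_div_iff₀ (by positivity) (by positivity)]
          nlinarith
        linarith
    by_cases hz : y ≤ z
    · have := h2 z hz
      have h3 : (0 : ℝ) ≤ 1 / (z : ℝ) := by positivity
      linarith
    · rw [Finset.Ioc_eq_empty (by omega), Finset.sum_empty]
      positivity
  exact h1 _

/-- the bound for the coefficients -/
lemma card_odd_le (P : Set ℕ) (T : Finset ℕ) (N X p : ℕ) (hT : T ⊆ range (N + 1))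
    (hp : p ∈ pr P X) :
    ((((Icc 1 N).filter fun n => p ∈ odd (pr P X) (∏ h ∈ T, (n + h))).card : ℕ) : ℝ) ≤
      3 * T.card * N / p := by
  classical
  have hpp := (mem_pr.1 hp).1
  have hp0 : (0 : ℝ) < p := by exact_mod_cast hpp.pos
  have h1 : (Icc 1 N).filter (fun n => p ∈ odd (pr P X) (∏ h ∈ T, (n + h))) ⊆
      T.biUnion fun h => (Icc 1 N).filter fun n => p ∣ 1 * n + h := by
    intro n hn
    obtain ⟨h2, h3⟩ := Finset.mem_filter.1 hn
    have h4 := (Finset.mem_filter.1 h3).2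
    have h5 : p ∣ ∏ h ∈ T, (n + h) := by
      have h6 : (∏ h ∈ T, (n + h)).factorization p ≠ 0 := by
        intro h7
        rw [h7] at h4
        exact absurd h4 (by decide)
      exact Nat.dvd_of_factorization_pos h6
    rw [Prime.dvd_finsetProd_iff hpp.prime] at h5
    obtain ⟨h, h6, h7⟩ := h5
    rw [Finset.mem_biUnion]
    exact ⟨h, h6, Finset.mem_filter.2 ⟨h2, by rwa [one_mul]⟩⟩
  have h2 : ((((Icc 1 N).filter fun n => p ∈ odd (pr P X) (∏ h ∈ T, (n + h))).card : ℕ) : ℝ) ≤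
      ∑ h ∈ T, ((((Icc 1 N).filter fun n => p ∣ 1 * n + h).card : ℕ) : ℝ) := by
    exact_mod_cast (Finset.card_le_card h1).trans Finset.card_biUnion_le
  by_cases h2N : p ≤ 2 * N
  · have h3 : ∀ h ∈ T, ((((Icc 1 N).filter fun n => p ∣ 1 * n + h).card : ℕ) : ℝ) ≤ 3 * N / p := by
      intro h _
      have h4 := (abs_le.1 (Pool.Agent.Q163.RP.card_dvd N p 1 h hpp.pos (by simp))).2
      have h5 : (1 : ℝ) ≤ 2 * N / p := by
        rw [le_div_iff₀ hp0, one_mul]
        exact_mod_cast h2N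
      have h6 : 3 * (N : ℝ) / p = N / p + 2 * N / p := by ring
      rw [h6]
      linarith
    refine h2.trans ((Finset.sum_le_sum h3).trans ?_)
    rw [Finset.sum_const, nsmul_eq_mul]
    apply le_of_eq
    ring
  · have h3 : ∀ h ∈ T, ((((Icc 1 N).filter fun n => p ∣ 1 * n + h).card : ℕ) : ℝ) ≤ 0 := by
      intro h hh
      have h4 : (Icc 1 N).filter (fun n => p ∣ 1 * n + h) = ∅ := by
        rw [Finset.filter_eq_empty_iff]
        intro n hn h5
        rw [Finset.mem_Icc] at hn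
        have h6 := Nat.le_of_dvd (by omega) h5
        have h7 := Finset.mem_range.1 (hT hh)
        omega
      rw [h4]
      simp
    refine h2.trans ((Finset.sum_le_sum h3).trans ?_)
    rw [Finset.sum_const, nsmul_eq_mul, mul_zero]
    positivity

theorem t_COREP (hD : S_DECP) : S_COREP := by
  intro Ω _ μ _ e he P
  classical
  obtain ⟨m, hm1, hm2, hm0, hm3, hm4⟩ := hD Ω μ e he P
  refine ⟨m, hm1, hm2, hm0, hm3, ?_⟩
  intro X N y T w hy hX hTn hT hw
  have hm4 := hm4 X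
  obtain ⟨S, hS⟩ : ∃ S, S = pr P X := ⟨_, rfl⟩
  obtain ⟨M, hM⟩ : ∃ M : ℕ → ℕ, M = fun n => ∏ h ∈ T, (n + h) := ⟨_, rfl⟩
  rw [← hS] at hm4
  obtain ⟨R, hR⟩ : ∃ R, R = S.filter (y < ·) := ⟨_, rfl⟩
  have hRS : R ⊆ S := by
    rw [hR]
    exact Finset.filter_subset _ _
  obtain ⟨Zc, hZc⟩ : ∃ Zc : Ω → ℂ, Zc = fun ω => ∑ p ∈ R, ((e p ω - m p ω : ℝ) : ℂ) *
    dl S M w N p (neg e (S.filter (· < p)) ω) := ⟨_, rfl⟩
  have hcb : ∀ p ∈ R, ∀ a, ‖dl S M w N p a‖ ≤ 3 * T.card * N / p := by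
    intro p hp a
    refine (norm_dl S M w hw N p a).trans ?_
    have h1 := card_odd_le P T N X p hT (by rw [← hS]; exact hRS hp)
    rw [← hS] at h1
    rw [hM]
    exact h1
  have hcN : ∀ p a, ‖dl S M w N p a‖ ≤ N := by
    intro p a
    refine (norm_dl S M w hw N p a).trans ?_
    have h1 := Finset.card_filter_le (Icc 1 N) (fun n => p ∈ odd S (M n))
    rw [Nat.card_Icc] at h1
    exact_mod_cast (by omega : ((Icc 1 N).filter (fun n => p ∈ odd S (M n))).card ≤ N)
  have hmeasd : ∀ p, Measurable fun ω => dl S M w N p (neg e (S.filter (· < p)) ω) := by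
    intro p
    have h1 := meas_neg he (S.filter (· < p))
    exact (@measurable_from_top (Finset ℕ) ℂ _ (dl S M w N p)).comp h1
  have hZm : Measurable Zc := by
    rw [hZc]
    refine Finset.measurable_sum _ fun p _ => ?_
    exact (Complex.measurable_ofReal.comp ((he.meas p).sub (hm1 p))).mul (hmeasd p)
  refine ⟨fun ω => ‖Zc ω‖, hZm.norm, fun ω => norm_nonneg _, ?_, ?_, ?_⟩
  · intro ω
    rw [hZc]
    refine (norm_sum_le _ _).trans ?_
    have h1 : ∀ p ∈ R, ‖((e p ω - m p ω : ℝ) : ℂ) * dl S M w N p (neg e (S.filter (· < p)) ω)‖ ≤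
        2 * N := by
      intro p _
      rw [norm_mul, Complex.norm_real, Real.norm_eq_abs]
      have h2 : |e p ω - m p ω| ≤ 2 := by
        have h3 := abs_le.1 (hm2 p ω)
        rw [abs_le]
        rcases he.val p ω with h4 | h4 <;> rw [h4] <;> constructor <;> linarith [h3.1, h3.2]
      exact mul_le_mul h2 (hcN p _) (norm_nonneg _) (by norm_num)
    refine (Finset.sum_le_sum h1).trans ?_
    rw [Finset.sum_const, nsmul_eq_mul]
    have h3 : R.card ≤ X := by
      have h4 : R ⊆ Icc 1 X := by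
        intro p hp
        have h5 := hRS hp
        rw [hS, mem_pr] at h5
        exact Finset.mem_Icc.2 ⟨h5.1.one_lt.le, h5.2.2⟩
      have h6 := Finset.card_le_card h4
      rw [Nat.card_Icc] at h6
      omega
    have h4 : (R.card : ℝ) ≤ X := by exact_mod_cast h3
    have h5 : (0 : ℝ) ≤ N := Nat.cast_nonneg _
    have h6 : (0 : ℝ) ≤ X := Nat.cast_nonneg _
    nlinarith [mul_le_mul_of_nonneg_right h4 h5, mul_nonneg h5 h6]
  · have h1 := hm4 R (dl S M w N) (fun p => 3 * T.card * N / p) hRS hcb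
    have h2 : ∑ p ∈ R, (3 * (T.card : ℝ) * (N : ℝ) / (p : ℝ)) ^ 2 ≤
        9 * (T.card : ℝ) ^ 2 * (N : ℝ) ^ 2 / (y : ℝ) := by
      have h3 : ∀ p ∈ R, (3 * (T.card : ℝ) * (N : ℝ) / (p : ℝ)) ^ 2 =
          9 * (T.card : ℝ) ^ 2 * (N : ℝ) ^ 2 * (1 / (p : ℝ) ^ 2) := by
        intro p _
        rw [div_pow]
        ring
      rw [Finset.sum_congr rfl h3, ← Finset.mul_sum]
      have h4 := inv_sq_sum y hy R (fun p hp => by
        rw [hR] at hp
        exact (Finset.mem_filter.1 hp).2)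
      calc 9 * (T.card : ℝ) ^ 2 * N ^ 2 * ∑ p ∈ R, 1 / (p : ℝ) ^ 2 ≤
          9 * (T.card : ℝ) ^ 2 * N ^ 2 * (1 / y) := mul_le_mul_of_nonneg_left h4 (by positivity)
        _ = _ := by ring
    have h3 : ∀ ω, ‖Zc ω‖ ^ 2 = ‖∑ p ∈ R, ((e p ω - m p ω : ℝ) : ℂ) *
      dl S M w N p (neg e (S.filter (· < p)) ω)‖ ^ 2 := by
      intro ω
      rw [hZc]
    simp only [h3]
    exact h1.trans h2
  · intro ω
    have h1 : ∑ n ∈ Icc 1 N, w n * ((∏ h ∈ T, cmf P (fun p => e p ω) (n + h) : ℝ) : ℂ) =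
        ∑ n ∈ Icc 1 N, w n * ((∏ p ∈ odd S (M n), e p ω : ℝ) : ℂ) := by
      refine Finset.sum_congr rfl fun n hn => ?_
      rw [Finset.mem_Icc] at hn
      rw [cmf_prod P _ T n hn.1, hM, hS]
      congr 2
      refine cmf_eq (fun p => he.val p ω) ?_ ?_
      · exact Finset.prod_ne_zero_iff.2 fun h _ => by omega
      · intro p hp hpd
        rw [Prime.dvd_finsetProd_iff hp.prime] at hpd
        obtain ⟨h, h6, h7⟩ := hpd
        have h8 := Nat.le_of_dvd (by omega) h7
        have h9 := Finset.mem_range.1 (hT h6)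
        omega
    rw [h1, decomp he.val S M w N y ω]
    have h2 : ∑ p ∈ S.filter (y < ·), ((e p ω : ℝ) : ℂ) * dl S M w N p (neg e (S.filter (· < p)) ω) =
        Zc ω + ∑ p ∈ R, ((m p ω : ℝ) : ℂ) * dl S M w N p (neg e (S.filter (· < p)) ω) := by
      rw [hZc, hR, ← Finset.sum_add_distrib]
      refine Finset.sum_congr rfl fun p _ => ?_
      push_cast
      ring
    rw [h2]
    have h3 : ‖∑ n ∈ (Icc 1 N).filter (fun n => ∀ p ∈ S, y < p → Even ((M n).factorization p)),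
        w n * ((∏ p ∈ odd S (M n), e p ω : ℝ) : ℂ)‖ ≤
        (((Icc 1 N).filter fun n : ℕ => ∀ p ∈ pr P X, y < p →
            Even ((∏ h ∈ T, (n + h)).factorization p)).card : ℕ) := by
      refine (norm_sum_le _ _).trans ?_
      have h4 : ∀ n ∈ (Icc 1 N).filter (fun n => ∀ p ∈ S, y < p → Even ((M n).factorization p)),
          ‖w n * ((∏ p ∈ odd S (M n), e p ω : ℝ) : ℂ)‖ ≤ 1 := by
        intro n _
        rw [norm_mul, Complex.norm_real, Real.norm_eq_abs, prod_sg he.val (odd S (M n)) S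
          (Finset.filter_subset _ _), abs_sg, mul_one]
        exact hw n
      refine (Finset.sum_le_sum h4).trans ?_
      rw [Finset.sum_const, nsmul_eq_mul, mul_one, hM, hS]
    have h4 : ‖∑ p ∈ R, ((m p ω : ℝ) : ℂ) * dl S M w N p (neg e (S.filter (· < p)) ω)‖ ≤
        3 * T.card * N * ∑ p ∈ (pr P X).filter (y < ·), 1 / (p : ℝ) * |m p ω| := by
      refine (norm_sum_le _ _).trans ?_
      rw [Finset.mul_sum, ← hS, ← hR]
      refine Finset.sum_le_sum fun p hp => ?_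
      rw [norm_mul, Complex.norm_real, Real.norm_eq_abs]
      calc |m p ω| * ‖dl S M w N p (neg e (S.filter (· < p)) ω)‖ ≤
          |m p ω| * (3 * T.card * N / p) := mul_le_mul_of_nonneg_left (hcb p hp _) (abs_nonneg _)
        _ = _ := by ring
    refine (norm_add_le _ _).trans ?_
    have h5 := norm_add_le (Zc ω) (∑ p ∈ R, ((m p ω : ℝ) : ℂ) *
      dl S M w N p (neg e (S.filter (· < p)) ω))
    linarith

end Pool.Agent.Q270.EN
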