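import Pool.Agent.Q270.EN.Stm2

set_option autoImplicit false

/-!
# Project EN (helper270): affine forms `a n + b`
-/

namespace Pool.Agent.Q270.EN

open Finset Filter Topology MeasureTheory

/-- a nonempty set of forms `q.1 * n + q.2` with `1 ≤ q.1 ≤ A`, `q.2 ≤ B`, pairwise not
proportional -/
def Adm (A B : ℕ) (T : Finset (ℕ × ℕ)) : Prop := T.Nonempty ∧
  (∀ q ∈ T, 1 ≤ q.1 ∧ q.1 ≤ A ∧ q.2 ≤ B) ∧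
  ∀ q ∈ T, ∀ q' ∈ T, q ≠ q' → q.1 * q'.2 ≠ q'.1 * q.2

/-- **COREA.** As `S_COREP`, for affine forms. -/
def S_COREA : Prop := ∀ (Ω : Type) [MeasurableSpace Ω] (μ : Measure Ω) [IsProbabilityMeasure μ]
  (e : ℕ → Ω → ℝ), Sgn e → ∀ (P : Set ℕ), ∃ m : ℕ → Ω → ℝ,
    (∀ p, Measurable (m p)) ∧ (∀ p ω, |m p ω| ≤ 1) ∧
    (∀ p, p.Prime → p ∈ P → 0 ≤ dd μ e (pr P p) p) ∧
    (∀ p, p.Prime → p ∈ P → ∫ ω, m p ω ^ 2 ∂μ ≤ 2 * dd μ e (pr P p) p) ∧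
    ∀ (A N y : ℕ) (T : Finset (ℕ × ℕ)) (w : ℕ → ℂ), 1 ≤ y → A ≤ y → Adm A (A * N) T →
      (∀ n, ‖w n‖ ≤ 1) → ∃ Z : Ω → ℝ, Measurable Z ∧ (∀ ω, 0 ≤ Z ω) ∧ (∃ B : ℝ, ∀ ω, Z ω ≤ B) ∧
        ∫ ω, Z ω ^ 2 ∂μ ≤ (3 * A * T.card * N) ^ 2 / y ∧
        ∀ ω, ‖∑ n ∈ Icc 1 N, w n *
            ((∏ q ∈ T, cmf P (fun p => e p ω) (q.1 * n + q.2) : ℝ) : ℂ)‖ ≤
          (((Icc 1 N).filter fun n : ℕ => ∀ p ∈ pr P (2 * A * N), y < p →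
            Even ((∏ q ∈ T, (q.1 * n + q.2)).factorization p)).card : ℕ) + Z ω +
          3 * A * T.card * N * ∑ p ∈ (pr P (2 * A * N)).filter (y < ·), 1 / (p : ℝ) * |m p ω|

/-- **WINA.** As `S_WIN`, for affine forms. -/
def S_WINA : Prop := ∀ (P : Set ℕ) (u : ℕ → ℕ),
  Tendsto (fun N : ℕ => ∑ p ∈ (pr P N).filter (u N < ·), 1 / (p : ℝ)) atTop atTop →
  ∀ (A k : ℕ) (ε : ℝ), 1 ≤ A → 0 < ε → ∃ (K : ℝ) (y : ℕ → ℕ), 0 < K ∧ Tendsto y atTop atTop ∧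
    (∀ᶠ N in atTop, u N ≤ y N ∧ 1 ≤ y N ∧ y N ≤ N) ∧
    (∀ᶠ N : ℕ in atTop, ∑ p ∈ (pr P (2 * A * N)).filter (y N < ·), 1 / (p : ℝ) ≤ K) ∧
    ∀ᶠ N : ℕ in atTop, ∀ T : Finset (ℕ × ℕ), Adm A (A * N) T → T.card ≤ k →
      ((∀ q ∈ T, ∀ q' ∈ T, q.1 * q'.2 ≤ u N) ∨ (Real.log N) ^ 2 ≤ u N) →
      ((((Icc 1 N).filter fun n : ℕ => ∀ p ∈ pr P (2 * A * N), y N < p →
        Even ((∏ q ∈ T, (q.1 * n + q.2)).factorization p)).card : ℕ) : ℝ) ≤ ε * N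

/-- **ASA.** As `S_AS`, for affine forms. Prove `t_ASA : S_COREA → S_WINA → S_ASA` (same proof as
`S_AS`, with `A` so large that `Adm A A T`). -/
def S_ASA : Prop := ∀ (Ω : Type) [MeasurableSpace Ω] (μ : Measure Ω) [IsProbabilityMeasure μ]
  (e : ℕ → Ω → ℝ), Sgn e → ∀ (P : Set ℕ),
    Tendsto (fun N : ℕ => ∑ p ∈ (pr P N).filter (⌈(Real.log N) ^ 2⌉₊ < ·), 1 / (p : ℝ))
      atTop atTop →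
    (Summable fun p : {p : ℕ // p.Prime ∧ p ∈ P} => dd μ e (pr P p) p / (p : ℕ)) →
    ∀ (A : ℕ) (T : Finset (ℕ × ℕ)) (w : ℕ → ℂ), Adm A A T → (∀ n, ‖w n‖ ≤ 1) → ∀ᵐ ω ∂μ,
      Tendsto (fun N : ℕ => (∑ n ∈ Icc 1 N, w n *
        ((∏ q ∈ T, cmf P (fun p => e p ω) (q.1 * n + q.2) : ℝ) : ℂ)) / (N : ℂ)) atTop (𝓝 0)

end Pool.Agent.Q270.EN
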