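import Pool.Agent.Q270.EN.Fin
import Pool.Agent.Q270.EN.Stm3
import Pool.Agent.Q163.RP.Turan
import Pool.Agent.Q163.RX.Gen

set_option autoImplicit false

/-!
# The choice of the window
-/

namespace Pool.Agent.Q270.EN

open Finset Filter Topology MeasureTheory
open Pool.Agent.Q163.RP Pool.Agent.Q163.RX

/-- the mass of the primes of `P` in `(y, z]` -/
noncomputable def ms (P : Set ℕ) (y z : ℕ) : ℝ := ∑ p ∈ (pr P z).filter (y < ·), 1 / (p : ℝ)

lemma ms_nonneg (P : Set ℕ) (y z : ℕ) : 0 ≤ ms P y z :=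
  Finset.sum_nonneg fun p _ => by positivity

lemma mem_win {P : Set ℕ} {y z p : ℕ} :
    p ∈ (pr P z).filter (y < ·) ↔ p.Prime ∧ p ∈ P ∧ p ≤ z ∧ y < p := by
  rw [Finset.mem_filter, mem_pr]
  tauto

lemma ms_zero {P : Set ℕ} {y z : ℕ} (h : z ≤ y) : ms P y z = 0 := by
  unfold ms
  apply Finset.sum_eq_zero
  intro p hp
  rw [mem_win] at hp
  omega

/-- enlarging the window to the right -/
lemma ms_right (P : Set ℕ) (y z x : ℕ) :
    ms P y x ≤ ms P y z + ∑ p ∈ ((Icc 1 x).filter Nat.Prime).filter (fun p => z < p), (1 : ℝ) / p := by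
  classical
  unfold ms
  have h1 : (pr P x).filter (y < ·) ⊆ (pr P z).filter (y < ·) ∪
      ((Icc 1 x).filter Nat.Prime).filter (fun p => z < p) := by
    intro p hp
    obtain ⟨h1, h2, h3, h4⟩ := mem_win.1 hp
    rw [Finset.mem_union]
    by_cases h5 : p ≤ z
    · exact Or.inl (mem_win.2 ⟨h1, h2, h5, h4⟩)
    · exact Or.inr (Finset.mem_filter.2 ⟨Finset.mem_filter.2
        ⟨Finset.mem_Icc.2 ⟨h1.one_lt.le, h3⟩, h1⟩, by omega⟩)
  refine (Finset.sum_le_sum_of_subset_of_nonneg h1 (fun p _ _ => by positivity)).trans ?_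
  have h2 := Finset.sum_union_inter (s₁ := (pr P z).filter (y < ·))
    (s₂ := ((Icc 1 x).filter Nat.Prime).filter (fun p => z < p)) (f := fun p : ℕ => (1 : ℝ) / p)
  have h3 : 0 ≤ ∑ p ∈ (pr P z).filter (y < ·) ∩
      ((Icc 1 x).filter Nat.Prime).filter (fun p => z < p), (1 : ℝ) / p :=
    Finset.sum_nonneg fun p _ => by positivity
  linarith

/-- raising the left end -/
lemma ms_left (P : Set ℕ) (y Y z : ℕ) : ms P y z ≤ ms P (max y Y) z + Y := by
  classical
  unfold ms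
  have h1 : (pr P z).filter (y < ·) ⊆ (pr P z).filter (max y Y < ·) ∪ Icc 1 Y := by
    intro p hp
    obtain ⟨h1, h2, h3, h4⟩ := mem_win.1 hp
    rw [Finset.mem_union]
    by_cases h5 : p ≤ Y
    · exact Or.inr (Finset.mem_Icc.2 ⟨h1.one_lt.le, h5⟩)
    · exact Or.inl (mem_win.2 ⟨h1, h2, h3, by omega⟩)
  refine (Finset.sum_le_sum_of_subset_of_nonneg h1 (fun p _ _ => by positivity)).trans ?_
  have h2 := Finset.sum_union_inter (s₁ := (pr P z).filter (max y Y < ·))
    (s₂ := Icc 1 Y) (f := fun p : ℕ => (1 : ℝ) / p)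
  have h3 : 0 ≤ ∑ p ∈ (pr P z).filter (max y Y < ·) ∩ Icc 1 Y, (1 : ℝ) / p :=
    Finset.sum_nonneg fun p _ => by positivity
  have h4 : ∑ p ∈ Icc 1 Y, (1 : ℝ) / p ≤ Y := by
    have h5 : ∀ p ∈ Icc 1 Y, (1 : ℝ) / p ≤ 1 := by
      intro p hp
      rw [Finset.mem_Icc] at hp
      have : (1 : ℝ) ≤ p := by exact_mod_cast hp.1
      exact div_le_one_of_le₀ this (by positivity)
    refine (Finset.sum_le_sum h5).trans ?_
    rw [Finset.sum_const, Nat.card_Icc, nsmul_eq_mul, mul_one]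
    simp
  linarith

lemma ms_succ (P : Set ℕ) (y z : ℕ) : ms P y z ≤ ms P (y + 1) z + 1 := by
  classical
  unfold ms
  have h1 : (pr P z).filter (y < ·) ⊆ insert (y + 1) ((pr P z).filter (y + 1 < ·)) := by
    intro p hp
    obtain ⟨h1, h2, h3, h4⟩ := mem_win.1 hp
    rw [Finset.mem_insert]
    by_cases h5 : p = y + 1
    · exact Or.inl h5
    · exact Or.inr (mem_win.2 ⟨h1, h2, h3, by omega⟩)
  refine (Finset.sum_le_sum_of_subset_of_nonneg h1 (fun p _ _ => by positivity)).trans ?_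
  rw [Finset.sum_insert (by
    intro h
    rw [mem_win] at h
    omega)]
  have : (1 : ℝ) / ((y + 1 : ℕ) : ℝ) ≤ 1 := by
    apply div_le_one_of_le₀ _ (by positivity)
    push_cast
    have : (0 : ℝ) ≤ y := Nat.cast_nonneg _
    linarith
  linarith

lemma sum_biU {α : Type} [DecidableEq α] (T : Finset α) (F : α → Finset ℕ) (f : ℕ → ℝ)
    (hf : ∀ p, 0 ≤ f p) : ∑ p ∈ T.biUnion F, f p ≤ ∑ q ∈ T, ∑ p ∈ F q, f p := by
  induction T using Finset.induction_on with
  | empty => simp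
  | insert a T ha ih =>
    rw [Finset.biUnion_insert, Finset.sum_insert ha]
    have h2 := Finset.sum_union_inter (s₁ := F a) (s₂ := T.biUnion F) (f := f)
    have h3 : 0 ≤ ∑ p ∈ F a ∩ T.biUnion F, f p := Finset.sum_nonneg fun p _ => hf p
    linarith

/-- few primes of the window divide the discriminants -/
lemma removed (P : Set ℕ) (A N y z : ℕ) (T : Finset (ℕ × ℕ)) (hT : Adm A (A * N) T) (hN : 1 ≤ N)
    (hy : 1 ≤ y) (q0 : ℕ × ℕ) (hq0 : q0 ∈ T) :
    ∑ p ∈ ((pr P z).filter (y < ·)).filter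
      (fun p : ℕ => ∃ q ∈ T, q ≠ q0 ∧ (p : ℤ) ∣ (q.1 : ℤ) * q0.2 - q0.1 * q.2), 1 / (p : ℝ) ≤
      T.card * (2 * Real.log (A * A * N) / y) := by
  classical
  obtain ⟨_, hT1, hT2⟩ := hT
  have hA1 : 1 ≤ A := (hT1 q0 hq0).1.trans (hT1 q0 hq0).2.1
  have h1 : ((pr P z).filter (y < ·)).filter
      (fun p : ℕ => ∃ q ∈ T, q ≠ q0 ∧ (p : ℤ) ∣ (q.1 : ℤ) * q0.2 - q0.1 * q.2) ⊆
      T.biUnion fun q => ((pr P z).filter (y < ·)).filter
        (fun p : ℕ => q ≠ q0 ∧ (p : ℤ) ∣ (q.1 : ℤ) * q0.2 - q0.1 * q.2) := by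
    intro p hp
    obtain ⟨h2, q, h3, h4, h5⟩ := Finset.mem_filter.1 hp
    rw [Finset.mem_biUnion]
    exact ⟨q, h3, Finset.mem_filter.2 ⟨h2, h4, h5⟩⟩
  refine (Finset.sum_le_sum_of_subset_of_nonneg h1 (fun p _ _ => by positivity)).trans ?_
  refine (sum_biU _ _ _ (fun p => by positivity)).trans ?_
  rw [← nsmul_eq_mul]
  refine Finset.sum_le_card_nsmul _ _ _ fun q hq => ?_
  by_cases hqq : q = q0
  · rw [Finset.filter_eq_empty_iff.2 (by
      intro p _ h
      exact h.1 hqq), Finset.sum_empty]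
    have h5 : (1 : ℝ) ≤ (A : ℝ) * A * N := by
      exact_mod_cast Nat.mul_pos (Nat.mul_pos hA1 hA1) hN
    have h6 : 0 ≤ Real.log ((A : ℝ) * A * N) := Real.log_nonneg h5
    positivity
  · have hne : (q.1 : ℤ) * q0.2 - q0.1 * q.2 ≠ 0 := by
      intro h
      apply hT2 q hq q0 hq0 hqq
      have : (q.1 : ℤ) * q0.2 = q0.1 * q.2 := by linarith
      exact_mod_cast this
    obtain ⟨D, hD⟩ : ∃ D : ℕ, D = ((q.1 : ℤ) * q0.2 - q0.1 * q.2).natAbs := ⟨_, rfl⟩
    have hD0 : D ≠ 0 := by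
      rw [hD]
      exact Int.natAbs_ne_zero.2 hne
    have hDle : D ≤ A * A * N := by
      have e1 : q.1 * q0.2 ≤ A * (A * N) := Nat.mul_le_mul (hT1 q hq).2.1 (hT1 q0 hq0).2.2
      have e2 : q0.1 * q.2 ≤ A * (A * N) := Nat.mul_le_mul (hT1 q0 hq0).2.1 (hT1 q hq).2.2
      have e3 : A * (A * N) = A * A * N := by ring
      rw [hD]
      zify at e1 e2 e3 ⊢
      rw [abs_le]
      have e4 : (0 : ℤ) ≤ q.1 * q0.2 := by positivity
      have e5 : (0 : ℤ) ≤ q0.1 * q.2 := by positivity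
      constructor <;> linarith
    have h5 := drop D y hD0 (((pr P z).filter (y < ·)).filter
        (fun p : ℕ => q ≠ q0 ∧ (p : ℤ) ∣ (q.1 : ℤ) * q0.2 - q0.1 * q.2)) hy (by
      intro p hp
      obtain ⟨h6, h7, h8⟩ := Finset.mem_filter.1 hp
      obtain ⟨h9, h10, h11, h12⟩ := mem_win.1 h6
      refine ⟨h9, h12, ?_⟩
      rw [hD]
      exact Int.natCast_dvd.1 h8)
    refine h5.trans ?_
    have h6 : Real.log D ≤ Real.log (A * A * N) := by
      apply Real.log_le_log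
      · exact_mod_cast Nat.pos_of_ne_zero hD0
      · exact_mod_cast hDle
    have h7 : (0 : ℝ) < y := by exact_mod_cast hy
    exact div_le_div_of_nonneg_right (by linarith) h7.le

/-- the count, for a given window -/
lemma cntA (P : Set ℕ) (A N y z X : ℕ) (T : Finset (ℕ × ℕ)) (hT : Adm A (A * N) T) (hN : 1 ≤ N)
    (hy : 1 ≤ y) (hAy : A ≤ y) (hzX : z ≤ X) (L : ℝ) (hL : 2 ≤ L) (hL1 : L ≤ ms P y z)
    (hR : (∀ q ∈ T, ∀ q' ∈ T, q.1 * q'.2 ≤ y) ∨ T.card * (2 * Real.log (A * A * N) / y) ≤ 1) :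
    ((((Icc 1 N).filter fun n : ℕ => ∀ p ∈ pr P X, y < p →
      Even ((∏ q ∈ T, (q.1 * n + q.2)).factorization p)).card : ℕ) : ℝ) ≤
      N / (L - 1) + 4 * (z : ℝ) ^ 2 + (N * ms P y z / y + z) := by
  classical
  have hT' := hT
  obtain ⟨⟨q0, hq0⟩, hT1, hT2⟩ := hT
  obtain ⟨Bad, hBad⟩ : ∃ Bad : ℕ → Prop, Bad = fun p : ℕ => ∃ q ∈ T, q ≠ q0 ∧
    (p : ℤ) ∣ (q.1 : ℤ) * q0.2 - q0.1 * q.2 := ⟨_, rfl⟩
  obtain ⟨B, hB⟩ : ∃ B, B = ((pr P z).filter (y < ·)).filter (fun p => ¬ Bad p) := ⟨_, rfl⟩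
  have hBm : ∀ p ∈ B, p.Prime ∧ p ∈ P ∧ p ≤ z ∧ y < p ∧ ¬ Bad p := by
    intro p hp
    rw [hB, Finset.mem_filter, mem_win] at hp
    exact ⟨hp.1.1, hp.1.2.1, hp.1.2.2.1, hp.1.2.2.2, hp.2⟩
  -- the mass of the bad primes
  have hrem : ∑ p ∈ ((pr P z).filter (y < ·)).filter Bad, 1 / (p : ℝ) ≤ 1 := by
    rcases hR with hR | hR
    · rw [Finset.filter_eq_empty_iff.2 ?_, Finset.sum_empty]
      · norm_num
      · intro p hp hbad
        rw [hBad] at hbad
        obtain ⟨q, hq, hqq, hdv⟩ := hbad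
        have hne : (q.1 : ℤ) * q0.2 - q0.1 * q.2 ≠ 0 := by
          intro h
          apply hT2 q hq q0 hq0 hqq
          have : (q.1 : ℤ) * q0.2 = q0.1 * q.2 := by linarith
          exact_mod_cast this
        have h1 := Int.le_of_dvd (abs_pos.2 hne) ((dvd_abs _ _).2 hdv)
        have h2 := hR q hq q0 hq0
        have h3 := hR q0 hq0 q hq
        have h4 := (mem_win.1 hp).2.2.2
        have h5 : |(q.1 : ℤ) * q0.2 - q0.1 * q.2| ≤ y := by
          zify at h2 h3
          rw [abs_le]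
          have e4 : (0 : ℤ) ≤ q.1 * q0.2 := by positivity
          have e5 : (0 : ℤ) ≤ q0.1 * q.2 := by positivity
          constructor <;> linarith
        have h6 : (p : ℤ) ≤ y := h1.trans h5
        have : p ≤ y := by exact_mod_cast h6
        omega
    · have h1 := removed P A N y z T hT' hN hy q0 hq0
      have h2 : ∑ p ∈ ((pr P z).filter (y < ·)).filter Bad, 1 / (p : ℝ) =
          ∑ p ∈ ((pr P z).filter (y < ·)).filter
            (fun p : ℕ => ∃ q ∈ T, q ≠ q0 ∧ (p : ℤ) ∣ (q.1 : ℤ) * q0.2 - q0.1 * q.2), 1 / (p : ℝ) := by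
        apply Finset.sum_congr _ fun _ _ => rfl
        apply Finset.filter_congr
        intro p _
        rw [hBad]
      rw [h2]
      exact h1.trans hR
  have hLB : ∑ p ∈ B, (1 : ℝ) / p = ms P y z - ∑ p ∈ ((pr P z).filter (y < ·)).filter Bad, 1 / (p : ℝ) := by
    unfold ms
    rw [hB, ← Finset.sum_filter_add_sum_filter_not ((pr P z).filter (y < ·)) Bad]
    ring
  have hLB1 : L - 1 ≤ ∑ p ∈ B, (1 : ℝ) / p := by
    rw [hLB]
    linarith
  have hLB2 : ∑ p ∈ B, (1 : ℝ) / p ≤ ms P y z := by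
    rw [hLB]
    have : 0 ≤ ∑ p ∈ ((pr P z).filter (y < ·)).filter Bad, 1 / (p : ℝ) :=
      Finset.sum_nonneg fun p _ => by positivity
    linarith
  have hy0 : (0 : ℝ) < y := by exact_mod_cast hy
  have h := count_even N z q0.1 q0.2 B (fun p hp => (hBm p hp).1)
    (fun p hp => Finset.mem_Icc.2 ⟨(hBm p hp).1.one_lt.le, (hBm p hp).2.2.1⟩)
    (fun p hp h1 => by
      have h2 := Nat.le_of_dvd (hT1 q0 hq0).1 h1
      have h3 := (hT1 q0 hq0).2.1
      have h4 := (hBm p hp).2.2.2.1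
      omega) (y : ℝ) hy0
    (fun p hp => by exact_mod_cast (hBm p hp).2.2.2.1.le) _ rfl (by linarith)
    (fun n => ∏ q ∈ T, (q.1 * n + q.2)) (by
      intro n hn
      rw [Finset.mem_Icc] at hn
      have hne : ∀ q ∈ T, q.1 * n + q.2 ≠ 0 := by
        intro q hq
        have h8 := (hT1 q hq).1
        have h9 : 1 ≤ q.1 * n := Nat.mul_pos h8 hn.1
        omega
      refine ⟨∏ q ∈ T.erase q0, (q.1 * n + q.2), ?_, ?_, ?_⟩
      · exact (Finset.mul_prod_erase T (fun q => q.1 * n + q.2) hq0).symm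
      · exact Finset.prod_ne_zero_iff.2 hne
      · intro p hp hdv hr
        have hpp := (hBm p hp).1
        obtain ⟨q, hq, hpq⟩ := (Prime.dvd_finsetProd_iff hpp.prime _).1 hr
        rw [Finset.mem_erase] at hq
        apply (hBm p hp).2.2.2.2
        rw [hBad]
        refine ⟨q, hq.2, hq.1, ?_⟩
        have h1 : (p : ℤ) ∣ (q0.1 : ℤ) * n + q0.2 := by exact_mod_cast Int.natCast_dvd_natCast.2 hdv
        have h2 : (p : ℤ) ∣ (q.1 : ℤ) * n + q.2 := by exact_mod_cast Int.natCast_dvd_natCast.2 hpq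
        have h3 : (q.1 : ℤ) * q0.2 - q0.1 * q.2 =
            q.1 * ((q0.1 : ℤ) * n + q0.2) - q0.1 * ((q.1 : ℤ) * n + q.2) := by ring
        rw [h3]
        exact dvd_sub (Dvd.dvd.mul_left h1 _) (Dvd.dvd.mul_left h2 _))
  have hsub : ((Icc 1 N).filter fun n : ℕ => ∀ p ∈ pr P X, y < p →
      Even ((∏ q ∈ T, (q.1 * n + q.2)).factorization p)) ⊆
      (Icc 1 N).filter fun n : ℕ => ∀ p ∈ B, Even ((∏ q ∈ T, (q.1 * n + q.2)).factorization p) := by
    intro n hn
    rw [Finset.mem_filter] at hn ⊢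
    refine ⟨hn.1, fun p hp => ?_⟩
    obtain ⟨h1, h2, h3, h4, _⟩ := hBm p hp
    exact hn.2 p (mem_pr.2 ⟨h1, h2, h3.trans hzX⟩) h4
  have h9 : ((((Icc 1 N).filter fun n : ℕ => ∀ p ∈ pr P X, y < p →
      Even ((∏ q ∈ T, (q.1 * n + q.2)).factorization p)).card : ℕ) : ℝ) ≤
      ((((Icc 1 N).filter fun n : ℕ => ∀ p ∈ B,
        Even ((∏ q ∈ T, (q.1 * n + q.2)).factorization p)).card : ℕ) : ℝ) := by
    exact_mod_cast Finset.card_le_card hsub
  refine h9.trans (h.trans ?_)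
  have hNn : (0 : ℝ) ≤ N := Nat.cast_nonneg _
  have e1 : (N : ℝ) / ∑ p ∈ B, (1 : ℝ) / p ≤ N / (L - 1) :=
    div_le_div_of_nonneg_left hNn (by linarith) hLB1
  have e2 : (N : ℝ) * (∑ p ∈ B, (1 : ℝ) / p) / y ≤ N * ms P y z / y :=
    div_le_div_of_nonneg_right (mul_le_mul_of_nonneg_left hLB2 hNn) hy0.le
  linarith

lemma log_small (A k : ℕ) (hA : 1 ≤ A) (u : ℕ → ℕ) : ∀ᶠ N : ℕ in atTop, ∀ y : ℕ, u N ≤ y →
    (Real.log N) ^ 2 ≤ u N → (k : ℝ) * (2 * Real.log (A * A * N) / y) ≤ 1 := by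
  have h1 : Tendsto (fun N : ℕ => Real.log (N : ℝ)) atTop atTop :=
    Real.tendsto_log_atTop.comp tendsto_natCast_atTop_atTop
  filter_upwards [h1.eventually_ge_atTop (4 * k + 4 * k * Real.log ((A : ℝ) * A) + 1),
    eventually_ge_atTop 1] with N hN hN1 y hy hu
  have hAr : (1 : ℝ) ≤ (A : ℝ) * A := by
    exact_mod_cast Nat.mul_pos hA hA
  have hl0 : 0 ≤ Real.log ((A : ℝ) * A) := Real.log_nonneg hAr
  have hk0 : (0 : ℝ) ≤ k := Nat.cast_nonneg _
  have hN0 : (0 : ℝ) < N := by exact_mod_cast hN1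
  have hlog : Real.log ((A : ℝ) * A * N) = Real.log ((A : ℝ) * A) + Real.log N :=
    Real.log_mul (by linarith) hN0.ne'
  have hlN : 1 ≤ Real.log (N : ℝ) := by
    have : 0 ≤ 4 * (k : ℝ) + 4 * k * Real.log ((A : ℝ) * A) := by positivity
    linarith
  have hy2 : (Real.log N) ^ 2 ≤ (y : ℝ) := hu.trans (by exact_mod_cast hy)
  have hy0 : (0 : ℝ) < y := lt_of_lt_of_le (by positivity) hy2
  rw [← mul_div_assoc, div_le_one hy0, hlog]
  refine le_trans ?_ hy2
  have e1 : 4 * (k : ℝ) ≤ Real.log N := by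
    have : 0 ≤ 4 * (k : ℝ) * Real.log ((A : ℝ) * A) := by positivity
    linarith
  have e2 : 4 * (k : ℝ) * Real.log ((A : ℝ) * A) ≤ Real.log N := by linarith
  nlinarith

theorem t_WINA : S_WINA := by
  classical
  intro P u hP A k ε hA hε
  obtain ⟨C0, hC0, hmert⟩ := mert_diff
  obtain ⟨L, hL⟩ : ∃ L : ℝ, L = 4 / ε + 2 := ⟨_, rfl⟩
  have hL2 : 2 ≤ L := by
    rw [hL]
    have : 0 < 4 / ε := by positivity
    linarith
  obtain ⟨y, hy⟩ : ∃ y : ℕ → ℕ, y = fun N => Nat.findGreatest (fun y => L ≤ ms P y (rt N)) (rt N) :=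
    ⟨_, rfl⟩
  -- the mass of the window (max (u N) Y, rt N]
  have hbig : ∀ Y : ℕ, ∀ᶠ N : ℕ in atTop, L ≤ ms P (max (u N) Y) (rt N) := by
    intro Y
    filter_upwards [hP.eventually_ge_atTop (L + Y + (Real.log (6 : ℕ) + C0)),
      eventually_ge_atTop 125] with N hN hN125
    obtain ⟨hz3, hz6⟩ := rt_facts hN125
    have h1 : ms P (u N) N ≤ ms P (u N) (rt N) + (Real.log (6 : ℕ) + C0) := by
      refine (ms_right P (u N) (rt N) N).trans ?_
      have h2 := hmert (rt N) 6 hz3 (by norm_num)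
      have h3 : ∑ p ∈ ((Icc 1 N).filter Nat.Prime).filter (fun p => rt N < p), (1 : ℝ) / p ≤
          ∑ p ∈ ((Icc 1 (rt N ^ 6)).filter Nat.Prime).filter (fun p => rt N < p), (1 : ℝ) / p := by
        refine Finset.sum_le_sum_of_subset_of_nonneg ?_ (fun p _ _ => by positivity)
        apply Finset.filter_subset_filter
        apply Finset.filter_subset_filter
        exact Finset.Icc_subset_Icc_right hz6
      linarith
    have h2 := ms_left P (u N) Y (rt N)
    have h3 : L + Y + (Real.log (6 : ℕ) + C0) ≤ ms P (u N) N := hN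
    linarith
  have hge : ∀ Y : ℕ, ∀ᶠ N : ℕ in atTop, max (u N) Y ≤ y N ∧ L ≤ ms P (y N) (rt N) := by
    intro Y
    filter_upwards [hbig Y] with N hN
    have h1 : max (u N) Y ≤ rt N := by
      by_contra hcon
      rw [ms_zero (by omega)] at hN
      linarith
    constructor
    · rw [hy]
      exact Nat.le_findGreatest h1 hN
    · rw [hy]
      exact Nat.findGreatest_spec (P := fun y => L ≤ ms P y (rt N)) h1 hN
  have hyz : ∀ N, y N ≤ rt N := by
    intro N
    rw [hy]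
    exact Nat.findGreatest_le _
  have hup : ∀ᶠ N : ℕ in atTop, ms P (y N) (rt N) ≤ L + 1 := by
    filter_upwards [hge 0] with N hN
    by_cases h1 : y N + 1 ≤ rt N
    · have h2 : ¬ L ≤ ms P (y N + 1) (rt N) := by
        rw [hy]
        refine Nat.findGreatest_is_greatest (P := fun y => L ≤ ms P y (rt N)) (n := rt N) ?_ ?_
        · exact Nat.lt_succ_self _
        · rw [hy] at h1
          exact h1
      have h3 := ms_succ P (y N) (rt N)
      push Not at h2
      linarith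
    · have h2 : rt N ≤ y N := by omega
      rw [ms_zero h2]
      linarith
  have hrtle : ∀ N : ℕ, rt N ≤ N := by
    intro N
    have h1 := rt_pow N
    exact (Nat.le_self_pow (by norm_num) (rt N)).trans h1
  have hyinf : Tendsto y atTop atTop := by
    rw [tendsto_atTop]
    intro Y
    filter_upwards [hge Y] with N hN
    exact (le_max_right _ _).trans hN.1
  refine ⟨L + 1 + (Real.log (7 : ℕ) + C0), y, ?_, hyinf, ?_, ?_, ?_⟩
  · have : 0 ≤ Real.log (7 : ℕ) := Real.log_nonneg (by norm_num)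
    linarith
  · filter_upwards [hge 1] with N hN
    exact ⟨(le_max_left _ _).trans hN.1, (le_max_right _ _).trans hN.1, (hyz N).trans (hrtle N)⟩
  · have hrinf : Tendsto rt atTop atTop := by
      rw [tendsto_atTop]
      intro Y
      filter_upwards [hge Y] with N hN
      exact (le_max_right _ _).trans (hN.1.trans (hyz N))
    filter_upwards [hup, eventually_ge_atTop 125, hrinf.eventually_ge_atTop (2 * A)] with
      N hN hN125 hA2
    obtain ⟨hz3, hz6⟩ := rt_facts hN125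
    have h1 : 2 * A * N ≤ rt N ^ 7 := by
      calc 2 * A * N ≤ rt N * rt N ^ 6 := Nat.mul_le_mul hA2 hz6
        _ = rt N ^ 7 := by ring
    have h2 := ms_right P (y N) (rt N) (2 * A * N)
    have h3 := hmert (rt N) 7 hz3 (by norm_num)
    have h4 : ∑ p ∈ ((Icc 1 (2 * A * N)).filter Nat.Prime).filter (fun p => rt N < p), (1 : ℝ) / p ≤
        ∑ p ∈ ((Icc 1 (rt N ^ 7)).filter Nat.Prime).filter (fun p => rt N < p), (1 : ℝ) / p := by
      refine Finset.sum_le_sum_of_subset_of_nonneg ?_ (fun p _ _ => by positivity)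
      apply Finset.filter_subset_filter
      apply Finset.filter_subset_filter
      exact Finset.Icc_subset_Icc_right h1
    have h5 : ms P (y N) (2 * A * N) ≤ L + 1 + (Real.log (7 : ℕ) + C0) :=
      h2.trans (add_le_add hN (h4.trans h3))
    exact h5
  · have hKy := (tendsto_natCast_atTop_atTop (R := ℝ)).comp hyinf
    filter_upwards [hge A, hup, rt_small (ε / 4) (by positivity), eventually_ge_atTop 1,
      log_small A k hA u, hKy.eventually_ge_atTop (4 * (L + 1) / ε)] with N hN1 hN2 hN3 hN4 hN5 hN6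
    intro T hT hk hTu
    have hAy : A ≤ y N := (le_max_right _ _).trans hN1.1
    have huy : u N ≤ y N := (le_max_left _ _).trans hN1.1
    have hy1 : 1 ≤ y N := hA.trans hAy
    have hy0 : (0 : ℝ) < y N := by exact_mod_cast hy1
    have hzX : rt N ≤ 2 * A * N := by
      refine (hrtle N).trans ?_
      have : 1 ≤ 2 * A := by omega
      exact Nat.le_mul_of_pos_left N (by omega)
    have h1 := cntA P A N (y N) (rt N) (2 * A * N) T hT hN4 hy1 hAy hzX L hL2 hN1.2 (by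
      rcases hTu with h | h
      · left
        intro q hq q' hq'
        exact (h q hq q' hq').trans huy
      · right
        have h2 := hN5 (y N) huy h
        refine le_trans ?_ h2
        have hAr : (1 : ℝ) ≤ (A : ℝ) * A * N := by
          exact_mod_cast Nat.mul_pos (Nat.mul_pos hA hA) hN4
        have h3 : 0 ≤ Real.log ((A : ℝ) * A * N) := Real.log_nonneg hAr
        have h4 : (T.card : ℝ) ≤ k := by exact_mod_cast hk
        exact mul_le_mul_of_nonneg_right h4 (by positivity))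
    refine h1.trans ?_
    have hNn : (0 : ℝ) ≤ N := Nat.cast_nonneg _
    have e1 : (N : ℝ) / (L - 1) ≤ ε / 4 * N := by
      have h2 : 4 / ε ≤ L - 1 := by rw [hL]; linarith
      have h3 : (N : ℝ) / (L - 1) ≤ N / (4 / ε) := div_le_div_of_nonneg_left hNn (by positivity) h2
      refine h3.trans (le_of_eq ?_)
      field_simp
    have e2 : (N : ℝ) * ms P (y N) (rt N) / y N ≤ ε / 4 * N := by
      rw [div_le_iff₀ hy0]
      have h3 : 4 * (L + 1) / ε ≤ (y N : ℝ) := hN6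
      rw [div_le_iff₀ hε] at h3
      have h4 : (N : ℝ) * ms P (y N) (rt N) ≤ N * (L + 1) := mul_le_mul_of_nonneg_left hN2 hNn
      nlinarith
    have e3 : 0 ≤ ε / 4 * (N : ℝ) := by positivity
    linarith

end Pool.Agent.Q270.EN
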