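import Pool.Agent.Q270.EN.FinA
import Pool.Agent.Q270.EN.Win

set_option autoImplicit false

/-!
# The threshold theorem, uniform in the law
-/

namespace Pool.Agent.Q270.EN

open Finset Filter Topology MeasureTheory

/-- the number of `n ≤ N` for which the exponents of all primes `p > y` of `P` in
`∏ (q.1 n + q.2)` are even -/
noncomputable def evn (P : Set ℕ) (T : Finset (ℕ × ℕ)) (X N y : ℕ) : ℕ := by
  classical exact ((Icc 1 N).filter fun n : ℕ => ∀ p ∈ pr P X, y < p →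
    Even ((∏ q ∈ T, (q.1 * n + q.2)).factorization p)).card

/-- the weighted sum of the values `f (q.1 n + q.2)` -/
noncomputable def cs {Ω : Type} (P : Set ℕ) (e : ℕ → Ω → ℝ) (T : Finset (ℕ × ℕ)) (w : ℕ → ℂ)
    (N : ℕ) (ω : Ω) : ℂ :=
  ∑ n ∈ Icc 1 N, w n * ((∏ q ∈ T, cmf P (fun p => e p ω) (q.1 * n + q.2) : ℝ) : ℂ)

theorem thr (hC : S_COREA) (hW : S_WINA) (hTel : S_TEL) (P : Set ℕ) (u : ℕ → ℕ)
    (hP : Tendsto (fun N : ℕ => ∑ p ∈ (pr P N).filter (u N < ·), 1 / (p : ℝ)) atTop atTop)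
    (A k : ℕ) (ε : ℝ) (hA : 1 ≤ A) (hε : 0 < ε) : ∃ ρ : ℝ, 0 < ρ ∧ ∀ Y : ℕ, ∀ᶠ N : ℕ in atTop,
      ∀ (Ω : Type) [MeasurableSpace Ω] (μ : Measure Ω) [IsProbabilityMeasure μ] (e : ℕ → Ω → ℝ),
      Sgn e → (∀ t, Y ≤ t → t ≤ 2 * A * N → defic μ e (pr P t) ≤ ρ * (pr P t).card) →
      ∀ T : Finset (ℕ × ℕ), Adm A (A * N) T → T.card ≤ k →
      ((∀ q ∈ T, ∀ q' ∈ T, q.1 * q'.2 ≤ u N) ∨ (Real.log N) ^ 2 ≤ u N) →
      ∀ w : ℕ → ℂ, (∀ n, ‖w n‖ ≤ 1) → ∫ ω, ‖cs P e T w N ω‖ ∂μ ≤ ε * N := by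
  classical
  obtain ⟨K, y, hK, hyinf, hy1, hy2, hy3⟩ := hW P u hP A k (ε / 3) hA (by positivity)
  obtain ⟨c, hc⟩ : ∃ c : ℝ, c = 3 * (A : ℝ) * k := ⟨_, rfl⟩
  have hc0 : 0 ≤ c := by rw [hc]; positivity
  obtain ⟨s, hs⟩ : ∃ s : ℝ, s = ε / (3 * (c + 1) * (1 + K)) := ⟨_, rfl⟩
  have hs0 : 0 < s := by rw [hs]; positivity
  refine ⟨s ^ 2 / 2, by positivity, fun Y => ?_⟩
  have hyr := (tendsto_natCast_atTop_atTop (R := ℝ)).comp hyinf
  filter_upwards [hy1, hy2, hy3, hyinf.eventually_ge_atTop (max Y A),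
    hyr.eventually_ge_atTop ((3 * c / ε) ^ 2), eventually_ge_atTop 1] with N h1 h2 h3 h4 h5 hN1
  intro Ω _ μ _ e he hdef T hT hk hTu w hw
  have hA1 : A ≤ y N := (le_max_right _ _).trans h4
  have hY1 : Y ≤ y N := (le_max_left _ _).trans h4
  have hyX : y N ≤ 2 * A * N := h1.2.2.trans (Nat.le_mul_of_pos_left N (by omega))
  obtain ⟨m, hm1, hm2, hm0, hm3, hm4⟩ := hC Ω μ e he P
  have hdr := drift hTel μ e he P (2 * A * N) (y N) hyX (s ^ 2 / 2) (by positivity) hm0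
    (fun t ht1 ht2 => hdef t (hY1.trans ht1) ht2)
  have hfin := fin_ineqA hC μ e he P A N (y N) T w h1.2.1 hA1 hT hw K (s ^ 2 / 2 * (1 + K)) h2
    (hdr.trans (mul_le_mul_of_nonneg_left (by linarith) (by positivity)))
  have hcs : ∀ ω, ‖cs P e T w N ω‖ = ‖∑ n ∈ Icc 1 N, w n *
        ((∏ q ∈ T, cmf P (fun p => e p ω) (q.1 * n + q.2) : ℝ) : ℂ)‖ := fun ω => rfl
  simp only [hcs]
  refine hfin.trans ?_
  have hcount := h3 T hT hk hTu
  have hNn : (0 : ℝ) ≤ N := Nat.cast_nonneg _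
  have hy0 : (0 : ℝ) < y N := by exact_mod_cast h1.2.1
  have hkr : (T.card : ℝ) ≤ k := by exact_mod_cast hk
  have hcT : 3 * (A : ℝ) * T.card ≤ c := by
    rw [hc]
    exact mul_le_mul_of_nonneg_left hkr (by positivity)
  have e1 : 3 * (A : ℝ) * T.card * N / Real.sqrt (y N) ≤ ε / 3 * N := by
    rw [div_le_iff₀ (Real.sqrt_pos.2 hy0)]
    have h6 : 3 * c / ε ≤ Real.sqrt (y N) := by
      apply Real.le_sqrt_of_sq_le
      exact h5
    rw [div_le_iff₀ hε] at h6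
    have h7 : 3 * (A : ℝ) * T.card * N ≤ c * N := mul_le_mul_of_nonneg_right hcT hNn
    nlinarith
  have e2 : Real.sqrt (K * (2 * (s ^ 2 / 2 * (1 + K)))) ≤ s * (1 + K) := by
    apply Real.sqrt_le_iff.2
    constructor
    · positivity
    · have h6 : K * (2 * (s ^ 2 / 2 * (1 + K))) = s ^ 2 * (K * (1 + K)) := by ring
      rw [h6, mul_pow]
      apply mul_le_mul_of_nonneg_left _ (by positivity)
      nlinarith
  have e3 : 3 * (A : ℝ) * T.card * N * Real.sqrt (K * (2 * (s ^ 2 / 2 * (1 + K)))) ≤ ε / 3 * N := by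
    have h6 : 3 * (A : ℝ) * T.card * N * Real.sqrt (K * (2 * (s ^ 2 / 2 * (1 + K)))) ≤
        (c + 1) * N * (s * (1 + K)) := by
      apply mul_le_mul _ e2 (Real.sqrt_nonneg _) (by positivity)
      exact mul_le_mul_of_nonneg_right (by linarith) hNn
    refine h6.trans (le_of_eq ?_)
    rw [hs]
    field_simp
  linarith

end Pool.Agent.Q270.EN
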