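import Pool.Agent.Q270.EN.AsmL

set_option autoImplicit false

/-! # The decomposition together with the conditional means (proof of `t_DECP` after helper151) -/

namespace Pool.Agent.Q270.EN

open Finset MeasureTheory
open Pool.Agent.Q151.EN

/-- the conditional mean of the sign at `p` given the signs at the smaller primes of `P` is at most
`η` in absolute value -/
def BiasLe {Ω : Type} [MeasurableSpace Ω] (μ : Measure Ω) (e : ℕ → Ω → ℝ) (P : Set ℕ) (p : ℕ)
    (η : ℝ) : Prop :=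
  ∀ a : Finset ℕ, |∫ ω in {ω | neg e ((pr P p).filter (· < p)) ω = a}, e p ω ∂μ| ≤
    η * μ.real {ω | neg e ((pr P p).filter (· < p)) ω = a}

/-- **DECP**, with the conditional means -/
theorem t_DECPC (hC : S_COND) (Ω : Type) [MeasurableSpace Ω] (μ : Measure Ω) [IsProbabilityMeasure μ]
    (e : ℕ → Ω → ℝ) (he : Sgn e) (P : Set ℕ) : ∃ m : ℕ → Ω → ℝ,
    (∀ p, p.Prime → p ∈ P → ∀ η : ℝ, BiasLe μ e P p η → ∀ᵐ ω ∂μ, |m p ω| ≤ η) ∧
    (∀ p, Measurable (m p)) ∧ (∀ p ω, |m p ω| ≤ 1) ∧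
    (∀ p, p.Prime → p ∈ P → 0 ≤ dd μ e (pr P p) p) ∧
    (∀ p, p.Prime → p ∈ P → ∫ ω, m p ω ^ 2 ∂μ ≤ 2 * dd μ e (pr P p) p) ∧
    ∀ (X : ℕ) (R : Finset ℕ) (δ : ℕ → Finset ℕ → ℂ) (c : ℕ → ℝ), R ⊆ pr P X →
      (∀ p ∈ R, ∀ a, ‖δ p a‖ ≤ c p) →
      ∫ ω, ‖∑ p ∈ R, ((e p ω - m p ω : ℝ) : ℂ) * δ p (neg e ((pr P X).filter (· < p)) ω)‖ ^ 2 ∂μ ≤
        ∑ p ∈ R, c p ^ 2 := by
  obtain ⟨U0, hU0⟩ : ∃ U0 : ℕ → Finset ℕ, ∀ p, U0 p = (pr P p).filter (· < p) := ⟨_, fun _ => rfl⟩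
  have hpU0 : ∀ p, p ∉ U0 p := by
    intro p h
    rw [hU0, mem_filter] at h
    exact lt_irrefl _ h.2
  choose M hM1 hM2 hM3 using fun p => hC Ω μ e he (U0 p) p (hpU0 p)
  have hdd : ∀ p, p.Prime → p ∈ P → ∫ ω, M p (neg e (U0 p) ω) ^ 2 ∂μ ≤ 2 * dd μ e (pr P p) p := by
    intro p hp1 hp2
    have h1 := hM3 p
    have h2 : insert p (U0 p) = (pr P p).filter (· ≤ p) := by
      ext x
      rw [hU0, mem_insert, mem_filter, mem_filter, mem_pr]
      constructor
      · rintro (h | h)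
        · subst h; exact ⟨⟨hp1, hp2, le_refl _⟩, le_refl _⟩
        · exact ⟨h.1, h.2.le⟩
      · rintro ⟨h, h'⟩
        rcases h'.eq_or_lt with h'' | h''
        · exact Or.inl h''
        · exact Or.inr ⟨h, h''⟩
    rw [h2, hU0 p] at h1
    rw [hU0 p]
    exact h1
  refine ⟨fun p ω => M p (neg e (U0 p) ω), ?_, fun p => meas_fun he (U0 p) (M p),
    fun p ω => hM1 p _, ?_, ?_, ?_⟩
  · intro p _ _ η hb
    have hall : ∀ᵐ ω ∂μ, ∀ a : Finset ℕ, neg e (U0 p) ω = a → |M p a| ≤ η := by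
      rw [ae_all_iff]
      intro a
      by_cases h0 : μ.real {ω | neg e (U0 p) ω = a} = 0
      · have h1 : μ {ω | neg e (U0 p) ω = a} = 0 := by
          rwa [measureReal_eq_zero_iff] at h0
        have h2 : ∀ᵐ ω ∂μ, ω ∉ {ω | neg e (U0 p) ω = a} := measure_eq_zero_iff_ae_notMem.1 h1
        filter_upwards [h2] with ω h3 h4
        exact absurd h4 h3
      · refine Filter.Eventually.of_forall fun ω _ => ?_
        have hpos : 0 < μ.real {ω | neg e (U0 p) ω = a} :=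
          lt_of_le_of_ne measureReal_nonneg (Ne.symm h0)
        have hms : MeasurableSet {ω | neg e (U0 p) ω = a} := Pool.Agent.Q151.EN.meas_neg he (U0 p) a
        have h1 := hM2 p (fun b => if b = a then 1 else 0)
        have h2 : (fun ω => (e p ω : ℂ) * (if neg e (U0 p) ω = a then (1 : ℂ) else 0)) =
            {ω | neg e (U0 p) ω = a}.indicator (fun ω => (e p ω : ℂ)) := by
          ext ω
          by_cases h3 : neg e (U0 p) ω = a
          · rw [Set.indicator_of_mem (show ω ∈ {ω | neg e (U0 p) ω = a} from h3), if_pos h3, mul_one]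
          · rw [Set.indicator_of_notMem (show ω ∉ {ω | neg e (U0 p) ω = a} from h3), if_neg h3,
              mul_zero]
        have h3 : (fun ω => (M p (neg e (U0 p) ω) : ℂ) * (if neg e (U0 p) ω = a then (1 : ℂ) else 0)) =
            {ω | neg e (U0 p) ω = a}.indicator (fun _ => (M p a : ℂ)) := by
          ext ω
          by_cases h3 : neg e (U0 p) ω = a
          · rw [Set.indicator_of_mem (show ω ∈ {ω | neg e (U0 p) ω = a} from h3), if_pos h3, mul_one,
              h3]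
          · rw [Set.indicator_of_notMem (show ω ∉ {ω | neg e (U0 p) ω = a} from h3), if_neg h3,
              mul_zero]
        rw [h2, h3, integral_indicator hms, integral_indicator hms, setIntegral_const] at h1
        have h4 : ((∫ ω in {ω | neg e (U0 p) ω = a}, e p ω ∂μ : ℝ) : ℂ) =
            ((μ.real {ω | neg e (U0 p) ω = a} * M p a : ℝ) : ℂ) := by
          rw [← integral_complex_ofReal, h1, Complex.real_smul]
          push_cast
          rfl
        have h5 := Complex.ofReal_inj.1 h4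
        have h6 := hb a
        rw [← hU0 p, h5, abs_mul, abs_of_pos hpos, mul_comm] at h6
        exact le_of_mul_le_mul_right h6 hpos
    filter_upwards [hall] with ω hω
    exact hω _ rfl
  · intro p hp1 hp2
    have h1 := hdd p hp1 hp2
    have h2 : 0 ≤ ∫ ω, M p (neg e (U0 p) ω) ^ 2 ∂μ := integral_nonneg fun ω => sq_nonneg _
    linarith
  · intro p hp1 hp2
    exact hdd p hp1 hp2
  · intro X R δ c hR hδ
    obtain ⟨S, hS⟩ : ∃ S, S = pr P X := ⟨_, rfl⟩
    rw [← hS] at hR ⊢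
    obtain ⟨U, hU⟩ : ∃ U : ℕ → Finset ℕ, ∀ p, U p = S.filter (· < p) := ⟨_, fun _ => rfl⟩
    have hpU : ∀ p, p ∉ U p := by
      intro p h
      rw [hU, mem_filter] at h
      exact lt_irrefl _ h.2
    have hUS : ∀ p, U p ⊆ S := fun p => by rw [hU]; exact filter_subset _ _
    have hUmono : ∀ {q p : ℕ}, q ≤ p → U q ⊆ U p := by
      intro q p hqp x hx
      rw [hU, mem_filter] at hx ⊢
      exact ⟨hx.1, hx.2.trans_le hqp⟩
    have hUU : ∀ p ∈ S, U0 p = U p := by
      intro p hp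
      rw [hS, mem_pr] at hp
      ext x
      rw [hU0, hU, hS, mem_filter, mem_filter, mem_pr, mem_pr]
      constructor
      · rintro ⟨⟨h1, h2, _⟩, h4⟩
        exact ⟨⟨h1, h2, h4.le.trans hp.2.2⟩, h4⟩
      · rintro ⟨⟨h1, h2, _⟩, h4⟩
        exact ⟨⟨h1, h2, h4.le⟩, h4⟩
    have hsw : ∀ ω, ‖∑ p ∈ R, ((e p ω - M p (neg e (U0 p) ω) : ℝ) : ℂ) *
        δ p (neg e (S.filter (· < p)) ω)‖ ^ 2 = ‖∑ p ∈ R, ((e p ω - M p (neg e (U p) ω) : ℝ) : ℂ) *
        δ p (neg e (S.filter (· < p)) ω)‖ ^ 2 := by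
      intro ω
      congr 2
      refine Finset.sum_congr rfl fun p hp => ?_
      rw [hUU p (hR hp)]
    simp only [hsw]
    simp only [← hU]
    -- everything is a function of the signs in `S`
    obtain ⟨b, hb⟩ : ∃ b : ℕ → Finset ℕ → ℝ, ∀ p a, b p a = if p ∈ a then -1 else 1 :=
      ⟨_, fun _ _ => rfl⟩
    have heb : ∀ {p : ℕ} {W : Finset ℕ}, p ∈ W → ∀ ω, e p ω = b p (neg e W ω) := by
      intro p W hp ω
      rw [hb]
      exact sgn_eq he hp ω
    obtain ⟨F, hF⟩ : ∃ F : ℕ → Finset ℕ → ℂ, ∀ p a, F p a =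
        ((b p a - M p (a ∩ U p) : ℝ) : ℂ) * δ p (a ∩ U p) := ⟨_, fun _ _ => rfl⟩
    have hV : ∀ p ∈ S, ∀ ω, ((e p ω - M p (neg e (U p) ω) : ℝ) : ℂ) * δ p (neg e (U p) ω) =
        F p (neg e S ω) := by
      intro p hp ω
      rw [hF, ← heb hp, ← neg_restrict (hUS p)]
    have hFU : ∀ {q p : ℕ}, q ∈ S → q < p → ∀ ω, F q (neg e S ω) = F q (neg e (U p) ω) := by
      intro q p hq hqp ω
      have hqU : q ∈ U p := by rw [hU, mem_filter]; exact ⟨hq, hqp⟩
      rw [hF, hF, ← heb hq, ← heb hqU, ← neg_restrict (hUS q), ← neg_restrict (hUmono hqp.le)]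
    -- the difference `e p - m p` is orthogonal to the functions of the signs below `p`
    have horth : ∀ p ∈ S, ∀ Y : Finset ℕ → ℂ,
        ∫ ω, ((e p ω - M p (neg e (U p) ω) : ℝ) : ℂ) * Y (neg e (U p) ω) ∂μ = 0 := by
      intro p hp Y
      have h1 : (fun ω => ((e p ω - M p (neg e (U p) ω) : ℝ) : ℂ) * Y (neg e (U p) ω)) =
          fun ω => (e p ω : ℂ) * Y (neg e (U p) ω) -
            (M p (neg e (U p) ω) : ℂ) * Y (neg e (U p) ω) := by
        ext ω
        push_cast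
        ring
      have i1 : Integrable (fun ω => (e p ω : ℂ) * Y (neg e (U p) ω)) μ := by
        have : (fun ω => (e p ω : ℂ) * Y (neg e (U p) ω)) =
            fun ω => (fun a : Finset ℕ => (b p a : ℂ) * Y (a ∩ U p)) (neg e S ω) := by
          ext ω
          simp only
          rw [← heb hp, ← neg_restrict (hUS p)]
        rw [this]
        exact int_fun he S (fun a : Finset ℕ => (b p a : ℂ) * Y (a ∩ U p))
      have i2 : Integrable (fun ω => (M p (neg e (U p) ω) : ℂ) * Y (neg e (U p) ω)) μ :=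
        int_fun he (U p) (fun a => (M p a : ℂ) * Y a)
      have h9 := hM2 p Y
      rw [hUU p hp] at h9
      rw [h1, integral_sub i1 i2, h9, sub_self]
    -- off diagonal
    have hoff : ∀ p ∈ S, ∀ q ∈ S, q < p →
        ∫ ω, F p (neg e S ω) * (starRingEnd ℂ) (F q (neg e S ω)) ∂μ = 0 := by
      intro p hp q hq hqp
      rw [← horth p hp (fun a => δ p a * (starRingEnd ℂ) (F q a))]
      congr 1
      ext ω
      rw [← hV p hp ω, hFU hq hqp ω, mul_assoc]
    have hoff' : ∀ p ∈ S, ∀ q ∈ S, p ≠ q →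
        ∫ ω, F p (neg e S ω) * (starRingEnd ℂ) (F q (neg e S ω)) ∂μ = 0 := by
      intro p hp q hq hpq
      rcases lt_or_gt_of_ne hpq with h | h
      · have h1 := hoff q hq p hp h
        have h2 := congrArg (starRingEnd ℂ) h1
        rw [← integral_conj, map_zero] at h2
        rw [← h2]
        congr 1
        ext ω
        rw [map_mul, Complex.conj_conj, mul_comm]
      · exact hoff p hp q hq h
    -- diagonal
    have hsq : ∀ p ∈ S, ∫ ω, (e p ω - M p (neg e (U p) ω)) ^ 2 ∂μ ≤ 1 := by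
      intro p hp
      have h1 := horth p hp (fun a => (M p a : ℂ))
      have h2 : ∫ ω, (e p ω - M p (neg e (U p) ω)) * M p (neg e (U p) ω) ∂μ = 0 := by
        have h3 : (fun ω => ((e p ω - M p (neg e (U p) ω) : ℝ) : ℂ) * (M p (neg e (U p) ω) : ℂ)) =
            fun ω => (((e p ω - M p (neg e (U p) ω)) * M p (neg e (U p) ω) : ℝ) : ℂ) := by
          ext ω; push_cast; ring
        rw [h3, integral_complex_ofReal] at h1
        exact_mod_cast h1
      have i1 : Integrable (fun ω => M p (neg e (U p) ω) ^ 2) μ :=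
        int_fun he (U p) (fun a => M p a ^ 2)
      have i2 : Integrable (fun ω => (e p ω - M p (neg e (U p) ω)) * M p (neg e (U p) ω)) μ := by
        have : (fun ω => (e p ω - M p (neg e (U p) ω)) * M p (neg e (U p) ω)) =
            fun ω => (fun a : Finset ℕ => (b p a - M p (a ∩ U p)) * M p (a ∩ U p)) (neg e S ω) := by
          ext ω
          simp only
          rw [← heb hp, ← neg_restrict (hUS p)]
        rw [this]
        exact int_fun he S (fun a : Finset ℕ => (b p a - M p (a ∩ U p)) * M p (a ∩ U p))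
      have h4 : (fun ω => (e p ω - M p (neg e (U p) ω)) ^ 2) = fun ω =>
          1 - M p (neg e (U p) ω) ^ 2 - 2 * ((e p ω - M p (neg e (U p) ω)) *
            M p (neg e (U p) ω)) := by
        ext ω
        have h5 : e p ω ^ 2 = 1 := by
          rcases he.val p ω with h | h <;> rw [h] <;> norm_num
        linear_combination h5
      have i3 : Integrable (fun ω => 1 - M p (neg e (U p) ω) ^ 2) μ :=
        (integrable_const _).sub i1
      rw [h4, integral_sub i3 (i2.const_mul 2),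
        integral_sub (integrable_const _) i1, integral_const_mul, h2]
      have h6 : 0 ≤ ∫ ω, M p (neg e (U p) ω) ^ 2 ∂μ := integral_nonneg fun ω => sq_nonneg _
      simp only [integral_const, probReal_univ, smul_eq_mul]
      linarith
    have hdiag : ∀ p ∈ R, ∫ ω, ‖F p (neg e S ω)‖ ^ 2 ∂μ ≤ c p ^ 2 := by
      intro p hpR
      have hp := hR hpR
      have h1 : ∀ ω, ‖F p (neg e S ω)‖ ^ 2 ≤ c p ^ 2 * (e p ω - M p (neg e (U p) ω)) ^ 2 := by
        intro ω
        rw [← hV p hp ω, norm_mul, mul_pow, Complex.norm_real, Real.norm_eq_abs, sq_abs, mul_comm]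
        apply mul_le_mul_of_nonneg_right _ (sq_nonneg _)
        exact pow_le_pow_left₀ (norm_nonneg _) (hδ p hpR _) 2
      have i2 : Integrable (fun ω => (e p ω - M p (neg e (U p) ω)) ^ 2) μ := by
        have : (fun ω => (e p ω - M p (neg e (U p) ω)) ^ 2) =
            fun ω => (fun a : Finset ℕ => (b p a - M p (a ∩ U p)) ^ 2) (neg e S ω) := by
          ext ω
          simp only
          rw [← heb hp, ← neg_restrict (hUS p)]
        rw [this]
        exact int_fun he S (fun a : Finset ℕ => (b p a - M p (a ∩ U p)) ^ 2)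
      calc ∫ ω, ‖F p (neg e S ω)‖ ^ 2 ∂μ ≤
          ∫ ω, c p ^ 2 * (e p ω - M p (neg e (U p) ω)) ^ 2 ∂μ :=
            integral_mono (int_fun he S (fun a => ‖F p a‖ ^ 2)) (i2.const_mul _) h1
        _ = c p ^ 2 * ∫ ω, (e p ω - M p (neg e (U p) ω)) ^ 2 ∂μ := integral_const_mul _ _
        _ ≤ c p ^ 2 * 1 := mul_le_mul_of_nonneg_left (hsq p hp) (sq_nonneg _)
        _ = c p ^ 2 := mul_one _
    -- assembly
    have hsum : ∀ ω, ‖∑ p ∈ R, ((e p ω - M p (neg e (U p) ω) : ℝ) : ℂ) *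
        δ p (neg e (U p) ω)‖ ^ 2 = ‖∑ p ∈ R, F p (neg e S ω)‖ ^ 2 := by
      intro ω
      rw [sum_congr rfl fun p hp => hV p (hR hp) ω]
    simp only [hsum]
    have hexp : ((∫ ω, ‖∑ p ∈ R, F p (neg e S ω)‖ ^ 2 ∂μ : ℝ) : ℂ) =
        ((∑ p ∈ R, ∫ ω, ‖F p (neg e S ω)‖ ^ 2 ∂μ : ℝ) : ℂ) := by
      rw [← integral_complex_ofReal]
      have h1 : (fun ω => ((‖∑ p ∈ R, F p (neg e S ω)‖ ^ 2 : ℝ) : ℂ)) = fun ω =>
          ∑ p ∈ R, ∑ q ∈ R, F p (neg e S ω) * (starRingEnd ℂ) (F q (neg e S ω)) := by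
        ext ω
        rw [Complex.ofReal_pow, ← Complex.mul_conj', map_sum, sum_mul_sum]
      rw [h1, integral_finset_sum _ fun p _ => integrable_finset_sum _ fun q _ =>
        int_fun he S (fun a => F p a * (starRingEnd ℂ) (F q a))]
      rw [Complex.ofReal_sum]
      refine sum_congr rfl fun p hp => ?_
      rw [integral_finset_sum _ fun q _ =>
        int_fun he S (fun a => F p a * (starRingEnd ℂ) (F q a)), sum_eq_single p]
      · rw [← integral_complex_ofReal]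
        congr 1
        ext ω
        rw [Complex.ofReal_pow, ← Complex.mul_conj']
      · intro q hq hqp
        exact hoff' p (hR hp) q (hR hq) (Ne.symm hqp)
      · intro h
        exact absurd hp h
    rw [Complex.ofReal_inj.1 hexp]
    exact sum_le_sum hdiag


theorem gen_of {Ω : Type} [MeasurableSpace Ω] (μ : Measure Ω) [IsProbabilityMeasure μ]
    (e : ℕ → Ω → ℝ) (he : Sgn e) (P : Set ℕ) (m : ℕ → Ω → ℝ) (hm1 : ∀ p, Measurable (m p))
    (hm2 : ∀ p ω, |m p ω| ≤ 1)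
    (hm4 : ∀ (X : ℕ) (R : Finset ℕ) (δ : ℕ → Finset ℕ → ℂ) (c : ℕ → ℝ), R ⊆ pr P X →
      (∀ p ∈ R, ∀ a, ‖δ p a‖ ≤ c p) →
      ∫ ω, ‖∑ p ∈ R, ((e p ω - m p ω : ℝ) : ℂ) * δ p (neg e ((pr P X).filter (· < p)) ω)‖ ^ 2 ∂μ ≤
        ∑ p ∈ R, c p ^ 2) : GenP μ e P m := by
  classical
  intro X y ι I M w c hc
  have hm4 := hm4 X
  obtain ⟨S, hS⟩ : ∃ S, S = pr P X := ⟨_, rfl⟩
  rw [← hS] at hm4 hc
  obtain ⟨R, hR⟩ : ∃ R, R = S.filter (y < ·) := ⟨_, rfl⟩
  rw [← hR] at hc
  have hRS : R ⊆ S := by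
    rw [hR]
    exact Finset.filter_subset _ _
  rw [← hS, ← hR]
  obtain ⟨Zc, hZc⟩ : ∃ Zc : Ω → ℂ, Zc = fun ω => ∑ p ∈ R, ((e p ω - m p ω : ℝ) : ℂ) *
    dlg S M w I p (neg e (S.filter (· < p)) ω) := ⟨_, rfl⟩
  have hcb : ∀ p ∈ R, ∀ a, ‖dlg S M w I p a‖ ≤ c p := by
    intro p hp a
    exact (norm_dlg S M w I p a).trans (hc p hp)
  have hmeasd : ∀ p, Measurable fun ω => dlg S M w I p (neg e (S.filter (· < p)) ω) := by
    intro p
    have h1 := meas_neg he (S.filter (· < p))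
    exact (@measurable_from_top (Finset ℕ) ℂ _ (dlg S M w I p)).comp h1
  have hZm : Measurable Zc := by
    rw [hZc]
    refine Finset.measurable_sum _ fun p _ => ?_
    exact (Complex.measurable_ofReal.comp ((he.meas p).sub (hm1 p))).mul (hmeasd p)
  refine ⟨fun ω => ‖Zc ω‖, hZm.norm, fun ω => norm_nonneg _, ?_, ?_, ?_⟩
  · intro ω
    rw [hZc]
    refine (norm_sum_le _ _).trans ?_
    rw [Finset.mul_sum]
    refine Finset.sum_le_sum fun p hp => ?_
    rw [norm_mul, Complex.norm_real, Real.norm_eq_abs]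
    have h2 : |e p ω - m p ω| ≤ 2 := by
      have h3 := abs_le.1 (hm2 p ω)
      rw [abs_le]
      rcases he.val p ω with h4 | h4 <;> rw [h4] <;> constructor <;> linarith [h3.1, h3.2]
    exact mul_le_mul h2 (hcb p hp _) (norm_nonneg _) (by norm_num)
  · have h1 := hm4 R (dlg S M w I) c hRS hcb
    have h3 : ∀ ω, ‖Zc ω‖ ^ 2 = ‖∑ p ∈ R, ((e p ω - m p ω : ℝ) : ℂ) *
      dlg S M w I p (neg e (S.filter (· < p)) ω)‖ ^ 2 := by
      intro ω
      rw [hZc]
    simp only [h3]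
    exact h1
  · intro ω
    rw [decompg he.val S M w I y ω]
    have h2 : ∑ p ∈ S.filter (y < ·), ((e p ω : ℝ) : ℂ) * dlg S M w I p (neg e (S.filter (· < p)) ω) =
        Zc ω + ∑ p ∈ R, ((m p ω : ℝ) : ℂ) * dlg S M w I p (neg e (S.filter (· < p)) ω) := by
      rw [hZc, hR, ← Finset.sum_add_distrib]
      refine Finset.sum_congr rfl fun p _ => ?_
      push_cast
      ring
    rw [h2]
    have h3 : ‖∑ n ∈ I.filter (fun n => ∀ p ∈ S, y < p → Even ((M n).factorization p)),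
        w n * ((∏ p ∈ odd S (M n), e p ω : ℝ) : ℂ)‖ ≤
        ∑ n ∈ I.filter (fun n => ∀ p ∈ S, y < p → Even ((M n).factorization p)), ‖w n‖ := by
      refine (norm_sum_le _ _).trans ?_
      refine Finset.sum_le_sum fun n _ => ?_
      rw [norm_mul, Complex.norm_real, Real.norm_eq_abs, prod_sg he.val (odd S (M n)) S
        (Finset.filter_subset _ _), abs_sg, mul_one]
    have h4 : ‖∑ p ∈ R, ((m p ω : ℝ) : ℂ) * dlg S M w I p (neg e (S.filter (· < p)) ω)‖ ≤
        ∑ p ∈ R, c p * |m p ω| := by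
      refine (norm_sum_le _ _).trans ?_
      refine Finset.sum_le_sum fun p hp => ?_
      rw [norm_mul, Complex.norm_real, Real.norm_eq_abs]
      calc |m p ω| * ‖dlg S M w I p (neg e (S.filter (· < p)) ω)‖ ≤
          |m p ω| * c p := mul_le_mul_of_nonneg_left (hcb p hp _) (abs_nonneg _)
        _ = _ := by ring
    refine (norm_add_le _ _).trans ?_
    have h5 := norm_add_le (Zc ω) (∑ p ∈ R, ((m p ω : ℝ) : ℂ) *
      dlg S M w I p (neg e (S.filter (· < p)) ω))
    linarith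


/-- **GEN with the conditional means** -/
theorem t_GENC {Ω : Type} [MeasurableSpace Ω] (μ : Measure Ω) [IsProbabilityMeasure μ]
    (e : ℕ → Ω → ℝ) (he : Sgn e) (P : Set ℕ) : ∃ m : ℕ → Ω → ℝ,
    (∀ p, p.Prime → p ∈ P → ∀ η : ℝ, BiasLe μ e P p η → ∀ᵐ ω ∂μ, |m p ω| ≤ η) ∧
    (∀ p, Measurable (m p)) ∧ (∀ p ω, |m p ω| ≤ 1) ∧
    (∀ p, p.Prime → p ∈ P → 0 ≤ dd μ e (pr P p) p) ∧
    (∀ p, p.Prime → p ∈ P → ∫ ω, m p ω ^ 2 ∂μ ≤ 2 * dd μ e (pr P p) p) ∧ GenP μ e P m := by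
  obtain ⟨m, hm5, hm1, hm2, hm0, hm3, hm4⟩ := t_DECPC Pool.Agent.Q151.EN.t_COND Ω μ e he P
  exact ⟨m, hm5, hm1, hm2, hm0, hm3, gen_of μ e he P m hm1 hm2 hm4⟩

end Pool.Agent.Q270.EN
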