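import Pool.Agent.Q270.EN.Stm

set_option autoImplicit false

/-!
# Project EN (helper270): versions with the same predictable part at all scales; almost sure part
-/

namespace Pool.Agent.Q270.EN

open Finset Filter Topology MeasureTheory

/-- **DECP.** As `S_DEC`, for the primes of `P`; `m` does not depend on `X`. -/
def S_DECP : Prop := ∀ (Ω : Type) [MeasurableSpace Ω] (μ : Measure Ω) [IsProbabilityMeasure μ]
  (e : ℕ → Ω → ℝ), Sgn e → ∀ (P : Set ℕ), ∃ m : ℕ → Ω → ℝ,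
    (∀ p, Measurable (m p)) ∧ (∀ p ω, |m p ω| ≤ 1) ∧
    (∀ p, p.Prime → p ∈ P → 0 ≤ dd μ e (pr P p) p) ∧
    (∀ p, p.Prime → p ∈ P → ∫ ω, m p ω ^ 2 ∂μ ≤ 2 * dd μ e (pr P p) p) ∧
    ∀ (X : ℕ) (R : Finset ℕ) (δ : ℕ → Finset ℕ → ℂ) (c : ℕ → ℝ), R ⊆ pr P X →
      (∀ p ∈ R, ∀ a, ‖δ p a‖ ≤ c p) →
      ∫ ω, ‖∑ p ∈ R, ((e p ω - m p ω : ℝ) : ℂ) * δ p (neg e ((pr P X).filter (· < p)) ω)‖ ^ 2 ∂μ ≤
        ∑ p ∈ R, c p ^ 2

/-- **COREP.** The predictable part `m` is the same for all sums and all scales. -/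
def S_COREP : Prop := ∀ (Ω : Type) [MeasurableSpace Ω] (μ : Measure Ω) [IsProbabilityMeasure μ]
  (e : ℕ → Ω → ℝ), Sgn e → ∀ (P : Set ℕ), ∃ m : ℕ → Ω → ℝ,
    (∀ p, Measurable (m p)) ∧ (∀ p ω, |m p ω| ≤ 1) ∧
    (∀ p, p.Prime → p ∈ P → 0 ≤ dd μ e (pr P p) p) ∧
    (∀ p, p.Prime → p ∈ P → ∫ ω, m p ω ^ 2 ∂μ ≤ 2 * dd μ e (pr P p) p) ∧
    ∀ (X N y : ℕ) (T : Finset ℕ) (w : ℕ → ℂ), 1 ≤ y → 2 * N ≤ X → T.Nonempty →
      T ⊆ range (N + 1) → (∀ n, ‖w n‖ ≤ 1) → ∃ Z : Ω → ℝ, Measurable Z ∧ (∀ ω, 0 ≤ Z ω) ∧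
        (∀ ω, Z ω ≤ 4 * N * X) ∧
        ∫ ω, Z ω ^ 2 ∂μ ≤ 9 * T.card ^ 2 * N ^ 2 / y ∧
        ∀ ω, ‖∑ n ∈ Icc 1 N, w n * ((∏ h ∈ T, cmf P (fun p => e p ω) (n + h) : ℝ) : ℂ)‖ ≤
          (((Icc 1 N).filter fun n : ℕ => ∀ p ∈ pr P X, y < p →
            Even ((∏ h ∈ T, (n + h)).factorization p)).card : ℕ) + Z ω +
          3 * T.card * N * ∑ p ∈ (pr P X).filter (y < ·), 1 / (p : ℝ) * |m p ω|

/-- **WIN.** (helper270 does this one, file `Win.lean`.) The choice of the window `(y N, 2 N]`: its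
mass is bounded, and few `n` have no prime of `P` of the window to an odd power. -/
def S_WIN : Prop := ∀ (P : Set ℕ) (u : ℕ → ℕ),
  Tendsto (fun N : ℕ => ∑ p ∈ (pr P N).filter (u N < ·), 1 / (p : ℝ)) atTop atTop →
  ∀ (k : ℕ) (ε : ℝ), 0 < ε → ∃ (K : ℝ) (y : ℕ → ℕ), 0 < K ∧ Tendsto y atTop atTop ∧
    (∀ᶠ N in atTop, u N ≤ y N ∧ 1 ≤ y N ∧ y N ≤ N) ∧
    (∀ᶠ N : ℕ in atTop, ∑ p ∈ (pr P (2 * N)).filter (y N < ·), 1 / (p : ℝ) ≤ K) ∧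
    ∀ᶠ N : ℕ in atTop, ∀ T : Finset ℕ, T.Nonempty → T.card ≤ k → T ⊆ range (N + 1) →
      (T ⊆ range (u N + 1) ∨ (Real.log N) ^ 2 ≤ u N) →
      ((((Icc 1 N).filter fun n : ℕ => ∀ p ∈ pr P (2 * N), y N < p →
        Even ((∏ h ∈ T, (n + h)).factorization p)).card : ℕ) : ℝ) ≤ ε * N

/-- **AS.** Almost sure version. Prove `t_AS : S_COREP → S_WIN → S_AS`.

PROOF. Notation: `C N ω` the sum over `n ∈ Icc 1 N`, `k = T.card`; `m` from `S_COREP`.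
(a) `∫ ∑' p, m_p ^ 2 / p ≤ ∑' 2 dd_p / p < ∞` (sum over the primes of `P`; `lintegral_tsum` and
`ae_lt_top`, or `MeasureTheory.hasSum_integral_of_summable_integral_norm` /
`MeasureTheory.ae_summable_of_...`), so for almost all `ω` the series `∑ p, m_p ω ^ 2 / p` over the
primes of `P` converges, and its tails `V y ω = ∑' p ∈ P, p > y, m_p ω ^ 2 / p` tend to `0`.
(b) Fix `ε > 0`. `S_WIN` with `u N = ⌈(log N) ^ 2⌉₊` (the hypothesis on `P` below is stated for this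
`u`), `k`, `ε` gives `K`, `y`. Cauchy-Schwarz:
`U N ω := ∑ p ∈ (pr P (2 N)).filter (y N < ·), 1 / p * |m_p ω| ≤ √(K * V (y N) ω) → 0` for almost
all `ω` (`∑ (1/p) |m| = ∑ √(1/p) (√(1/p) |m|)`).
(c) Let `θ > 1`, `N i = ⌊θ ^ i⌋₊`. `S_COREP` with `X = 2 N i`, `N = N i`, `y = y (N i)` gives `Z i`
with `∫ (Z i) ^ 2 ≤ 9 k² (N i)² / y (N i)` and `y (N i) ≥ u (N i) ≥ (log (N i)) ^ 2 ≥ c i ^ 2`, so
`∑ i, μ {Z i > ε N i} < ∞` (Markov, `mul_meas_ge_le_integral_of_nonneg` for `(Z i) ^ 2`) and almost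
surely `Z i ≤ ε N i` for all large `i` (`measure_limsup_atTop_eq_zero` / `ae_eventually_notMem`).
(Or: `∑ i, ∫ (Z i / N i) ^ 2 < ∞`, so almost surely `∑ (Z i / N i) ^ 2` converges, so `Z i / N i → 0`;
this is the same lemma as (a).)
(d) The count in `S_COREP` is `≤ ε N` by `S_WIN`. Hence almost surely for large `i`
`‖C (N i)‖ ≤ (3 + 3 k) ε N i`. Intersecting over `ε = 1 / r` and `θ = 1 + 1 / r`: almost surely
`C (N i) / N i → 0` for all these `θ`.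
(e) Real and imaginary part: `v N = (C N).re + N` is monotone (increments `1 + re ≥ 0`, since
`‖w n * ∏ ..‖ ≤ 1`) and `v (N i) / N i → 1`, so `v N / N → 1` by
`tendsto_div_of_monotone_of_tendsto_div_floor_pow`; the same for the imaginary part. -/
def S_AS : Prop := ∀ (Ω : Type) [MeasurableSpace Ω] (μ : Measure Ω) [IsProbabilityMeasure μ]
  (e : ℕ → Ω → ℝ), Sgn e → ∀ (P : Set ℕ),
    Tendsto (fun N : ℕ => ∑ p ∈ (pr P N).filter (⌈(Real.log N) ^ 2⌉₊ < ·), 1 / (p : ℝ))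
      atTop atTop →
    (Summable fun p : {p : ℕ // p.Prime ∧ p ∈ P} => dd μ e (pr P p) p / (p : ℕ)) →
    ∀ (T : Finset ℕ) (w : ℕ → ℂ), T.Nonempty → (∀ n, ‖w n‖ ≤ 1) → ∀ᵐ ω ∂μ,
      Tendsto (fun N : ℕ => (∑ n ∈ Icc 1 N,
        w n * ((∏ h ∈ T, cmf P (fun p => e p ω) (n + h) : ℝ) : ℂ)) / (N : ℂ)) atTop (𝓝 0)

/-- **RATE.** A rate of decay of the deficits suffices in `S_AS`. Prove `t_RATE : S_TEL → S_RATE`.

PROOF. `dd μ e (pr P p) p = dd μ e (pr P x) p` for `p ≤ x` and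
`A t := ∑_{p ∈ pr P t} dd_p = defic (pr P t)` by `S_TEL` (with `S = pr P x`, `t ≤ x`), `A t ≤ b t *
(pr P t).card` for `t ≥ x0` with `b t = (log log t) ^ (-(1 + κ))`. Dyadic blocks:
`∑_{2 ^ i < p ≤ 2 ^ (i+1)} dd_p / p ≤ A (2 ^ (i+1)) / 2 ^ i ≤ 2 b (2 ^ (i+1)) π(2 ^ (i+1)) / 2 ^ (i+1)
≤ C / (i (log i) ^ (1 + κ))` (Chebyshev's upper bound `π x ≤ C x / log x`; it is in Mathlib or in the
pool: search for `primeCounting`), and `∑ 1 / (i (log i) ^ (1 + κ)) < ∞` (Cauchy condensation or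
comparison with a telescoping sum). (`0 ≤ dd_p` is a hypothesis here.) -/
def S_RATE : Prop := ∀ (Ω : Type) [MeasurableSpace Ω] (μ : Measure Ω) [IsProbabilityMeasure μ]
  (e : ℕ → Ω → ℝ), Sgn e → ∀ (P : Set ℕ), (∀ p, p.Prime → p ∈ P → 0 ≤ dd μ e (pr P p) p) →
    (∃ κ : ℝ, 0 < κ ∧ ∀ᶠ x : ℕ in atTop,
      defic μ e (pr P x) ≤ (pr P x).card / (Real.log (Real.log x)) ^ (1 + κ)) →
    Summable fun p : {p : ℕ // p.Prime ∧ p ∈ P} => dd μ e (pr P p) p / (p : ℕ)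

end Pool.Agent.Q270.EN
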