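import Pool.Agent.Q151.EN.Com
import Pool.Agent.Q270.EN.Stm2
import Pool.Agent.Q270.EN.Core

set_option autoImplicit false

/-! # Project EN: DEC with the same predictable part at all scales (proof by helper151) -/

namespace Pool.Agent.Q270.EN

open Finset MeasureTheory
open Pool.Agent.Q151.EN

/-- **DECP.** -/
theorem t_DECP : S_COND → S_DECP := by
  intro hC Ω _ μ _ e he P
  obtain ⟨U0, hU0⟩ : ∃ U0 : ℕ → Finset ℕ, ∀ p, U0 p = (pr P p).filter (· < p) := ⟨_, fun _ => rfl⟩
  have hpU0 : ∀ p, p ∉ U0 p := by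
    intro p h
    rw [hU0, mem_filter] at h
    exact lt_irrefl _ h.2
  choose M hM1 hM2 hM3 using fun p => hC Ω μ e he (U0 p) p (hpU0 p)
  have hdd : ∀ p, p.Prime → p ∈ P → ∫ ω, M p (neg e (U0 p) ω) ^ 2 ∂μ ≤ 2 * dd μ e (pr P p) p := by
    intro p hp1 hp2
    have h1 := hM3 p
    have h2 : insert p (U0 p) = (pr P p).filter (· ≤ p) := by
      ext x
      rw [hU0, mem_insert, mem_filter, mem_filter, mem_pr]
      constructor
      · rintro (h | h)
        · subst h; exact ⟨⟨hp1, hp2, le_refl _⟩, le_refl _⟩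
        · exact ⟨h.1, h.2.le⟩
      · rintro ⟨h, h'⟩
        rcases h'.eq_or_lt with h'' | h''
        · exact Or.inl h''
        · exact Or.inr ⟨h, h''⟩
    rw [h2, hU0 p] at h1
    rw [hU0 p]
    exact h1
  refine ⟨fun p ω => M p (neg e (U0 p) ω), fun p => meas_fun he (U0 p) (M p),
    fun p ω => hM1 p _, ?_, ?_, ?_⟩
  · intro p hp1 hp2
    have h1 := hdd p hp1 hp2
    have h2 : 0 ≤ ∫ ω, M p (neg e (U0 p) ω) ^ 2 ∂μ := integral_nonneg fun ω => sq_nonneg _
    linarith
  · intro p hp1 hp2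
    exact hdd p hp1 hp2
  · intro X R δ c hR hδ
    obtain ⟨S, hS⟩ : ∃ S, S = pr P X := ⟨_, rfl⟩
    rw [← hS] at hR ⊢
    obtain ⟨U, hU⟩ : ∃ U : ℕ → Finset ℕ, ∀ p, U p = S.filter (· < p) := ⟨_, fun _ => rfl⟩
    have hpU : ∀ p, p ∉ U p := by
      intro p h
      rw [hU, mem_filter] at h
      exact lt_irrefl _ h.2
    have hUS : ∀ p, U p ⊆ S := fun p => by rw [hU]; exact filter_subset _ _
    have hUmono : ∀ {q p : ℕ}, q ≤ p → U q ⊆ U p := by
      intro q p hqp x hx
      rw [hU, mem_filter] at hx ⊢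
      exact ⟨hx.1, hx.2.trans_le hqp⟩
    have hUU : ∀ p ∈ S, U0 p = U p := by
      intro p hp
      rw [hS, mem_pr] at hp
      ext x
      rw [hU0, hU, hS, mem_filter, mem_filter, mem_pr, mem_pr]
      constructor
      · rintro ⟨⟨h1, h2, _⟩, h4⟩
        exact ⟨⟨h1, h2, h4.le.trans hp.2.2⟩, h4⟩
      · rintro ⟨⟨h1, h2, _⟩, h4⟩
        exact ⟨⟨h1, h2, h4.le⟩, h4⟩
    have hsw : ∀ ω, ‖∑ p ∈ R, ((e p ω - M p (neg e (U0 p) ω) : ℝ) : ℂ) *
        δ p (neg e (S.filter (· < p)) ω)‖ ^ 2 = ‖∑ p ∈ R, ((e p ω - M p (neg e (U p) ω) : ℝ) : ℂ) *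
        δ p (neg e (S.filter (· < p)) ω)‖ ^ 2 := by
      intro ω
      congr 2
      refine Finset.sum_congr rfl fun p hp => ?_
      rw [hUU p (hR hp)]
    simp only [hsw]
    simp only [← hU]
    -- everything is a function of the signs in `S`
    obtain ⟨b, hb⟩ : ∃ b : ℕ → Finset ℕ → ℝ, ∀ p a, b p a = if p ∈ a then -1 else 1 :=
      ⟨_, fun _ _ => rfl⟩
    have heb : ∀ {p : ℕ} {W : Finset ℕ}, p ∈ W → ∀ ω, e p ω = b p (neg e W ω) := by
      intro p W hp ω
      rw [hb]
      exact sgn_eq he hp ω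
    obtain ⟨F, hF⟩ : ∃ F : ℕ → Finset ℕ → ℂ, ∀ p a, F p a =
        ((b p a - M p (a ∩ U p) : ℝ) : ℂ) * δ p (a ∩ U p) := ⟨_, fun _ _ => rfl⟩
    have hV : ∀ p ∈ S, ∀ ω, ((e p ω - M p (neg e (U p) ω) : ℝ) : ℂ) * δ p (neg e (U p) ω) =
        F p (neg e S ω) := by
      intro p hp ω
      rw [hF, ← heb hp, ← neg_restrict (hUS p)]
    have hFU : ∀ {q p : ℕ}, q ∈ S → q < p → ∀ ω, F q (neg e S ω) = F q (neg e (U p) ω) := by
      intro q p hq hqp ω
      have hqU : q ∈ U p := by rw [hU, mem_filter]; exact ⟨hq, hqp⟩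
      rw [hF, hF, ← heb hq, ← heb hqU, ← neg_restrict (hUS q), ← neg_restrict (hUmono hqp.le)]
    -- the difference `e p - m p` is orthogonal to the functions of the signs below `p`
    have horth : ∀ p ∈ S, ∀ Y : Finset ℕ → ℂ,
        ∫ ω, ((e p ω - M p (neg e (U p) ω) : ℝ) : ℂ) * Y (neg e (U p) ω) ∂μ = 0 := by
      intro p hp Y
      have h1 : (fun ω => ((e p ω - M p (neg e (U p) ω) : ℝ) : ℂ) * Y (neg e (U p) ω)) =
          fun ω => (e p ω : ℂ) * Y (neg e (U p) ω) -
            (M p (neg e (U p) ω) : ℂ) * Y (neg e (U p) ω) := by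
        ext ω
        push_cast
        ring
      have i1 : Integrable (fun ω => (e p ω : ℂ) * Y (neg e (U p) ω)) μ := by
        have : (fun ω => (e p ω : ℂ) * Y (neg e (U p) ω)) =
            fun ω => (fun a : Finset ℕ => (b p a : ℂ) * Y (a ∩ U p)) (neg e S ω) := by
          ext ω
          simp only
          rw [← heb hp, ← neg_restrict (hUS p)]
        rw [this]
        exact int_fun he S (fun a : Finset ℕ => (b p a : ℂ) * Y (a ∩ U p))
      have i2 : Integrable (fun ω => (M p (neg e (U p) ω) : ℂ) * Y (neg e (U p) ω)) μ :=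
        int_fun he (U p) (fun a => (M p a : ℂ) * Y a)
      have h9 := hM2 p Y
      rw [hUU p hp] at h9
      rw [h1, integral_sub i1 i2, h9, sub_self]
    -- off diagonal
    have hoff : ∀ p ∈ S, ∀ q ∈ S, q < p →
        ∫ ω, F p (neg e S ω) * (starRingEnd ℂ) (F q (neg e S ω)) ∂μ = 0 := by
      intro p hp q hq hqp
      rw [← horth p hp (fun a => δ p a * (starRingEnd ℂ) (F q a))]
      congr 1
      ext ω
      rw [← hV p hp ω, hFU hq hqp ω, mul_assoc]
    have hoff' : ∀ p ∈ S, ∀ q ∈ S, p ≠ q →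
        ∫ ω, F p (neg e S ω) * (starRingEnd ℂ) (F q (neg e S ω)) ∂μ = 0 := by
      intro p hp q hq hpq
      rcases lt_or_gt_of_ne hpq with h | h
      · have h1 := hoff q hq p hp h
        have h2 := congrArg (starRingEnd ℂ) h1
        rw [← integral_conj, map_zero] at h2
        rw [← h2]
        congr 1
        ext ω
        rw [map_mul, Complex.conj_conj, mul_comm]
      · exact hoff p hp q hq h
    -- diagonal
    have hsq : ∀ p ∈ S, ∫ ω, (e p ω - M p (neg e (U p) ω)) ^ 2 ∂μ ≤ 1 := by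
      intro p hp
      have h1 := horth p hp (fun a => (M p a : ℂ))
      have h2 : ∫ ω, (e p ω - M p (neg e (U p) ω)) * M p (neg e (U p) ω) ∂μ = 0 := by
        have h3 : (fun ω => ((e p ω - M p (neg e (U p) ω) : ℝ) : ℂ) * (M p (neg e (U p) ω) : ℂ)) =
            fun ω => (((e p ω - M p (neg e (U p) ω)) * M p (neg e (U p) ω) : ℝ) : ℂ) := by
          ext ω; push_cast; ring
        rw [h3, integral_complex_ofReal] at h1
        exact_mod_cast h1
      have i1 : Integrable (fun ω => M p (neg e (U p) ω) ^ 2) μ :=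
        int_fun he (U p) (fun a => M p a ^ 2)
      have i2 : Integrable (fun ω => (e p ω - M p (neg e (U p) ω)) * M p (neg e (U p) ω)) μ := by
        have : (fun ω => (e p ω - M p (neg e (U p) ω)) * M p (neg e (U p) ω)) =
            fun ω => (fun a : Finset ℕ => (b p a - M p (a ∩ U p)) * M p (a ∩ U p)) (neg e S ω) := by
          ext ω
          simp only
          rw [← heb hp, ← neg_restrict (hUS p)]
        rw [this]
        exact int_fun he S (fun a : Finset ℕ => (b p a - M p (a ∩ U p)) * M p (a ∩ U p))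
      have h4 : (fun ω => (e p ω - M p (neg e (U p) ω)) ^ 2) = fun ω =>
          1 - M p (neg e (U p) ω) ^ 2 - 2 * ((e p ω - M p (neg e (U p) ω)) *
            M p (neg e (U p) ω)) := by
        ext ω
        have h5 : e p ω ^ 2 = 1 := by
          rcases he.val p ω with h | h <;> rw [h] <;> norm_num
        linear_combination h5
      have i3 : Integrable (fun ω => 1 - M p (neg e (U p) ω) ^ 2) μ :=
        (integrable_const _).sub i1
      rw [h4, integral_sub i3 (i2.const_mul 2),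
        integral_sub (integrable_const _) i1, integral_const_mul, h2]
      have h6 : 0 ≤ ∫ ω, M p (neg e (U p) ω) ^ 2 ∂μ := integral_nonneg fun ω => sq_nonneg _
      simp only [integral_const, probReal_univ, smul_eq_mul]
      linarith
    have hdiag : ∀ p ∈ R, ∫ ω, ‖F p (neg e S ω)‖ ^ 2 ∂μ ≤ c p ^ 2 := by
      intro p hpR
      have hp := hR hpR
      have h1 : ∀ ω, ‖F p (neg e S ω)‖ ^ 2 ≤ c p ^ 2 * (e p ω - M p (neg e (U p) ω)) ^ 2 := by
        intro ω
        rw [← hV p hp ω, norm_mul, mul_pow, Complex.norm_real, Real.norm_eq_abs, sq_abs, mul_comm]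
        apply mul_le_mul_of_nonneg_right _ (sq_nonneg _)
        exact pow_le_pow_left₀ (norm_nonneg _) (hδ p hpR _) 2
      have i2 : Integrable (fun ω => (e p ω - M p (neg e (U p) ω)) ^ 2) μ := by
        have : (fun ω => (e p ω - M p (neg e (U p) ω)) ^ 2) =
            fun ω => (fun a : Finset ℕ => (b p a - M p (a ∩ U p)) ^ 2) (neg e S ω) := by
          ext ω
          simp only
          rw [← heb hp, ← neg_restrict (hUS p)]
        rw [this]
        exact int_fun he S (fun a : Finset ℕ => (b p a - M p (a ∩ U p)) ^ 2)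
      calc ∫ ω, ‖F p (neg e S ω)‖ ^ 2 ∂μ ≤
          ∫ ω, c p ^ 2 * (e p ω - M p (neg e (U p) ω)) ^ 2 ∂μ :=
            integral_mono (int_fun he S (fun a => ‖F p a‖ ^ 2)) (i2.const_mul _) h1
        _ = c p ^ 2 * ∫ ω, (e p ω - M p (neg e (U p) ω)) ^ 2 ∂μ := integral_const_mul _ _
        _ ≤ c p ^ 2 * 1 := mul_le_mul_of_nonneg_left (hsq p hp) (sq_nonneg _)
        _ = c p ^ 2 := mul_one _
    -- assembly
    have hsum : ∀ ω, ‖∑ p ∈ R, ((e p ω - M p (neg e (U p) ω) : ℝ) : ℂ) *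
        δ p (neg e (U p) ω)‖ ^ 2 = ‖∑ p ∈ R, F p (neg e S ω)‖ ^ 2 := by
      intro ω
      rw [sum_congr rfl fun p hp => hV p (hR hp) ω]
    simp only [hsum]
    have hexp : ((∫ ω, ‖∑ p ∈ R, F p (neg e S ω)‖ ^ 2 ∂μ : ℝ) : ℂ) =
        ((∑ p ∈ R, ∫ ω, ‖F p (neg e S ω)‖ ^ 2 ∂μ : ℝ) : ℂ) := by
      rw [← integral_complex_ofReal]
      have h1 : (fun ω => ((‖∑ p ∈ R, F p (neg e S ω)‖ ^ 2 : ℝ) : ℂ)) = fun ω =>
          ∑ p ∈ R, ∑ q ∈ R, F p (neg e S ω) * (starRingEnd ℂ) (F q (neg e S ω)) := by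
        ext ω
        rw [Complex.ofReal_pow, ← Complex.mul_conj', map_sum, sum_mul_sum]
      rw [h1, integral_finset_sum _ fun p _ => integrable_finset_sum _ fun q _ =>
        int_fun he S (fun a => F p a * (starRingEnd ℂ) (F q a))]
      rw [Complex.ofReal_sum]
      refine sum_congr rfl fun p hp => ?_
      rw [integral_finset_sum _ fun q _ =>
        int_fun he S (fun a => F p a * (starRingEnd ℂ) (F q a)), sum_eq_single p]
      · rw [← integral_complex_ofReal]
        congr 1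
        ext ω
        rw [Complex.ofReal_pow, ← Complex.mul_conj']
      · intro q hq hqp
        exact hoff' p (hR hp) q (hR hq) (Ne.symm hqp)
      · intro h
        exact absurd hp h
    rw [Complex.ofReal_inj.1 hexp]
    exact sum_le_sum hdiag

end Pool.Agent.Q270.EN
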