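import Pool.Agent.Q270.EN.Stm4
import Pool.Agent.Q270.EN.Dec2
import Pool.Agent.Q26.EN.TEL
import Pool.Agent.Q151.EN.COND
import Pool.Agent.Q151.EN.MIX
import Pool.Agent.Q177.EN.RATE
import Pool.Agent.Q211.EN.Asa
import Pool.Agent.Q48.EN.Upp
import Pool.Agent.Q48.EN.Low
import Pool.Agent.Q48.EN.Nec

set_option autoImplicit false

/-!
# Assembly
-/

namespace Pool.Agent.Q270.EN

open Finset Filter Topology MeasureTheory

theorem a_GEN : S_GEN := t_GEN (t_DECP Pool.Agent.Q151.EN.t_COND)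

theorem a_COREA : S_COREA := t_COREA a_GEN

/-- **The price of a violation**, for every law of the signs -/
theorem price {Ω : Type} [MeasurableSpace Ω] (μ : Measure Ω) [IsProbabilityMeasure μ]
    (e : ℕ → Ω → ℝ) (he : Sgn e) (P : Set ℕ) (A N y : ℕ) (T : Finset (ℕ × ℕ)) (w : ℕ → ℂ)
    (hy : 1 ≤ y) (hAy : A ≤ y) (hT : Adm A (A * N) T) (hw : ∀ n, ‖w n‖ ≤ 1) :
    ∫ ω, ‖cs P e T w N ω‖ ∂μ ≤ evn P T (2 * A * N) N y +
      3 * A * T.card * N / Real.sqrt y * (1 + Real.sqrt (2 * ms P y (2 * A * N) *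
        defic μ e (pr P (2 * A * N)))) := by
  classical
  obtain ⟨X, hX⟩ : ∃ X, X = 2 * A * N := ⟨_, rfl⟩
  obtain ⟨S, hS⟩ : ∃ S, S = pr P X := ⟨_, rfl⟩
  obtain ⟨D, hD⟩ : ∃ D, D = defic μ e S := ⟨_, rfl⟩
  obtain ⟨m, hm1, hm2, hm0, hm3, hm4⟩ := a_COREA Ω μ e he P
  have hy0 : (0 : ℝ) < y := by exact_mod_cast hy
  have hSle : S.filter (· ≤ X) = S := by
    rw [Finset.filter_eq_self]
    intro p hp
    rw [hS] at hp
    exact (mem_pr.1 hp).2.2
  have htel := Pool.Agent.Q26.EN.t_TEL Ω μ e he S X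
  rw [hSle, ← hD] at htel
  have hdd : ∀ p ∈ S, 0 ≤ dd μ e S p := by
    intro p hp
    rw [hS] at hp ⊢
    have h1 := mem_pr.1 hp
    rw [dd_pr _ _ P h1.2.2]
    exact hm0 p h1.1 h1.2.1
  have hW : ∑ p ∈ (pr P (2 * A * N)).filter (y < ·), dd μ e (pr P p) p / (p : ℝ) ≤
      D / y := by
    rw [← hX, ← hS]
    have h1 : ∑ p ∈ S.filter (y < ·), dd μ e (pr P p) p / (p : ℝ) ≤
        ∑ p ∈ S.filter (y < ·), dd μ e S p / (y : ℝ) := by
      refine Finset.sum_le_sum fun p hp => ?_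
      obtain ⟨h1, h2⟩ := Finset.mem_filter.1 hp
      have h3 := hdd p h1
      rw [hS] at h1 h3 ⊢
      have h4 := mem_pr.1 h1
      rw [dd_pr _ _ P h4.2.2] at h3 ⊢
      refine div_le_div_of_nonneg_left h3 hy0 ?_
      exact_mod_cast h2.le
    refine h1.trans ?_
    rw [← Finset.sum_div]
    refine div_le_div_of_nonneg_right ?_ hy0.le
    rw [← htel]
    exact Finset.sum_le_sum_of_subset_of_nonneg (Finset.filter_subset _ _)
      fun p hp _ => hdd p hp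
  have hfin := fin_ineqA a_COREA μ e he P A N y T w hy hAy hT hw (ms P y (2 * A * N)) (D / y)
    le_rfl hW
  have hcs : ∀ ω, ‖cs P e T w N ω‖ = ‖∑ n ∈ Icc 1 N, w n *
        ((∏ q ∈ T, cmf P (fun p => e p ω) (q.1 * n + q.2) : ℝ) : ℂ)‖ := fun ω => rfl
  simp only [hcs]
  refine hfin.trans ?_
  have hevn : ((((Icc 1 N).filter fun n : ℕ => ∀ p ∈ pr P (2 * A * N), y < p →
            Even ((∏ q ∈ T, (q.1 * n + q.2)).factorization p)).card : ℕ) : ℝ) =
      (evn P T (2 * A * N) N y : ℝ) := by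
    congr 1
  rw [hevn, ← hX, ← hS, ← hD]
  have h1 : ms P y X * (2 * (D / y)) = 2 * ms P y X * D / y := by ring
  have h0 : Real.sqrt (2 * ms P y X * D / y) = Real.sqrt (2 * ms P y X * D) / Real.sqrt y := by
    apply Real.sqrt_div'
    exact hy0.le
  rw [h1, h0]
  apply le_of_eq
  ring

/-- **The threshold**, uniform in the law and in the forms -/
theorem thr_ent (P : Set ℕ) (u : ℕ → ℕ)
    (hP : Tendsto (fun N : ℕ => ms P (u N) N) atTop atTop)
    (A k : ℕ) (ε : ℝ) (hA : 1 ≤ A) (hε : 0 < ε) : ∃ η : ℝ, 0 < η ∧ ∀ Y : ℕ, ∀ᶠ N : ℕ in atTop,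
      ∀ (Ω : Type) [MeasurableSpace Ω] (μ : Measure Ω) [IsProbabilityMeasure μ] (e : ℕ → Ω → ℝ),
      Sgn e → (∀ t, Y ≤ t → t ≤ 2 * A * N →
        (1 - η) * ((pr P t).card * Real.log 2) ≤ ent μ e (pr P t)) →
      ∀ T : Finset (ℕ × ℕ), Adm A (A * N) T → T.card ≤ k →
      ((∀ q ∈ T, ∀ q' ∈ T, q.1 * q'.2 ≤ u N) ∨ (Real.log N) ^ 2 ≤ u N) →
      ∀ w : ℕ → ℂ, (∀ n, ‖w n‖ ≤ 1) → ∫ ω, ‖cs P e T w N ω‖ ∂μ ≤ ε * N := by
  obtain ⟨ρ, hρ, h⟩ := thr a_COREA t_WINA Pool.Agent.Q26.EN.t_TEL P u hP A k ε hA hε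
  have hlog : 0 < Real.log 2 := Real.log_pos (by norm_num)
  refine ⟨ρ / Real.log 2, by positivity, fun Y => ?_⟩
  filter_upwards [h Y] with N hN
  intro Ω _ μ _ e he hent
  refine hN Ω μ e he ?_
  intro t ht1 ht2
  have h1 := hent t ht1 ht2
  unfold defic
  have h2 : (1 - ρ / Real.log 2) * ((pr P t).card * Real.log 2) =
      (pr P t).card * Real.log 2 - ρ * (pr P t).card := by
    field_simp
  rw [h2] at h1
  linarith

/-- full entropy rate -/
def FullEntropy {Ω : Type} [MeasurableSpace Ω] (μ : Measure Ω) (e : ℕ → Ω → ℝ) (P : Set ℕ) : Prop :=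
  ∀ η : ℝ, 0 < η → ∀ᶠ x : ℕ in atTop, (1 - η) * ((pr P x).card * Real.log 2) ≤ ent μ e (pr P x)

theorem thr_one {Ω : Type} [MeasurableSpace Ω] (μ : Measure Ω) [IsProbabilityMeasure μ]
    (e : ℕ → Ω → ℝ) (he : Sgn e) (P : Set ℕ) (hP : Tendsto (fun N : ℕ => ms P 0 N) atTop atTop)
    (hfull : FullEntropy μ e P) (A : ℕ) (T : Finset (ℕ × ℕ)) (hT : Adm A A T) (w : ℕ → ℕ → ℂ)
    (hw : ∀ N n, ‖w N n‖ ≤ 1) :
    Tendsto (fun N : ℕ => (∫ ω, ‖cs P e T (w N) N ω‖ ∂μ) / N) atTop (𝓝 0) := by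
  obtain ⟨⟨q0, hq0⟩, hT1, hT2⟩ := id hT
  have hA : 1 ≤ A := (hT1 q0 hq0).1.trans (hT1 q0 hq0).2.1
  rw [Metric.tendsto_atTop]
  intro ε hε
  have hP' : Tendsto (fun N : ℕ => ms P ((fun _ => A * A) N) N) atTop atTop := by
    refine tendsto_atTop_mono (f := fun N : ℕ => ms P 0 N - (A * A : ℕ)) ?_
      (tendsto_atTop_add_const_right _ _ hP)
    intro N
    have h1 := ms_left P 0 (A * A) N
    rw [Nat.zero_max] at h1
    linarith
  obtain ⟨η, hη, h⟩ := thr_ent P (fun _ => A * A) hP' A T.card (ε / 2) hA (by positivity)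
  obtain ⟨Y, hY⟩ := Filter.eventually_atTop.1 (hfull η hη)
  obtain ⟨N0, hN0⟩ := Filter.eventually_atTop.1 (h Y)
  refine ⟨max N0 1, fun N hN => ?_⟩
  have hN1 : 1 ≤ N := (le_max_right _ _).trans hN
  have hNp : (0 : ℝ) < N := by exact_mod_cast hN1
  have h1 := hN0 N ((le_max_left _ _).trans hN) Ω μ e he (fun t ht _ => hY t ht) T
    ⟨⟨q0, hq0⟩, fun q hq => ⟨(hT1 q hq).1, (hT1 q hq).2.1,
      (hT1 q hq).2.2.trans (Nat.le_mul_of_pos_right A hN1)⟩, hT2⟩ le_rfl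
    (Or.inl fun q hq q' hq' => Nat.mul_le_mul (hT1 q hq).2.1 (hT1 q' hq').2.2) (w N) (hw N)
  have h2 : 0 ≤ ∫ ω, ‖cs P e T (w N) N ω‖ ∂μ := integral_nonneg fun ω => norm_nonneg _
  rw [dist_zero_right, Real.norm_eq_abs, abs_of_nonneg (by positivity), div_lt_iff₀ hNp]
  nlinarith

/-- `g` changed at the primes of `P` by the signs `s` -/
noncomputable def chg (P : Set ℕ) (g : ℕ → ℂ) (s : ℕ → ℝ) (n : ℕ) : ℂ := g n * (cmf P s n : ℂ)

theorem as_all {Ω : Type} [MeasurableSpace Ω] (μ : Measure Ω) [IsProbabilityMeasure μ]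
    (e : ℕ → Ω → ℝ) (he : Sgn e) (P : Set ℕ)
    (hP : Tendsto (fun N : ℕ => ms P ⌈(Real.log N) ^ 2⌉₊ N) atTop atTop)
    (hs : Summable fun p : {p : ℕ // p.Prime ∧ p ∈ P} => dd μ e (pr P p) p / (p : ℕ))
    (g : ℕ → ℂ) (hg : ∀ n, ‖g n‖ ≤ 1) : ∀ᵐ ω ∂μ, ∀ (A : ℕ) (T : Finset (ℕ × ℕ)), Adm A A T →
      Tendsto (fun N : ℕ => (∑ n ∈ Icc 1 N, ∏ q ∈ T, chg P g (fun p => e p ω) (q.1 * n + q.2)) /
        (N : ℂ)) atTop (𝓝 0) := by
  rw [ae_all_iff]
  intro A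
  rw [ae_all_iff]
  intro T
  by_cases hT : Adm A A T
  · have h1 := Pool.Agent.Q211.EN.t_ASA a_COREA t_WINA Ω μ e he P hP hs A T
      (fun n => ∏ q ∈ T, g (q.1 * n + q.2)) hT (by
        intro n
        rw [norm_prod]
        exact Finset.prod_le_one (fun q _ => norm_nonneg _) (fun q _ => hg _))
    filter_upwards [h1] with ω hω _
    refine hω.congr fun N => ?_
    congr 1
    refine Finset.sum_congr rfl fun n _ => ?_
    unfold chg
    rw [Finset.prod_mul_distrib]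
    push_cast
    rfl
  · exact Filter.Eventually.of_forall fun ω h => absurd h hT

lemma meas_cs {Ω : Type} [MeasurableSpace Ω] (e : ℕ → Ω → ℝ) (he : Sgn e) (P : Set ℕ)
    (T : Finset (ℕ × ℕ)) (w : ℕ → ℂ) (N : ℕ) : Measurable (cs P e T w N) := by
  classical
  unfold cs
  refine Finset.measurable_sum _ fun n _ => ?_
  refine (Complex.measurable_ofReal.comp ?_).const_mul _
  refine Finset.measurable_prod _ fun q _ => ?_
  unfold cmf
  refine Finset.measurable_prod _ fun p _ => ?_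
  split_ifs
  · exact (he.meas p).pow_const _
  · exact measurable_const

lemma norm_cs_le {Ω : Type} (e : ℕ → Ω → ℝ) (hv : ∀ p ω, e p ω = 1 ∨ e p ω = -1)
    (P : Set ℕ) (T : Finset (ℕ × ℕ)) (w : ℕ → ℂ) (hw : ∀ n, ‖w n‖ ≤ 1) (N : ℕ) (ω : Ω) :
    ‖cs P e T w N ω‖ ≤ N := by
  classical
  unfold cs
  refine (norm_sum_le _ _).trans ?_
  have h1 : ∀ n ∈ Icc 1 N, ‖w n * ((∏ q ∈ T, cmf P (fun p => e p ω) (q.1 * n + q.2) : ℝ) : ℂ)‖ ≤ 1 := by
    intro n _
    rw [norm_mul, Complex.norm_real, Real.norm_eq_abs, Finset.abs_prod]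
    have h2 : ∀ q ∈ T, |cmf P (fun p => e p ω) (q.1 * n + q.2)| = 1 := by
      intro q _
      unfold cmf
      rw [Finset.abs_prod]
      refine Finset.prod_eq_one fun p _ => ?_
      rw [abs_pow]
      split_ifs
      · have h5 : |(fun p => e p ω) p| = 1 := by
          rcases hv p ω with h | h <;> simp [h]
        rw [h5, one_pow]
      · simp
    rw [Finset.prod_eq_one h2, mul_one]
    exact hw n
  refine (Finset.sum_le_sum h1).trans ?_
  rw [Finset.sum_const, Nat.card_Icc, nsmul_eq_mul, mul_one]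
  simp

theorem sharp (η : ℝ) (h0 : 0 < η) (h1 : η < 1) : ∃ (Ω : Type) (_ : MeasurableSpace Ω)
    (μ : Measure Ω) (_ : IsProbabilityMeasure μ) (e : ℕ → Ω → ℝ), Sgn e ∧
    (∀ S : Finset ℕ, (1 - η) * (S.card * Real.log 2) ≤ ent μ e S) ∧
    ∀ (P : Set ℕ) (T : Finset (ℕ × ℕ)) (N : ℕ), η * N ≤ ∫ ω, ‖cs P e T (fun _ => 1) N ω‖ ∂μ := by
  classical
  obtain ⟨Ω, mΩ, μ, hμ, e, he, hS, hη⟩ := Pool.Agent.Q151.EN.t_MIX η h0 h1
  refine ⟨Ω, mΩ, μ, hμ, e, he, ?_, ?_⟩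
  · intro S
    have h2 := hS S
    unfold defic at h2
    linarith
  · intro P T N
    obtain ⟨E, hE⟩ : ∃ E : Set Ω, E = {ω | ∀ p, e p ω = 1} := ⟨_, rfl⟩
    have hEm : MeasurableSet E := by
      have h2 : E = ⋂ p, {ω | e p ω = 1} := by
        rw [hE]
        ext ω
        simp
      rw [h2]
      exact MeasurableSet.iInter fun p => (he.meas p) (measurableSet_singleton (1 : ℝ))
    have hcsE : ∀ ω ∈ E, ‖cs P e T (fun _ => 1) N ω‖ = N := by
      intro ω hω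
      rw [hE] at hω
      have h2 : ∀ m, cmf P (fun p => e p ω) m = 1 := by
        intro m
        unfold cmf
        refine Finset.prod_eq_one fun p _ => ?_
        have h3 : e p ω = 1 := hω p
        simp only [h3, ite_self, one_pow]
      unfold cs
      simp only [h2, Finset.prod_const_one, Complex.ofReal_one, mul_one, Finset.sum_const,
        Nat.card_Icc, Nat.add_sub_cancel, nsmul_eq_mul, Complex.norm_natCast]
    have hint : Integrable (fun ω => ‖cs P e T (fun _ => 1) N ω‖) μ := by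
      refine Integrable.of_bound (meas_cs e he P T _ N).norm.aestronglyMeasurable N ?_
      filter_upwards with ω
      rw [norm_norm]
      exact norm_cs_le e he.val P T _ (fun _ => by simp) N ω
    have h2 : ∫ ω, E.indicator (fun _ => (N : ℝ)) ω ∂μ ≤ ∫ ω, ‖cs P e T (fun _ => 1) N ω‖ ∂μ := by
      refine integral_mono ((integrable_const _).indicator hEm) hint ?_
      intro ω
      by_cases hω : ω ∈ E
      · simp only [Set.indicator_of_mem hω, hcsE ω hω, le_refl]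
      · simp only [Set.indicator_of_notMem hω, norm_nonneg]
    rw [integral_indicator hEm, setIntegral_const, smul_eq_mul] at h2
    refine le_trans ?_ h2
    rw [← hE] at hη
    exact mul_le_mul_of_nonneg_right hη (Nat.cast_nonneg _)

end Pool.Agent.Q270.EN
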