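import Pool.Agent.Q270.EN.EL

set_option autoImplicit false

/-!
# Project EL (helper270): the almost sure part with von Mangoldt factors
-/

namespace Pool.Agent.Q270.EN

open Finset Filter Topology MeasureTheory

/-- **INT.** Sums over short intervals; `C` does not depend on `θ`.

PROOF. For `N < n ≤ M` write `n = N + i`, `1 ≤ i ≤ x = ⌈(θ - 1) N⌉`: the forms `a i + (a N + b)` have
coefficients at most `x ^ 3` (say) for large `N`, and the same discriminant as the forms `a n + b`.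
`Pool.Agent.Q177.EL.MA` (with `x` in place of `N`, `A = 3`) and `vT_eq`, `vT_prog` of
`Pool.Agent.Q177.EL.Base`. -/
def S_INT : Prop := ∀ (A : ℕ) (T : Finset (ℕ × ℕ)), (T = ∅ ∨ Adm A A T) → ∃ C : ℝ, 0 < C ∧
  ∀ θ : ℝ, 1 < θ → θ ≤ 2 → ∀ᶠ N : ℕ in atTop, ∀ M : ℕ, N ≤ M → (M : ℝ) ≤ θ * N →
    ∑ n ∈ Ioc N M, vT T n ≤ C * (θ - 1) * N

/-- **ASL.** Almost sure version. Prove `t_ASL : S_GEN → S_COREL → S_INT → S_ASL`.

PROOF. As `Pool.Agent.Q182.EN.As.t_AS` (or `Pool.Agent.Q211.EN.Asa.t_ASA`), with `S_COREL`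
(`u N = ⌈(log N) ^ 2⌉₊`, `m` from `S_GEN`, whose last clause is `GenP μ e P m`) in place of `S_COREP` and
`S_WIN`. Almost surely, for all `r`, `s`: `‖cl .. (N i) ω‖ ≤ (2 + C) N i / (r + 1)` for all large `i`, where
`N i = ⌊(1 + 1/(s+1)) ^ i⌋₊`. Interpolation: for `N i ≤ N < N (i + 1)` (`N (i+1) ≤ θ' N i` with
`θ' = 1 + 2/(s+1)` for large `i`) `‖cl .. N ω‖ ≤ ‖cl .. (N i) ω‖ + ∑ n ∈ Ioc (N i) N, vT T n` and `S_INT`. -/
def S_ASL : Prop := ∀ (Ω : Type) [MeasurableSpace Ω] (μ : Measure Ω) [IsProbabilityMeasure μ]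
  (e : ℕ → Ω → ℝ), Sgn e → ∀ (P : Set ℕ),
    Tendsto (fun N : ℕ => ∑ p ∈ (pr P N).filter (⌈(Real.log N) ^ 2⌉₊ < ·), 1 / (p : ℝ))
      atTop atTop →
    (Summable fun p : {p : ℕ // p.Prime ∧ p ∈ P} => dd μ e (pr P p) p / (p : ℕ)) →
    ∀ (A : ℕ) (T U : Finset (ℕ × ℕ)) (w : ℕ → ℂ), Adm A A (T ∪ U) → Disjoint T U → U.Nonempty →
      (∀ n, ‖w n‖ ≤ 1) → ∀ᵐ ω ∂μ,
      Tendsto (fun N : ℕ => cl P e T U w N ω / (N : ℂ)) atTop (𝓝 0)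

end Pool.Agent.Q270.EN
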