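import Pool.Agent.Q270.EN.Asm
import Pool.Agent.Q270.EN.Stm7
import Pool.Agent.Q225.EL.Big
import Pool.Agent.Q177.EL.EVN

set_option autoImplicit false

/-!
# Assembly of project EL
-/

namespace Pool.Agent.Q270.EN

open Finset Filter Topology MeasureTheory

theorem a_COREL : S_COREL :=
  t_COREL Pool.Agent.Q177.EL.t_CLS Pool.Agent.Q225.EL.t_BIG
    (Pool.Agent.Q177.EL.t_EVN Pool.Agent.Q177.EL.t_CLS)

/-- **The threshold with von Mangoldt factors**, uniform in the law and the weights -/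
theorem thrL_ent (P : Set ℕ) (hP : Tendsto (fun N : ℕ => ms P 0 N) atTop atTop)
    (A : ℕ) (T U : Finset (ℕ × ℕ)) (hTU : Adm A A (T ∪ U)) (hdis : Disjoint T U)
    (hU : U.Nonempty) (ε : ℝ) (hε : 0 < ε) : ∃ η : ℝ, 0 < η ∧ ∀ Y : ℕ, ∀ᶠ N : ℕ in atTop,
      ∀ (Ω : Type) [MeasurableSpace Ω] (μ : Measure Ω) [IsProbabilityMeasure μ] (e : ℕ → Ω → ℝ),
      Sgn e → (∀ t, Y ≤ t → t ≤ 2 * A * N →
        (1 - η) * ((pr P t).card * Real.log 2) ≤ ent μ e (pr P t)) →
      ∀ w : ℕ → ℂ, (∀ n, ‖w n‖ ≤ 1) → ∫ ω, ‖cl P e T U w N ω‖ ∂μ ≤ ε * N := by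
  have hA : 1 ≤ A := by
    obtain ⟨q, hq⟩ := hU
    have h1 := hTU.2.1 q (Finset.mem_union_right _ hq)
    exact h1.1.trans h1.2.1
  obtain ⟨ρ, hρ, h⟩ := thrL a_GEN a_COREL Pool.Agent.Q26.EN.t_TEL P hP A T U hA hTU hdis hU ε hε
  have hlog : 0 < Real.log 2 := Real.log_pos (by norm_num)
  refine ⟨ρ / Real.log 2, by positivity, fun Y => ?_⟩
  filter_upwards [h Y] with N hN
  intro Ω _ μ _ e he hent
  refine hN Ω μ e he ?_
  intro t ht1 ht2
  have h1 := hent t ht1 ht2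
  unfold defic
  have h2 : (1 - ρ / Real.log 2) * ((pr P t).card * Real.log 2) =
      (pr P t).card * Real.log 2 - ρ * (pr P t).card := by
    field_simp
  rw [h2] at h1
  linarith

theorem thrL_one {Ω : Type} [MeasurableSpace Ω] (μ : Measure Ω) [IsProbabilityMeasure μ]
    (e : ℕ → Ω → ℝ) (he : Sgn e) (P : Set ℕ) (hP : Tendsto (fun N : ℕ => ms P 0 N) atTop atTop)
    (hfull : FullEntropy μ e P) (A : ℕ) (T U : Finset (ℕ × ℕ)) (hTU : Adm A A (T ∪ U))
    (hdis : Disjoint T U) (hU : U.Nonempty) (w : ℕ → ℕ → ℂ) (hw : ∀ N n, ‖w N n‖ ≤ 1) :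
    Tendsto (fun N : ℕ => (∫ ω, ‖cl P e T U (w N) N ω‖ ∂μ) / N) atTop (𝓝 0) := by
  rw [Metric.tendsto_atTop]
  intro ε hε
  obtain ⟨η, hη, h⟩ := thrL_ent P hP A T U hTU hdis hU (ε / 2) (by positivity)
  obtain ⟨Y, hY⟩ := Filter.eventually_atTop.1 (hfull η hη)
  obtain ⟨N0, hN0⟩ := Filter.eventually_atTop.1 (h Y)
  refine ⟨max N0 1, fun N hN => ?_⟩
  have hN1 : 1 ≤ N := (le_max_right _ _).trans hN
  have hNp : (0 : ℝ) < N := by exact_mod_cast hN1
  have h1 := hN0 N ((le_max_left _ _).trans hN) Ω μ e he (fun t ht _ => hY t ht) (w N) (hw N)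
  have h2 : 0 ≤ ∫ ω, ‖cl P e T U (w N) N ω‖ ∂μ := integral_nonneg fun ω => norm_nonneg _
  rw [dist_zero_right, Real.norm_eq_abs, abs_of_nonneg (by positivity), div_lt_iff₀ hNp]
  nlinarith

theorem asL_all (hASL : S_ASL) {Ω : Type} [MeasurableSpace Ω] (μ : Measure Ω) [IsProbabilityMeasure μ]
    (e : ℕ → Ω → ℝ) (he : Sgn e) (P : Set ℕ)
    (hP : Tendsto (fun N : ℕ => ms P ⌈(Real.log N) ^ 2⌉₊ N) atTop atTop)
    (hs : Summable fun p : {p : ℕ // p.Prime ∧ p ∈ P} => dd μ e (pr P p) p / (p : ℕ))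
    (g : ℕ → ℂ) (hg : ∀ n, ‖g n‖ ≤ 1) : ∀ᵐ ω ∂μ, ∀ (A : ℕ) (T U : Finset (ℕ × ℕ)),
      Adm A A (T ∪ U) → Disjoint T U → U.Nonempty →
      Tendsto (fun N : ℕ => (∑ n ∈ Icc 1 N, (vT T n : ℂ) *
        ∏ q ∈ U, chg P g (fun p => e p ω) (q.1 * n + q.2)) / (N : ℂ)) atTop (𝓝 0) := by
  rw [ae_all_iff]
  intro A
  rw [ae_all_iff]
  intro T
  rw [ae_all_iff]
  intro U
  by_cases hT : Adm A A (T ∪ U)
  · by_cases hd : Disjoint T U
    · by_cases hU : U.Nonempty
      · have h1 := hASL Ω μ e he P hP hs A T U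
          (fun n => ∏ q ∈ U, g (q.1 * n + q.2)) hT hd hU (by
            intro n
            rw [norm_prod]
            exact Finset.prod_le_one (fun q _ => norm_nonneg _) (fun q _ => hg _))
        filter_upwards [h1] with ω hω _ _ _
        refine hω.congr fun N => ?_
        congr 1
        unfold cl
        refine Finset.sum_congr rfl fun n _ => ?_
        unfold chg
        rw [Finset.prod_mul_distrib]
        push_cast
        ring
      · exact Filter.Eventually.of_forall fun ω _ _ h => absurd h hU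
    · exact Filter.Eventually.of_forall fun ω _ h _ => absurd h hd
  · exact Filter.Eventually.of_forall fun ω h _ _ => absurd h hT

lemma meas_cl {Ω : Type} [MeasurableSpace Ω] (e : ℕ → Ω → ℝ) (he : Sgn e) (P : Set ℕ)
    (T U : Finset (ℕ × ℕ)) (w : ℕ → ℂ) (N : ℕ) : Measurable (cl P e T U w N) := by
  classical
  unfold cl
  refine Finset.measurable_sum _ fun n _ => ?_
  refine (Complex.measurable_ofReal.comp ?_).const_mul _
  refine Finset.measurable_prod _ fun q _ => ?_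
  unfold cmf
  refine Finset.measurable_prod _ fun p _ => ?_
  split_ifs
  · exact (he.meas p).pow_const _
  · exact measurable_const

lemma norm_cl_le {Ω : Type} (e : ℕ → Ω → ℝ) (hv : ∀ p ω, e p ω = 1 ∨ e p ω = -1)
    (P : Set ℕ) (T U : Finset (ℕ × ℕ)) (w : ℕ → ℂ) (hw : ∀ n, ‖w n‖ ≤ 1) (N : ℕ) (ω : Ω) :
    ‖cl P e T U w N ω‖ ≤ ∑ n ∈ Icc 1 N, vT T n := by
  classical
  unfold cl
  refine (norm_sum_le _ _).trans ?_
  refine Finset.sum_le_sum fun n _ => ?_
  have h2 : ∀ q ∈ U, |cmf P (fun p => e p ω) (q.1 * n + q.2)| = 1 := by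
    intro q _
    unfold cmf
    rw [Finset.abs_prod]
    refine Finset.prod_eq_one fun p _ => ?_
    rw [abs_pow]
    split_ifs
    · have h5 : |(fun p => e p ω) p| = 1 := by
        rcases hv p ω with h | h <;> simp [h]
      rw [h5, one_pow]
    · simp
  rw [norm_mul, norm_mul, Complex.norm_real, Complex.norm_real, Real.norm_eq_abs, Real.norm_eq_abs,
    Finset.abs_prod, Finset.prod_eq_one h2, mul_one, abs_of_nonneg (vT_nonneg T n)]
  exact mul_le_of_le_one_left (vT_nonneg T n) (hw n)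

theorem sharpL (η : ℝ) (h0 : 0 < η) (h1 : η < 1) : ∃ (Ω : Type) (_ : MeasurableSpace Ω)
    (μ : Measure Ω) (_ : IsProbabilityMeasure μ) (e : ℕ → Ω → ℝ), Sgn e ∧
    (∀ S : Finset ℕ, (1 - η) * (S.card * Real.log 2) ≤ ent μ e S) ∧
    ∀ (P : Set ℕ) (T U : Finset (ℕ × ℕ)) (N : ℕ),
      η * ∑ n ∈ Icc 1 N, vT T n ≤ ∫ ω, ‖cl P e T U (fun _ => 1) N ω‖ ∂μ := by
  classical
  obtain ⟨Ω, mΩ, μ, hμ, e, he, hS, hη⟩ := Pool.Agent.Q151.EN.t_MIX η h0 h1
  refine ⟨Ω, mΩ, μ, hμ, e, he, ?_, ?_⟩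
  · intro S
    have h2 := hS S
    unfold defic at h2
    linarith
  · intro P T U N
    obtain ⟨E, hE⟩ : ∃ E : Set Ω, E = {ω | ∀ p, e p ω = 1} := ⟨_, rfl⟩
    obtain ⟨V, hV⟩ : ∃ V : ℝ, V = ∑ n ∈ Icc 1 N, vT T n := ⟨_, rfl⟩
    have hV0 : 0 ≤ V := by
      rw [hV]
      exact Finset.sum_nonneg fun n _ => vT_nonneg T n
    have hEm : MeasurableSet E := by
      have h2 : E = ⋂ p, {ω | e p ω = 1} := by
        rw [hE]
        ext ω
        simp
      rw [h2]
      exact MeasurableSet.iInter fun p => (he.meas p) (measurableSet_singleton (1 : ℝ))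
    have hcsE : ∀ ω ∈ E, ‖cl P e T U (fun _ => 1) N ω‖ = V := by
      intro ω hω
      rw [hE] at hω
      have h2 : ∀ m, cmf P (fun p => e p ω) m = 1 := by
        intro m
        unfold cmf
        refine Finset.prod_eq_one fun p _ => ?_
        have h3 : e p ω = 1 := hω p
        simp only [h3, ite_self, one_pow]
      unfold cl
      simp only [h2, Finset.prod_const_one, Complex.ofReal_one, mul_one, one_mul]
      rw [← Complex.ofReal_sum, Complex.norm_real, ← hV, Real.norm_eq_abs, abs_of_nonneg hV0]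
    have hint : Integrable (fun ω => ‖cl P e T U (fun _ => 1) N ω‖) μ := by
      refine Integrable.of_bound (meas_cl e he P T U _ N).norm.aestronglyMeasurable V ?_
      filter_upwards with ω
      rw [norm_norm, hV]
      exact norm_cl_le e he.val P T U _ (fun _ => by simp) N ω
    have h2 : ∫ ω, E.indicator (fun _ => V) ω ∂μ ≤ ∫ ω, ‖cl P e T U (fun _ => 1) N ω‖ ∂μ := by
      refine integral_mono ((integrable_const _).indicator hEm) hint ?_
      intro ω
      by_cases hω : ω ∈ E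
      · simp only [Set.indicator_of_mem hω, hcsE ω hω, le_refl]
      · simp only [Set.indicator_of_notMem hω, norm_nonneg]
    rw [integral_indicator hEm, setIntegral_const, smul_eq_mul] at h2
    refine le_trans ?_ h2
    rw [← hE] at hη
    rw [← hV]
    exact mul_le_mul_of_nonneg_right hη hV0

end Pool.Agent.Q270.EN
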