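import Pool.Agent.Q270.EN.Gen
import Pool.Agent.Q270.EN.Stm3

set_option autoImplicit false

/-!
# CORE for affine forms
-/

namespace Pool.Agent.Q270.EN

open Finset Filter Topology MeasureTheory

lemma cmf_prodA (P : Set ℕ) (s : ℕ → ℝ) (T : Finset (ℕ × ℕ)) (n : ℕ)
    (h : ∀ q ∈ T, q.1 * n + q.2 ≠ 0) :
    ∏ q ∈ T, cmf P s (q.1 * n + q.2) = cmf P s (∏ q ∈ T, (q.1 * n + q.2)) := by
  classical
  have h1 : ∀ m, cmf P s m = Pool.Agent.Q163.RP.mult (fun p => if p ∈ P then s p else 1) m := by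
    intro m
    unfold cmf Pool.Agent.Q163.RP.mult
    rfl
  rw [h1, Pool.Agent.Q163.RP.mult_prod _ T (fun q => q.1 * n + q.2) h]
  exact Finset.prod_congr rfl fun q _ => h1 _

/-- the bound for the coefficients -/
lemma card_odd_leA (P : Set ℕ) (A N X p : ℕ) (T : Finset (ℕ × ℕ)) (hT : Adm A (A * N) T)
    (hp : p ∈ pr P X) (hpA : A < p) :
    ((((Icc 1 N).filter fun n => p ∈ odd (pr P X) (∏ q ∈ T, (q.1 * n + q.2))).card : ℕ) : ℝ) ≤
      3 * A * T.card * N / p := by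
  classical
  have hpp := (mem_pr.1 hp).1
  have hp0 : (0 : ℝ) < p := by exact_mod_cast hpp.pos
  obtain ⟨⟨q0, hq0⟩, hT1, hT2⟩ := hT
  have hA1 : 1 ≤ A := (hT1 q0 hq0).1.trans (hT1 q0 hq0).2.1
  have h1 : (Icc 1 N).filter (fun n => p ∈ odd (pr P X) (∏ q ∈ T, (q.1 * n + q.2))) ⊆
      T.biUnion fun q => (Icc 1 N).filter fun n => p ∣ q.1 * n + q.2 := by
    intro n hn
    obtain ⟨h2, h3⟩ := Finset.mem_filter.1 hn
    have h4 := (Finset.mem_filter.1 h3).2
    have h5 : p ∣ ∏ q ∈ T, (q.1 * n + q.2) := by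
      have h6 : (∏ q ∈ T, (q.1 * n + q.2)).factorization p ≠ 0 := by
        intro h7
        rw [h7] at h4
        exact absurd h4 (by decide)
      exact Nat.dvd_of_factorization_pos h6
    rw [Prime.dvd_finsetProd_iff hpp.prime] at h5
    obtain ⟨h, h6, h7⟩ := h5
    rw [Finset.mem_biUnion]
    exact ⟨h, h6, Finset.mem_filter.2 ⟨h2, h7⟩⟩
  have h2 : ((((Icc 1 N).filter fun n => p ∈ odd (pr P X) (∏ q ∈ T, (q.1 * n + q.2))).card : ℕ) : ℝ) ≤
      ∑ q ∈ T, ((((Icc 1 N).filter fun n => p ∣ q.1 * n + q.2).card : ℕ) : ℝ) := by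
    exact_mod_cast (Finset.card_le_card h1).trans Finset.card_biUnion_le
  have hAr : (1 : ℝ) ≤ A := by exact_mod_cast hA1
  have hN0 : (0 : ℝ) ≤ N := Nat.cast_nonneg _
  by_cases h2N : p ≤ 2 * A * N
  · have h3 : ∀ q ∈ T, ((((Icc 1 N).filter fun n => p ∣ q.1 * n + q.2).card : ℕ) : ℝ) ≤
        3 * A * N / p := by
      intro q hq
      have hcop : Nat.Coprime q.1 p := by
        rw [Nat.coprime_comm, Nat.Prime.coprime_iff_not_dvd hpp]
        intro h4
        have h5 := Nat.le_of_dvd (by have := (hT1 q hq).1; omega) h4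
        have := (hT1 q hq).2.1
        omega
      have h4 := (abs_le.1 (Pool.Agent.Q163.RP.card_dvd N p q.1 q.2 hpp.pos hcop)).2
      have h5 : (1 : ℝ) ≤ 2 * A * N / p := by
        rw [le_div_iff₀ hp0, one_mul]
        exact_mod_cast h2N
      have h6 : (N : ℝ) / p ≤ A * N / p := by
        apply div_le_div_of_nonneg_right _ hp0.le
        nlinarith
      have h7 : 3 * (A : ℝ) * N / p = A * N / p + 2 * A * N / p := by ring
      rw [h7]
      linarith
    refine h2.trans ((Finset.sum_le_sum h3).trans ?_)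
    rw [Finset.sum_const, nsmul_eq_mul]
    apply le_of_eq
    ring
  · have h3 : ∀ q ∈ T, ((((Icc 1 N).filter fun n => p ∣ q.1 * n + q.2).card : ℕ) : ℝ) ≤ 0 := by
      intro q hq
      have h4 : (Icc 1 N).filter (fun n => p ∣ q.1 * n + q.2) = ∅ := by
        rw [Finset.filter_eq_empty_iff]
        intro n hn h5
        rw [Finset.mem_Icc] at hn
        have h8 := (hT1 q hq).1
        have h6 := Nat.le_of_dvd (by nlinarith) h5
        have h7 : q.1 * n ≤ A * N := Nat.mul_le_mul (hT1 q hq).2.1 hn.2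
        have h9 := (hT1 q hq).2.2
        have h10 : 2 * A * N = A * N + A * N := by ring
        omega
      rw [h4]
      simp
    refine h2.trans ((Finset.sum_le_sum h3).trans ?_)
    rw [Finset.sum_const, nsmul_eq_mul, mul_zero]
    positivity

theorem t_COREA (hG : S_GEN) : S_COREA := by
  intro Ω _ μ _ e he P
  classical
  obtain ⟨m, hm1, hm2, hm0, hm3, hm4⟩ := hG Ω μ e he P
  refine ⟨m, hm1, hm2, hm0, hm3, ?_⟩
  intro A N y T w hy hAy hT hw
  obtain ⟨X, hX⟩ : ∃ X, X = 2 * A * N := ⟨_, rfl⟩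
  obtain ⟨M, hM⟩ : ∃ M : ℕ → ℕ, M = fun n => ∏ q ∈ T, (q.1 * n + q.2) := ⟨_, rfl⟩
  obtain ⟨Z, hZ1, hZ2, hZ3, hZ4, hZ5⟩ := hm4 X y ℕ (Icc 1 N) M w
    (fun p => 3 * A * T.card * N / p) (by
      intro p hp
      obtain ⟨hp1, hp2⟩ := Finset.mem_filter.1 hp
      have h1 : ∑ n ∈ (Icc 1 N).filter (fun n => p ∈ odd (pr P X) (M n)), ‖w n‖ ≤
          (((Icc 1 N).filter (fun n => p ∈ odd (pr P X) (M n))).card : ℕ) := by
        refine (Finset.sum_le_sum fun n _ => hw n).trans ?_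
        rw [Finset.sum_const, nsmul_eq_mul, mul_one]
      refine h1.trans ?_
      rw [hM]
      exact card_odd_leA P A N X p T hT hp1 (by omega))
  have hy0 : (0 : ℝ) < y := by exact_mod_cast hy
  refine ⟨Z, hZ1, hZ2, ⟨_, hZ3⟩, ?_, ?_⟩
  · refine hZ4.trans ?_
    have h3 : ∀ p ∈ (pr P X).filter (y < ·), (3 * (A : ℝ) * (T.card : ℝ) * (N : ℝ) / (p : ℝ)) ^ 2 =
        (3 * (A : ℝ) * (T.card : ℝ) * (N : ℝ)) ^ 2 * (1 / (p : ℝ) ^ 2) := by
      intro p _
      rw [div_pow]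
      ring
    rw [Finset.sum_congr rfl h3, ← Finset.mul_sum]
    have h4 := inv_sq_sum y hy ((pr P X).filter (y < ·)) (fun p hp => (Finset.mem_filter.1 hp).2)
    calc (3 * (A : ℝ) * (T.card : ℝ) * (N : ℝ)) ^ 2 * ∑ p ∈ (pr P X).filter (y < ·), 1 / (p : ℝ) ^ 2 ≤
        (3 * (A : ℝ) * (T.card : ℝ) * (N : ℝ)) ^ 2 * (1 / y) :=
          mul_le_mul_of_nonneg_left h4 (by positivity)
      _ = _ := by ring
  · intro ω
    have h1 : ∑ n ∈ Icc 1 N, w n * ((∏ q ∈ T, cmf P (fun p => e p ω) (q.1 * n + q.2) : ℝ) : ℂ) =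
        ∑ n ∈ Icc 1 N, w n * ((∏ p ∈ odd (pr P X) (M n), e p ω : ℝ) : ℂ) := by
      refine Finset.sum_congr rfl fun n hn => ?_
      rw [Finset.mem_Icc] at hn
      have hne : ∀ q ∈ T, q.1 * n + q.2 ≠ 0 := by
        intro q hq
        have h8 := (hT.2.1 q hq).1
        have h9 : 1 ≤ q.1 * n := Nat.mul_pos h8 hn.1
        omega
      rw [cmf_prodA P _ T n hne, hM]
      congr 2
      refine cmf_eq (fun p => he.val p ω) ?_ ?_
      · exact Finset.prod_ne_zero_iff.2 hne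
      · intro p hp hpd
        rw [Prime.dvd_finsetProd_iff hp.prime] at hpd
        obtain ⟨q, hq, h7⟩ := hpd
        have h8 := Nat.le_of_dvd (Nat.pos_of_ne_zero (hne q hq)) h7
        have h9 : q.1 * n ≤ A * N := Nat.mul_le_mul (hT.2.1 q hq).2.1 hn.2
        have h10 := (hT.2.1 q hq).2.2
        have h11 : 2 * A * N = A * N + A * N := by ring
        omega
    rw [h1]
    refine (hZ5 ω).trans ?_
    have h2 : ∑ n ∈ (Icc 1 N).filter (fun n => ∀ p ∈ pr P X, y < p → Even ((M n).factorization p)),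
        ‖w n‖ ≤ (((Icc 1 N).filter fun n : ℕ => ∀ p ∈ pr P (2 * A * N), y < p →
            Even ((∏ q ∈ T, (q.1 * n + q.2)).factorization p)).card : ℕ) := by
      refine (Finset.sum_le_sum fun n _ => hw n).trans ?_
      rw [Finset.sum_const, nsmul_eq_mul, mul_one, hM, hX]
    have h3 : ∑ p ∈ (pr P X).filter (y < ·), 3 * (A : ℝ) * T.card * N / p * |m p ω| =
        3 * A * T.card * N * ∑ p ∈ (pr P (2 * A * N)).filter (y < ·), 1 / (p : ℝ) * |m p ω| := by
      rw [Finset.mul_sum, hX]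
      refine Finset.sum_congr rfl fun p _ => ?_
      ring
    rw [h3]
    linarith

end Pool.Agent.Q270.EN
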