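import Pool.Agent.Q270.EN.Stm5

set_option autoImplicit false

/-!
# Joint correlations of the von Mangoldt function and random multiplicative functions
-/

namespace Pool.Agent.Q270.EN

open Finset Filter Topology MeasureTheory
open Pool.Agent.Q163.RP Pool.Agent.Q163.RX

lemma vT_nonneg (T : Finset (ℕ × ℕ)) (n : ℕ) : 0 ≤ vT T n :=
  Finset.prod_nonneg fun _ _ => ArithmeticFunction.vonMangoldt_nonneg

lemma floor_pow_large (c : ℝ) (hc : 0 < c) (B : ℕ) : ∃ M : ℕ, 1 ≤ M ∧ ∀ᶠ N : ℕ in atTop,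
    3 ≤ ⌊(N : ℝ) ^ c⌋₊ ∧ B * N ≤ ⌊(N : ℝ) ^ c⌋₊ ^ M := by
  obtain ⟨M, hM⟩ := exists_nat_gt (3 / c)
  have hMc : 3 < c * M := by
    rw [div_lt_iff₀ hc] at hM
    linarith
  have hM1 : 1 ≤ M := by
    rcases Nat.eq_zero_or_pos M with h | h
    · rw [h] at hMc
      norm_num at hMc
    · exact h
  refine ⟨M, hM1, ?_⟩
  have h1 : Tendsto (fun N : ℕ => (N : ℝ) ^ c) atTop atTop :=
    (tendsto_rpow_atTop hc).comp tendsto_natCast_atTop_atTop
  filter_upwards [h1.eventually_ge_atTop 6, eventually_ge_atTop (2 ^ M),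
    eventually_ge_atTop (B + 1)] with N hN hN3 hN2
  have hfl : (N : ℝ) ^ c / 2 ≤ (⌊(N : ℝ) ^ c⌋₊ : ℝ) := by
    have h2 := Nat.sub_one_lt_floor ((N : ℝ) ^ c)
    linarith
  have hN0 : (0 : ℝ) < N := by exact_mod_cast (by omega : 0 < N)
  have hN1 : (1 : ℝ) ≤ N := by exact_mod_cast (by omega : 1 ≤ N)
  constructor
  · apply Nat.le_floor
    push_cast
    linarith
  · have h3 : ((N : ℝ) ^ c / 2) ^ M ≤ (⌊(N : ℝ) ^ c⌋₊ : ℝ) ^ M :=
      pow_le_pow_left₀ (by positivity) hfl M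
    have h4 : (N : ℝ) ^ (3 : ℕ) / 2 ^ M ≤ ((N : ℝ) ^ c / 2) ^ M := by
      rw [div_pow, ← Real.rpow_natCast ((N : ℝ) ^ c) M, ← Real.rpow_mul hN0.le]
      apply div_le_div_of_nonneg_right _ (by positivity)
      rw [← Real.rpow_natCast (N : ℝ) 3]
      apply Real.rpow_le_rpow_of_exponent_le hN1
      push_cast
      linarith
    have h5 : (B : ℝ) * N ≤ (N : ℝ) ^ (3 : ℕ) / 2 ^ M := by
      rw [le_div_iff₀ (by positivity)]
      have e1 : (B : ℝ) ≤ N := by exact_mod_cast (by omega : B ≤ N)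
      have e2 : (2 : ℝ) ^ M ≤ N := by exact_mod_cast hN3
      have e3 : (B : ℝ) * N ≤ N * N := mul_le_mul_of_nonneg_right e1 hN0.le
      calc (B : ℝ) * N * 2 ^ M ≤ (N * N) * N := mul_le_mul e3 e2 (by positivity) (by positivity)
        _ = (N : ℝ) ^ 3 := by ring
    exact_mod_cast h5.trans (h4.trans h3)

/-- the choice of the window, the left part reaching up to `N ^ c` -/
lemma winc (P : Set ℕ) (u : ℕ → ℕ) (hP : Tendsto (fun N : ℕ => ms P (u N) N) atTop atTop) (c : ℝ)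
    (hc : 0 < c) (hc1 : c ≤ 1) (B : ℕ) (hB : 1 ≤ B) : ∃ K0 : ℝ, 0 ≤ K0 ∧ ∀ L : ℝ, 1 ≤ L →
      ∃ y : ℕ → ℕ, Tendsto y atTop atTop ∧ ∀ᶠ N : ℕ in atTop, L ≤ ms P (y N) ⌊(N : ℝ) ^ c⌋₊ ∧
        ms P (y N) (B * N) ≤ L + 1 + K0 ∧ y N ≤ ⌊(N : ℝ) ^ c⌋₊ ∧ ⌊(N : ℝ) ^ c⌋₊ ≤ N ∧
        u N ≤ y N := by
  classical
  obtain ⟨C0, hC0, hmert⟩ := mert_diff
  obtain ⟨M, hM1, hM⟩ := floor_pow_large c hc B
  have hM0 : 0 ≤ Real.log (M : ℕ) := Real.log_nonneg (by exact_mod_cast hM1)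
  refine ⟨Real.log (M : ℕ) + C0, by linarith, fun L hL => ?_⟩
  obtain ⟨z, hz⟩ : ∃ z : ℕ → ℕ, z = fun N : ℕ => ⌊(N : ℝ) ^ c⌋₊ := ⟨_, rfl⟩
  obtain ⟨y, hy⟩ : ∃ y : ℕ → ℕ, y = fun N => Nat.findGreatest (fun y => L ≤ ms P y (z N)) (z N) :=
    ⟨_, rfl⟩
  have hzN : ∀ᶠ N : ℕ in atTop, z N ≤ N := by
    filter_upwards [eventually_ge_atTop 1] with N hN
    have hN1 : (1 : ℝ) ≤ N := by exact_mod_cast hN
    have h1 : (N : ℝ) ^ c ≤ N := by
      calc (N : ℝ) ^ c ≤ (N : ℝ) ^ (1 : ℝ) := Real.rpow_le_rpow_of_exponent_le hN1 hc1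
        _ = N := Real.rpow_one _
    have h2 := Nat.floor_le (by positivity : 0 ≤ (N : ℝ) ^ c)
    have h3 : ((z N : ℕ) : ℝ) ≤ N := by
      rw [hz]
      exact h2.trans h1
    exact_mod_cast h3
  have hmass : ∀ᶠ N : ℕ in atTop, ∀ y : ℕ, ms P y (B * N) ≤ ms P y (z N) + (Real.log (M : ℕ) + C0) := by
    filter_upwards [hM] with N hN y
    have h2 := ms_right P y (z N) (B * N)
    have h3 := hmert (z N) M (by rw [hz]; exact hN.1) hM1
    have h4 : ∑ p ∈ ((Icc 1 (B * N)).filter Nat.Prime).filter (fun p => z N < p), (1 : ℝ) / p ≤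
        ∑ p ∈ ((Icc 1 (z N ^ M)).filter Nat.Prime).filter (fun p => z N < p), (1 : ℝ) / p := by
      refine Finset.sum_le_sum_of_subset_of_nonneg ?_ (fun p _ _ => by positivity)
      apply Finset.filter_subset_filter
      apply Finset.filter_subset_filter
      apply Finset.Icc_subset_Icc_right
      rw [hz]
      exact hN.2
    exact h2.trans (add_le_add le_rfl (h4.trans h3))
  have hmono : ∀ (y a b : ℕ), a ≤ b → ms P y a ≤ ms P y b := by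
    intro y a b hab
    unfold ms
    refine Finset.sum_le_sum_of_subset_of_nonneg ?_ (fun p _ _ => by positivity)
    intro p hp
    rw [mem_win] at hp ⊢
    exact ⟨hp.1, hp.2.1, hp.2.2.1.trans hab, hp.2.2.2⟩
  have hbig : ∀ Y : ℕ, ∀ᶠ N : ℕ in atTop, L ≤ ms P (max (u N) Y) (z N) := by
    intro Y
    filter_upwards [hP.eventually_ge_atTop (L + Y + (Real.log (M : ℕ) + C0)), hmass] with N hN hm
    have h1 := hm (u N)
    have h2 := hmono (u N) N (B * N) (Nat.le_mul_of_pos_left N hB)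
    have h3 := ms_left P (u N) Y (z N)
    linarith
  have hge : ∀ Y : ℕ, ∀ᶠ N : ℕ in atTop, max (u N) Y ≤ y N ∧ L ≤ ms P (y N) (z N) := by
    intro Y
    filter_upwards [hbig Y] with N hN
    have h1 : max (u N) Y ≤ z N := by
      by_contra hcon
      rw [ms_zero (by omega)] at hN
      linarith
    constructor
    · rw [hy]
      exact Nat.le_findGreatest h1 hN
    · rw [hy]
      exact Nat.findGreatest_spec (P := fun y => L ≤ ms P y (z N)) h1 hN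
  have hyz : ∀ N, y N ≤ z N := by
    intro N
    rw [hy]
    exact Nat.findGreatest_le _
  have hup : ∀ᶠ N : ℕ in atTop, ms P (y N) (z N) ≤ L + 1 := by
    filter_upwards [hge 0] with N hN
    by_cases h1 : y N + 1 ≤ z N
    · have h2 : ¬ L ≤ ms P (y N + 1) (z N) := by
        rw [hy]
        refine Nat.findGreatest_is_greatest (P := fun y => L ≤ ms P y (z N)) (n := z N) ?_ ?_
        · exact Nat.lt_succ_self _
        · rw [hy] at h1
          exact h1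
      have h3 := ms_succ P (y N) (z N)
      push Not at h2
      linarith
    · have h2 : z N ≤ y N := by omega
      rw [ms_zero h2]
      linarith
  refine ⟨y, ?_, ?_⟩
  · rw [tendsto_atTop]
    intro Y
    filter_upwards [hge Y] with N hN
    exact (le_max_right _ _).trans hN.1
  · filter_upwards [hge 0, hup, hmass, hzN] with N h1 h2 h3 h4
    have h5 : ⌊(N : ℝ) ^ c⌋₊ = z N := by rw [hz]
    rw [h5]
    exact ⟨h1.2, (h3 (y N)).trans (by linarith), hyz N, h4, (le_max_left _ _).trans h1.1⟩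

/-- the weighted sum with von Mangoldt factors -/
noncomputable def cl {Ω : Type} (P : Set ℕ) (e : ℕ → Ω → ℝ) (T U : Finset (ℕ × ℕ)) (w : ℕ → ℂ)
    (N : ℕ) (ω : Ω) : ℂ :=
  ∑ n ∈ Icc 1 N, w n * (vT T n : ℂ) *
    ((∏ q ∈ U, cmf P (fun p => e p ω) (q.1 * n + q.2) : ℝ) : ℂ)

lemma adm_right {A : ℕ} {T U : Finset (ℕ × ℕ)} (h : Adm A A (T ∪ U)) (hU : U.Nonempty) :
    Adm A A U :=
  ⟨hU, fun q hq => h.2.1 q (Finset.mem_union_right _ hq), fun q hq q' hq' =>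
    h.2.2 q (Finset.mem_union_right _ hq) q' (Finset.mem_union_right _ hq')⟩

lemma adm_left {A : ℕ} {T U : Finset (ℕ × ℕ)} (h : Adm A A (T ∪ U)) : T = ∅ ∨ Adm A A T := by
  rcases T.eq_empty_or_nonempty with hT | hT
  · exact Or.inl hT
  · exact Or.inr ⟨hT, fun q hq => h.2.1 q (Finset.mem_union_left _ hq), fun q hq q' hq' =>
      h.2.2 q (Finset.mem_union_left _ hq) q' (Finset.mem_union_left _ hq')⟩

/-- the coefficients -/
lemma coef (A : ℕ) (U : Finset (ℕ × ℕ)) (hU : Adm A A U) (v : ℕ → ℝ) (hv : ∀ n, 0 ≤ v n) (N p : ℕ)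
    (hp : p.Prime) (hpA : A < p) (C : ℝ)
    (hC : ∀ r : ℕ, ∑ n ∈ (Icc 1 N).filter (fun n => n % p = r % p), v n ≤ C) :
    ∑ n ∈ (Icc 1 N).filter (fun n => p ∣ ∏ q ∈ U, (q.1 * n + q.2)), v n ≤ U.card * C := by
  classical
  have h1 : (Icc 1 N).filter (fun n => p ∣ ∏ q ∈ U, (q.1 * n + q.2)) ⊆
      U.biUnion fun q => (Icc 1 N).filter fun n => p ∣ q.1 * n + q.2 := by
    intro n hn
    obtain ⟨h2, h3⟩ := Finset.mem_filter.1 hn
    rw [Prime.dvd_finsetProd_iff hp.prime] at h3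
    obtain ⟨h, h6, h7⟩ := h3
    rw [Finset.mem_biUnion]
    exact ⟨h, h6, Finset.mem_filter.2 ⟨h2, h7⟩⟩
  refine (Finset.sum_le_sum_of_subset_of_nonneg h1 (fun n _ _ => hv n)).trans ?_
  refine (sum_biU _ _ _ hv).trans ?_
  rw [← nsmul_eq_mul]
  refine Finset.sum_le_card_nsmul _ _ _ fun q hq => ?_
  -- one class
  have hcop : Nat.Coprime q.1 p := by
    rw [Nat.coprime_comm, Nat.Prime.coprime_iff_not_dvd hp]
    intro h4
    have h5 := Nat.le_of_dvd (by have := (hU.2.1 q hq).1; omega) h4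
    have := (hU.2.1 q hq).2.1
    omega
  by_cases hne : ((Icc 1 N).filter fun n => p ∣ q.1 * n + q.2).Nonempty
  · obtain ⟨r, hr⟩ := hne
    have hr2 := (Finset.mem_filter.1 hr).2
    refine le_trans (Finset.sum_le_sum_of_subset_of_nonneg ?_ (fun n _ _ => hv n)) (hC r)
    intro n hn
    obtain ⟨h2, h3⟩ := Finset.mem_filter.1 hn
    refine Finset.mem_filter.2 ⟨h2, ?_⟩
    have h4 : (q.1 * n + q.2) ≡ (q.1 * r + q.2) [MOD p] := by
      rw [Nat.ModEq, Nat.mod_eq_zero_of_dvd h3, Nat.mod_eq_zero_of_dvd hr2]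
    have h5 : q.1 * n ≡ q.1 * r [MOD p] := Nat.ModEq.add_right_cancel' q.2 h4
    exact Nat.ModEq.cancel_left_of_coprime hcop.symm h5
  · rw [Finset.not_nonempty_iff_eq_empty] at hne
    rw [hne, Finset.sum_empty]
    refine le_trans ?_ (hC 0)
    exact Finset.sum_nonneg fun n _ => hv n

/-- the last clause of `S_GEN` -/
def GenP {Ω : Type} [MeasurableSpace Ω] (μ : Measure Ω) (e : ℕ → Ω → ℝ) (P : Set ℕ)
    (m : ℕ → Ω → ℝ) : Prop :=
  ∀ (X y : ℕ) (ι : Type) (I : Finset ι) (M : ι → ℕ) (w : ι → ℂ) (c : ℕ → ℝ),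
      (∀ p ∈ (pr P X).filter (y < ·), ∑ n ∈ I.filter (fun n => p ∈ odd (pr P X) (M n)), ‖w n‖ ≤ c p) →
      ∃ Z : Ω → ℝ, Measurable Z ∧ (∀ ω, 0 ≤ Z ω) ∧
        (∀ ω, Z ω ≤ 2 * ∑ p ∈ (pr P X).filter (y < ·), c p) ∧
        ∫ ω, Z ω ^ 2 ∂μ ≤ ∑ p ∈ (pr P X).filter (y < ·), c p ^ 2 ∧
        ∀ ω, ‖∑ n ∈ I, w n * ((∏ p ∈ odd (pr P X) (M n), e p ω : ℝ) : ℂ)‖ ≤
          ∑ n ∈ I.filter (fun n => ∀ p ∈ pr P X, y < p → Even ((M n).factorization p)), ‖w n‖ +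
            Z ω + ∑ p ∈ (pr P X).filter (y < ·), c p * |m p ω|

/-- **CORE with von Mangoldt factors**, pointwise; the constants and the window do not depend on the
law -/
def S_COREL : Prop := ∀ (P : Set ℕ) (u : ℕ → ℕ),
  Tendsto (fun N : ℕ => ms P (u N) N) atTop atTop →
  ∀ (A : ℕ) (T U : Finset (ℕ × ℕ)), 1 ≤ A → Adm A A (T ∪ U) → Disjoint T U → U.Nonempty →
  ∀ ε : ℝ, 0 < ε → ∃ (C K : ℝ) (y : ℕ → ℕ), 0 ≤ C ∧ 0 < K ∧ Tendsto y atTop atTop ∧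
    (∀ᶠ N in atTop, u N ≤ y N ∧ 1 ≤ y N ∧ y N ≤ N) ∧
    (∀ᶠ N : ℕ in atTop, ms P (y N) (2 * A * N) ≤ K) ∧
    ∀ᶠ N : ℕ in atTop, ∀ (Ω : Type) [MeasurableSpace Ω] (μ : Measure Ω) [IsProbabilityMeasure μ]
      (e m : ℕ → Ω → ℝ), Sgn e → GenP μ e P m → ∀ w : ℕ → ℂ, (∀ n, ‖w n‖ ≤ 1) →
      ∃ Z : Ω → ℝ, Measurable Z ∧ (∀ ω, 0 ≤ Z ω) ∧ (∃ B : ℝ, ∀ ω, Z ω ≤ B) ∧
        ∫ ω, Z ω ^ 2 ∂μ ≤ (C * N) ^ 2 / y N ∧
        ∀ ω, ‖cl P e T U w N ω‖ ≤ ε * N + Z ω + C * N *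
          ∑ p ∈ (pr P (2 * A * N)).filter (y N < ·), 1 / (p : ℝ) * |m p ω|

theorem t_COREL (hCls : S_CLS) (hBig : S_BIG) (hEvn : S_EVN) : S_COREL := by
  classical
  intro P u hP A T U hA hTU hdis hU ε hε
  have hUA := adm_right hTU hU
  obtain ⟨C1, hC1, hbig⟩ := hBig A T U hTU hdis
  obtain ⟨δ, hδ⟩ : ∃ δ : ℝ, δ = min (1 / 4) (ε / (2 * C1)) := ⟨_, rfl⟩
  have hδ0 : 0 < δ := by
    rw [hδ]
    exact lt_min (by norm_num) (by positivity)
  have hδ4 : δ ≤ 1 / 4 := by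
    rw [hδ]
    exact min_le_left _ _
  have hC1δ : C1 * δ ≤ ε / 2 := by
    have h1 : δ ≤ ε / (2 * C1) := by
      rw [hδ]
      exact min_le_right _ _
    calc C1 * δ ≤ C1 * (ε / (2 * C1)) := mul_le_mul_of_nonneg_left h1 hC1.le
      _ = ε / 2 := by field_simp
  have hbig := hbig δ hδ0 hδ4
  obtain ⟨C2, hC2, hcls⟩ := hCls A T (adm_left hTU) δ hδ0 (by linarith)
  obtain ⟨C3, c', hC3, hc', hevn⟩ := hEvn A T U hTU hdis hU
  obtain ⟨c, hc⟩ : ∃ c : ℝ, c = min 1 c' := ⟨_, rfl⟩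
  have hc0 : 0 < c := by
    rw [hc]
    exact lt_min one_pos hc'
  have hc1 : c ≤ 1 := by
    rw [hc]
    exact min_le_left _ _
  obtain ⟨K0, hK0, hwin⟩ := winc P u hP c hc0 hc1 (2 * A) (by omega)
  obtain ⟨L, hL⟩ : ∃ L : ℝ, L = 1 + C3 * 4 / ε := ⟨_, rfl⟩
  have hL1 : 1 ≤ L := by
    rw [hL]
    have : 0 < C3 * 4 / ε := by positivity
    linarith
  have hLe : C3 * Real.exp (-L) ≤ ε / 4 := by
    have h1 : L ≤ Real.exp L := by
      have := Real.add_one_le_exp L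
      linarith
    rw [Real.exp_neg, ← div_eq_mul_inv, div_le_iff₀ (Real.exp_pos _)]
    have h2 : C3 * 4 / ε ≤ Real.exp L := by
      refine le_trans ?_ h1
      rw [hL]
      linarith
    rw [div_le_iff₀ hε] at h2
    linarith
  obtain ⟨y, hyinf, hyw⟩ := hwin L hL1
  obtain ⟨C', hC'⟩ : ∃ C' : ℝ, C' = U.card * C2 := ⟨_, rfl⟩
  have hC'0 : 0 ≤ C' := by rw [hC']; positivity
  refine ⟨C', L + 1 + K0, y, hC'0, by linarith, hyinf, ?_, ?_, ?_⟩
  · filter_upwards [hyw, hyinf.eventually_ge_atTop 1] with N h1 h2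
    exact ⟨h1.2.2.2.2, h2, h1.2.2.1.trans h1.2.2.2.1⟩
  · filter_upwards [hyw] with N h1
    exact h1.2.1
  have hyr := (tendsto_natCast_atTop_atTop (R := ℝ)).comp hyinf
  filter_upwards [hyw, hbig, hcls, hevn,
    hyinf.eventually_ge_atTop (2 * A ^ 2 + 2), hyr.eventually_ge_atTop (4 * C3 / ε),
    eventually_ge_atTop 1] with N h1 h2 h3 h4 h5 h7 hN1
  intro Ω _ μ _ e m he hm4 w hw
  obtain ⟨hw1, hw2, hw3, hw4, hw5⟩ := h1
  have hNn : (0 : ℝ) ≤ N := Nat.cast_nonneg _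
  have hN0 : (0 : ℝ) < N := by exact_mod_cast hN1
  have hN1r : (1 : ℝ) ≤ N := by exact_mod_cast hN1
  have hyA : 2 * A ^ 2 + 2 ≤ y N := h5
  have hAy : A < y N := by nlinarith
  have hy0 : (0 : ℝ) < y N := by exact_mod_cast (by omega : 0 < y N)
  obtain ⟨X, hX⟩ : ∃ X, X = 2 * A * N := ⟨_, rfl⟩
  rw [← hX] at hw2
  have hNX : N ≤ X := by
    rw [hX]
    exact Nat.le_mul_of_pos_left N (by omega)
  obtain ⟨I, hI⟩ : ∃ I : Finset ℕ, I = (Icc 1 N).filter (fun n => ¬ ∃ p : ℕ, p.Prime ∧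
    (N : ℝ) ^ (1 - δ) < p ∧ p ∣ ∏ q ∈ U, (q.1 * n + q.2)) := ⟨_, rfl⟩
  obtain ⟨M, hM⟩ : ∃ M : ℕ → ℕ, M = fun n => ∏ q ∈ U, (q.1 * n + q.2) := ⟨_, rfl⟩
  obtain ⟨wv, hwv⟩ : ∃ wv : ℕ → ℂ, wv = fun n => w n * (vT T n : ℂ) := ⟨_, rfl⟩
  have hwvn : ∀ n, ‖wv n‖ ≤ vT T n := by
    intro n
    rw [hwv]
    simp only [norm_mul, Complex.norm_real, Real.norm_eq_abs, abs_of_nonneg (vT_nonneg T n)]
    exact mul_le_of_le_one_left (vT_nonneg T n) (hw n)
  have hodd : ∀ (n p : ℕ), p ∈ odd (pr P X) (M n) → p ∣ M n := by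
    intro n p hp
    have h8 := (Finset.mem_filter.1 hp).2
    apply Nat.dvd_of_factorization_pos
    intro h9
    rw [h9] at h8
    exact absurd h8 (by decide)
  -- the coefficients
  have hcoef : ∀ p ∈ (pr P X).filter (y N < ·),
      ∑ n ∈ I.filter (fun n => p ∈ odd (pr P X) (M n)), ‖wv n‖ ≤ C' * N * (1 / (p : ℝ)) := by
    intro p hp
    obtain ⟨hpp, hpP, hpX, hpy⟩ := mem_win.1 hp
    have hp0 : (0 : ℝ) < p := by exact_mod_cast hpp.pos
    by_cases hpN : (p : ℝ) ≤ (N : ℝ) ^ (1 - δ)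
    · have e1 : ∑ n ∈ I.filter (fun n => p ∈ odd (pr P X) (M n)), ‖wv n‖ ≤
          ∑ n ∈ (Icc 1 N).filter (fun n => p ∣ ∏ q ∈ U, (q.1 * n + q.2)), vT T n := by
        refine (Finset.sum_le_sum fun n _ => hwvn n).trans ?_
        refine Finset.sum_le_sum_of_subset_of_nonneg ?_ (fun n _ _ => vT_nonneg T n)
        intro n hn
        obtain ⟨h8, h9⟩ := Finset.mem_filter.1 hn
        rw [hI] at h8
        refine Finset.mem_filter.2 ⟨(Finset.mem_filter.1 h8).1, ?_⟩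
        have h10 := hodd n p h9
        rw [hM] at h10
        exact h10
      refine e1.trans ?_
      have e2 := coef A U hUA (vT T) (vT_nonneg T) N p hpp (by omega) (C2 * N / p) (by
        intro r
        have h8 := h3 p 1 r hpp le_rfl (by norm_num) (by rw [pow_one]; exact hpN)
        rw [pow_one] at h8
        exact h8)
      refine e2.trans (le_of_eq ?_)
      rw [hC']
      ring
    · rw [Finset.sum_eq_zero]
      · positivity
      · intro n hn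
        exfalso
        obtain ⟨h8, h9⟩ := Finset.mem_filter.1 hn
        rw [hI] at h8
        apply (Finset.mem_filter.1 h8).2
        refine ⟨p, hpp, not_le.1 hpN, ?_⟩
        have h10 := hodd n p h9
        rw [hM] at h10
        exact h10
  obtain ⟨Z, hZ1, hZ2, hZ3, hZ4, hZ5⟩ := hm4 X (y N) ℕ I M wv
    (fun p => C' * N * (1 / (p : ℝ))) hcoef
  -- second moment
  have hZ4' : ∫ ω, Z ω ^ 2 ∂μ ≤ (C' * N) ^ 2 / y N := by
    refine hZ4.trans ?_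
    have h8 : ∀ p ∈ (pr P X).filter (y N < ·), (C' * (N : ℝ) * (1 / (p : ℝ))) ^ 2 =
        (C' * (N : ℝ)) ^ 2 * (1 / (p : ℝ) ^ 2) := by
      intro p _
      ring
    rw [Finset.sum_congr rfl h8, ← Finset.mul_sum]
    have h9 := inv_sq_sum (y N) (by omega) ((pr P X).filter (y N < ·))
      (fun p hp => (Finset.mem_filter.1 hp).2)
    calc (C' * (N : ℝ)) ^ 2 * ∑ p ∈ (pr P X).filter (y N < ·), 1 / (p : ℝ) ^ 2 ≤
        (C' * (N : ℝ)) ^ 2 * (1 / y N) := mul_le_mul_of_nonneg_left h9 (by positivity)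
      _ = _ := by ring
  -- the even part
  have hev : ∑ n ∈ I.filter (fun n => ∀ p ∈ pr P X, y N < p → Even ((M n).factorization p)), ‖wv n‖ ≤
      ε / 2 * N := by
    have e1 : ∑ n ∈ I.filter (fun n => ∀ p ∈ pr P X, y N < p → Even ((M n).factorization p)),
        ‖wv n‖ ≤ ∑ n ∈ (Icc 1 N).filter (fun n => ∀ p ∈ (pr P ⌊(N : ℝ) ^ c⌋₊).filter (y N < ·),
          Even ((∏ q ∈ U, (q.1 * n + q.2)).factorization p)), vT T n := by
      refine (Finset.sum_le_sum fun n _ => hwvn n).trans ?_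
      refine Finset.sum_le_sum_of_subset_of_nonneg ?_ (fun n _ _ => vT_nonneg T n)
      intro n hn
      obtain ⟨h8, h9⟩ := Finset.mem_filter.1 hn
      rw [hI] at h8
      refine Finset.mem_filter.2 ⟨(Finset.mem_filter.1 h8).1, fun p hp => ?_⟩
      obtain ⟨g1, g2, g3, g4⟩ := mem_win.1 hp
      have h10 := h9 p (mem_pr.2 ⟨g1, g2, g3.trans (hw4.trans hNX)⟩) g4
      rw [hM] at h10
      exact h10
    refine e1.trans ((h4 (y N) _ hyA ?_).trans ?_)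
    · intro p hp
      obtain ⟨g1, g2, g3, g4⟩ := mem_win.1 hp
      refine ⟨g1, g4, ?_⟩
      have g5 : (p : ℝ) ≤ (⌊(N : ℝ) ^ c⌋₊ : ℝ) := by exact_mod_cast g3
      refine g5.trans ((Nat.floor_le (by positivity)).trans ?_)
      apply Real.rpow_le_rpow_of_exponent_le hN1r
      rw [hc]
      exact min_le_right _ _
    · have g1 : Real.exp (-(∑ p ∈ (pr P ⌊(N : ℝ) ^ c⌋₊).filter (y N < ·), 1 / (p : ℝ))) ≤
          Real.exp (-L) := by
        apply Real.exp_le_exp.2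
        have : L ≤ ∑ p ∈ (pr P ⌊(N : ℝ) ^ c⌋₊).filter (y N < ·), 1 / (p : ℝ) := hw1
        linarith
      have g2 : C3 * (1 / (y N : ℝ)) ≤ ε / 4 := by
        have h8 : 4 * C3 / ε ≤ (y N : ℝ) := h7
        rw [div_le_iff₀ hε] at h8
        rw [mul_one_div, div_le_iff₀ hy0]
        linarith
      have g3 : C3 * Real.exp (-(∑ p ∈ (pr P ⌊(N : ℝ) ^ c⌋₊).filter (y N < ·), 1 / (p : ℝ))) ≤
          ε / 4 := (mul_le_mul_of_nonneg_left g1 hC3.le).trans hLe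
      have g4 : C3 * (N : ℝ) * (Real.exp (-(∑ p ∈ (pr P ⌊(N : ℝ) ^ c⌋₊).filter (y N < ·),
          1 / (p : ℝ))) + 1 / y N) = N * (C3 * Real.exp (-(∑ p ∈ (pr P ⌊(N : ℝ) ^ c⌋₊).filter
          (y N < ·), 1 / (p : ℝ)))) + N * (C3 * (1 / y N)) := by ring
      rw [g4]
      have g5 := mul_le_mul_of_nonneg_left g3 hNn
      have g6 := mul_le_mul_of_nonneg_left g2 hNn
      linarith
  -- pointwise
  have hpt : ∀ ω, ‖cl P e T U w N ω‖ ≤
      ‖∑ n ∈ I, wv n * ((∏ p ∈ odd (pr P X) (M n), e p ω : ℝ) : ℂ)‖ + ε / 2 * N := by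
    intro ω
    have e0 : cl P e T U w N ω = ∑ n ∈ Icc 1 N, wv n * ((∏ p ∈ odd (pr P X) (M n), e p ω : ℝ) : ℂ) := by
      unfold cl
      refine Finset.sum_congr rfl fun n hn => ?_
      rw [Finset.mem_Icc] at hn
      have hne : ∀ q ∈ U, q.1 * n + q.2 ≠ 0 := by
        intro q hq
        have h8 := (hUA.2.1 q hq).1
        have h9 : 1 ≤ q.1 * n := Nat.mul_pos h8 hn.1
        omega
      rw [cmf_prodA P _ U n hne, hM, hwv]
      congr 2
      refine cmf_eq (fun p => he.val p ω) ?_ ?_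
      · exact Finset.prod_ne_zero_iff.2 hne
      · intro p hp hpd
        rw [Prime.dvd_finsetProd_iff hp.prime] at hpd
        obtain ⟨q, hq, h7⟩ := hpd
        have h8 := Nat.le_of_dvd (Nat.pos_of_ne_zero (hne q hq)) h7
        have h9 : q.1 * n ≤ A * N := Nat.mul_le_mul (hUA.2.1 q hq).2.1 hn.2
        have h10 : q.2 ≤ A * N := (hUA.2.1 q hq).2.2.trans (Nat.le_mul_of_pos_right A hN1)
        have h11 : 2 * A * N = A * N + A * N := by ring
        omega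
    rw [e0, ← Finset.sum_filter_add_sum_filter_not (Icc 1 N) (fun n => ∃ p : ℕ, p.Prime ∧
      (N : ℝ) ^ (1 - δ) < p ∧ p ∣ ∏ q ∈ U, (q.1 * n + q.2)), ← hI, add_comm]
    refine (norm_add_le _ _).trans (add_le_add le_rfl ?_)
    refine (norm_sum_le _ _).trans ?_
    have e1 : ∀ n ∈ (Icc 1 N).filter (fun n => ∃ p : ℕ, p.Prime ∧
      (N : ℝ) ^ (1 - δ) < p ∧ p ∣ ∏ q ∈ U, (q.1 * n + q.2)),
        ‖wv n * ((∏ p ∈ odd (pr P X) (M n), e p ω : ℝ) : ℂ)‖ ≤ vT T n := by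
      intro n _
      rw [norm_mul, Complex.norm_real, Real.norm_eq_abs, prod_sg he.val (odd (pr P X) (M n)) (pr P X)
        (Finset.filter_subset _ _), abs_sg, mul_one]
      exact hwvn n
    refine (Finset.sum_le_sum e1).trans (h2.trans ?_)
    exact mul_le_mul_of_nonneg_right hC1δ hNn
  refine ⟨Z, hZ1, hZ2, ⟨_, hZ3⟩, hZ4', fun ω => ?_⟩
  refine (hpt ω).trans ?_
  have f1 := hZ5 ω
  have e1 : ∑ p ∈ (pr P X).filter (y N < ·), C' * (N : ℝ) * (1 / (p : ℝ)) * |m p ω| =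
      C' * N * ∑ p ∈ (pr P (2 * A * N)).filter (y N < ·), 1 / (p : ℝ) * |m p ω| := by
    rw [Finset.mul_sum, hX]
    refine Finset.sum_congr rfl fun p _ => ?_
    ring
  rw [e1] at f1
  linarith

theorem thrL (hG : S_GEN) (hC : S_COREL) (hTel : S_TEL)
    (P : Set ℕ) (hP : Tendsto (fun N : ℕ => ms P 0 N) atTop atTop)
    (A : ℕ) (T U : Finset (ℕ × ℕ)) (hA : 1 ≤ A) (hTU : Adm A A (T ∪ U)) (hdis : Disjoint T U)
    (hU : U.Nonempty) (ε : ℝ) (hε : 0 < ε) : ∃ ρ : ℝ, 0 < ρ ∧ ∀ Y : ℕ, ∀ᶠ N : ℕ in atTop,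
      ∀ (Ω : Type) [MeasurableSpace Ω] (μ : Measure Ω) [IsProbabilityMeasure μ] (e : ℕ → Ω → ℝ),
      Sgn e → (∀ t, Y ≤ t → t ≤ 2 * A * N → defic μ e (pr P t) ≤ ρ * (pr P t).card) →
      ∀ w : ℕ → ℂ, (∀ n, ‖w n‖ ≤ 1) → ∫ ω, ‖cl P e T U w N ω‖ ∂μ ≤ ε * N := by
  classical
  obtain ⟨C', K, y, hC'0, hKp, hyinf, hy1, hy2, hcore⟩ := hC P (fun _ => 0) hP A T U hA hTU hdis hU
    (ε / 3) (by positivity)
  obtain ⟨s, hs⟩ : ∃ s : ℝ, s = ε / (3 * (C' + 1) * (1 + K)) := ⟨_, rfl⟩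
  have hs0 : 0 < s := by rw [hs]; positivity
  refine ⟨s ^ 2 / 2, by positivity, fun Y => ?_⟩
  have hyr := (tendsto_natCast_atTop_atTop (R := ℝ)).comp hyinf
  filter_upwards [hy1, hy2, hcore, hyinf.eventually_ge_atTop Y,
    hyr.eventually_ge_atTop ((3 * C' / ε) ^ 2), eventually_ge_atTop 1] with N h1 h2 h3 h5 h6 hN1
  intro Ω _ μ _ e he hdef w hw
  obtain ⟨m, hm1, hm2, hm0, hm3, hm4⟩ := hG Ω μ e he P
  obtain ⟨Z, hZ1, hZ2, hZ3, hZ4, hZ5⟩ := h3 Ω μ e m he hm4 w hw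
  have hNn : (0 : ℝ) ≤ N := Nat.cast_nonneg _
  have hy0 : (0 : ℝ) < y N := by exact_mod_cast h1.2.1
  have hyX : y N ≤ 2 * A * N := h1.2.2.trans (Nat.le_mul_of_pos_left N (by omega))
  have hdr := drift hTel μ e he P (2 * A * N) (y N) hyX (s ^ 2 / 2) (by positivity) hm0
    (fun t ht1 ht2 => hdef t (h5.trans ht1) ht2)
  have hmean := mean_bound hm1 hm2 ((pr P (2 * A * N)).filter (y N < ·))
    (fun p => dd μ e (pr P p) p)
    (fun p hp => ⟨(mem_win.1 hp).1.pos, hm3 p (mem_win.1 hp).1 (mem_win.1 hp).2.1⟩)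
    (F := fun ω => ‖cl P e T U w N ω‖)
    hZ1 hZ2 hZ3 (ε / 3 * N) (C' * N) (y N) K (s ^ 2 / 2 * (1 + K)) (by positivity) hy0 hZ4
    (fun ω => norm_nonneg _) hZ5 h2
    (hdr.trans (mul_le_mul_of_nonneg_left (by
      have : ms P (y N) (2 * A * N) ≤ K := h2
      unfold ms at this
      linarith) (by positivity)))
  refine hmean.trans ?_
  -- numbers
  have f1 : C' * N / Real.sqrt (y N) ≤ ε / 3 * N := by
    rw [div_le_iff₀ (Real.sqrt_pos.2 hy0)]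
    have h8 : 3 * C' / ε ≤ Real.sqrt (y N) := by
      apply Real.le_sqrt_of_sq_le
      exact h6
    rw [div_le_iff₀ hε] at h8
    nlinarith
  have f2 : Real.sqrt (K * (2 * (s ^ 2 / 2 * (1 + K)))) ≤ s * (1 + K) := by
    apply Real.sqrt_le_iff.2
    constructor
    · positivity
    · have h8 : K * (2 * (s ^ 2 / 2 * (1 + K))) = s ^ 2 * (K * (1 + K)) := by ring
      rw [h8, mul_pow]
      apply mul_le_mul_of_nonneg_left _ (by positivity)
      nlinarith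
  have f3 : C' * N * Real.sqrt (K * (2 * (s ^ 2 / 2 * (1 + K)))) ≤ ε / 3 * N := by
    have h8 : C' * N * Real.sqrt (K * (2 * (s ^ 2 / 2 * (1 + K)))) ≤
        (C' + 1) * N * (s * (1 + K)) := by
      apply mul_le_mul _ f2 (Real.sqrt_nonneg _) (by positivity)
      exact mul_le_mul_of_nonneg_right (by linarith) hNn
    refine h8.trans (le_of_eq ?_)
    rw [hs]
    field_simp
  linarith

end Pool.Agent.Q270.EN
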