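import Pool.Agent.Q270.EN.Stm6

set_option autoImplicit false

/-!
# The exact number of the exceptional functions
-/

namespace Pool.Agent.Q270.EN

open Finset Filter Topology MeasureTheory
open Pool.Agent.Helper923.HRho (rho)

lemma sh_inj : Function.Injective (fun h : ℕ => ((1, h) : ℕ × ℕ)) := by
  intro a b h
  exact (Prod.mk.inj h).2

lemma card_sh (H : Finset ℕ) : (sh H).card = H.card := by
  classical
  unfold sh
  exact Finset.card_image_of_injective H sh_inj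

lemma adm_sh {H : Finset ℕ} {N : ℕ} (hH : H.Nonempty) (hN : H ⊆ range (N + 1)) :
    Adm 1 (1 * N) (sh H) := by
  classical
  refine ⟨hH.image _, ?_, ?_⟩
  · intro q hq
    unfold sh at hq
    obtain ⟨h, hh, rfl⟩ := Finset.mem_image.1 hq
    have := Finset.mem_range.1 (hN hh)
    refine ⟨le_rfl, le_rfl, ?_⟩
    show h ≤ 1 * N
    omega
  · intro q hq q' hq' hne
    unfold sh at hq hq'
    obtain ⟨h, hh, rfl⟩ := Finset.mem_image.1 hq
    obtain ⟨h', hh', rfl⟩ := Finset.mem_image.1 hq'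
    show 1 * h' ≠ 1 * h
    intro heq
    apply hne
    have : h = h' := by omega
    rw [this]

lemma prod_sh (H : Finset ℕ) (n : ℕ) (F : ℕ → ℝ) :
    ∏ q ∈ sh H, F (q.1 * n + q.2) = ∏ h ∈ H, F (n + h) := by
  classical
  unfold sh
  rw [Finset.prod_image (fun a _ b _ h => sh_inj h)]
  refine Finset.prod_congr rfl fun h _ => ?_
  rw [one_mul]

lemma ms_log (P : Set ℕ) (y z : ℕ) : ms P y z ≤ 1 + Real.log z := by
  classical
  have h1 : ms P y z ≤ ∑ i ∈ Icc 1 z, 1 / (i : ℝ) := by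
    unfold ms
    refine Finset.sum_le_sum_of_subset_of_nonneg ?_ (fun p _ _ => by positivity)
    intro p hp
    rw [mem_win] at hp
    rw [Finset.mem_Icc]
    exact ⟨hp.1.one_lt.le, hp.2.2.1⟩
  refine h1.trans ?_
  have h2 := harmonic_le_one_add_log z
  refine le_trans (le_of_eq ?_) h2
  rw [harmonic_eq_sum_Icc]
  push_cast
  refine Finset.sum_congr rfl fun i _ => ?_
  rw [one_div]

lemma big (s t c K : ℝ) (hst : t < s) (hc : 0 < c) : ∀ᶠ N : ℕ in atTop,
    K * (N : ℝ) ^ t * (1 + Real.log ((2 * N : ℕ) : ℝ)) ≤ c * (N : ℝ) ^ s := by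
  obtain ⟨K', hK'⟩ : ∃ K' : ℝ, K' = |K| + 1 := ⟨_, rfl⟩
  have hK'0 : 0 < K' := by rw [hK']; positivity
  have hr : 0 < s - t := by linarith
  have h1 := (isLittleO_log_rpow_atTop hr).bound (show (0 : ℝ) < c / (2 * K') by positivity)
  have h2 := tendsto_natCast_atTop_atTop (R := ℝ)
  have h3 := h2.eventually h1
  have h4 : Tendsto (fun N : ℕ => (N : ℝ) ^ (s - t)) atTop atTop :=
    (tendsto_rpow_atTop hr).comp h2
  filter_upwards [h3, h4.eventually_ge_atTop (4 * K' / c), eventually_ge_atTop 1] with N h5 h6 h7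
  have hN0 : (0 : ℝ) < N := by exact_mod_cast h7
  have hN1 : (1 : ℝ) ≤ N := by exact_mod_cast h7
  have hlog : 0 ≤ Real.log N := Real.log_nonneg hN1
  rw [Real.norm_eq_abs, abs_of_nonneg hlog, Real.norm_eq_abs, abs_of_nonneg (by positivity)] at h5
  have hl2 : Real.log ((2 * N : ℕ) : ℝ) ≤ 1 + Real.log N := by
    push_cast
    rw [Real.log_mul (by norm_num) hN0.ne']
    have := Real.log_two_lt_d9
    linarith
  have h8 : 4 * K' ≤ c * (N : ℝ) ^ (s - t) := by
    rw [div_le_iff₀ hc] at h6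
    linarith
  have h9 : 2 * K' * Real.log N ≤ c * (N : ℝ) ^ (s - t) := by
    have e1 : 2 * K' * Real.log N ≤ 2 * K' * (c / (2 * K') * (N : ℝ) ^ (s - t)) :=
      mul_le_mul_of_nonneg_left h5 (by positivity)
    refine e1.trans (le_of_eq ?_)
    field_simp
  have h10 : K' * (1 + Real.log ((2 * N : ℕ) : ℝ)) ≤ c * (N : ℝ) ^ (s - t) := by
    have e1 : K' * (1 + Real.log ((2 * N : ℕ) : ℝ)) ≤ K' * (2 + Real.log N) :=
      mul_le_mul_of_nonneg_left (by linarith) hK'0.le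
    linarith
  have h11 : (N : ℝ) ^ s = (N : ℝ) ^ t * (N : ℝ) ^ (s - t) := by
    rw [← Real.rpow_add hN0]
    congr 1
    ring
  have h12 : 0 ≤ 1 + Real.log ((2 * N : ℕ) : ℝ) := by
    have : 0 ≤ Real.log ((2 * N : ℕ) : ℝ) := Real.log_natCast_nonneg _
    linarith
  have hNt : 0 ≤ (N : ℝ) ^ t := by positivity
  calc K * (N : ℝ) ^ t * (1 + Real.log ((2 * N : ℕ) : ℝ))
      ≤ K' * (N : ℝ) ^ t * (1 + Real.log ((2 * N : ℕ) : ℝ)) := by
        apply mul_le_mul_of_nonneg_right _ h12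
        apply mul_le_mul_of_nonneg_right _ hNt
        rw [hK']
        linarith [le_abs_self K]
    _ = (N : ℝ) ^ t * (K' * (1 + Real.log ((2 * N : ℕ) : ℝ))) := by ring
    _ ≤ (N : ℝ) ^ t * (c * (N : ℝ) ^ (s - t)) := mul_le_mul_of_nonneg_left h10 hNt
    _ = c * (N : ℝ) ^ s := by rw [h11]; ring

/-- `⌊N ^ s⌋` is at least `N ^ s / 2` for large `N` -/
lemma floor_half (s : ℝ) (hs : 0 < s) : ∀ᶠ N : ℕ in atTop,
    (N : ℝ) ^ s / 2 ≤ (⌊(N : ℝ) ^ s⌋₊ : ℝ) ∧ (1 : ℝ) ≤ (⌊(N : ℝ) ^ s⌋₊ : ℝ) := by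
  have h4 : Tendsto (fun N : ℕ => (N : ℝ) ^ s) atTop atTop :=
    (tendsto_rpow_atTop hs).comp (tendsto_natCast_atTop_atTop (R := ℝ))
  filter_upwards [h4.eventually_ge_atTop 4] with N hN
  have h1 := Nat.sub_one_lt_floor ((N : ℝ) ^ s)
  constructor <;> linarith

/-- the sum of the values of a function at the shifts -/
noncomputable def csH (s : ℕ → ℝ) (H : Finset ℕ) (w : ℕ → ℂ) (N : ℕ) : ℂ :=
  ∑ n ∈ Icc 1 N, w n * ((∏ h ∈ H, cmf Set.univ s (n + h) : ℝ) : ℂ)

lemma fs_sh (a : Finset ℕ) (H : Finset ℕ) (w : ℕ → ℂ) (N : ℕ) :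
    fs Set.univ a (sh H) w N = csH (sgn a) H w N := by
  unfold fs csH
  refine Finset.sum_congr rfl fun n _ => ?_
  rw [prod_sh H n (fun m => cmf Set.univ (sgn a) m)]

open Classical in
/-- **upper bound**, one set of shifts and one weight; the exponent is `3 N ^ (1/u - δ)` -/
theorem ex_upp1 (hE : S_EVS) (u δ : ℝ) (hu : 1 < u) (hδ : 0 < δ) (k : ℕ) : ∀ᶠ N : ℕ in atTop,
    ∀ H : Finset ℕ, H.Nonempty → H.card ≤ k → H ⊆ range (N + 1) → ∀ w : ℕ → ℂ, (∀ n, ‖w n‖ ≤ 1) →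
    ((((pr Set.univ (2 * N)).powerset.filter fun a =>
      rho u * N ≤ ‖csH (sgn a) H w N‖).card : ℕ) : ℝ) ≤
      2 ^ (pr Set.univ (2 * N)).card * Real.exp (-(3 * (N : ℝ) ^ (1 / u - δ))) := by
  obtain ⟨v, hv⟩ : ∃ v : ℝ, v = u + δ / 2 := ⟨_, rfl⟩
  have hv1 : 1 < v := by rw [hv]; linarith
  have huv : u < v := by rw [hv]; linarith
  have hvu : 1 / u - δ / 2 ≤ 1 / v := by
    have h1 : 1 / u - 1 / v ≤ v - u := by
      rw [div_sub_div _ _ (by linarith) (by linarith), div_le_iff₀ (by nlinarith)]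
      nlinarith [mul_pos (show (0:ℝ) < v - u by linarith) (show (0:ℝ) < u * v - 1 by nlinarith)]
    rw [hv] at h1 ⊢
    linarith
  obtain ⟨η, hη⟩ : ∃ η : ℝ, η = (rho u - rho v) / 2 := ⟨_, rfl⟩
  have hst := Pool.Agent.Helper923.HRhoS.rho_strict hu.le huv
  have hη0 : 0 < η := by rw [hη]; linarith
  have hv0 : 0 < 1 / v := by positivity
  have hfl := floor_half (1 / v) hv0
  have hlim : Tendsto (fun N : ℕ => (N : ℝ) ^ (1 / v)) atTop atTop :=
    (tendsto_rpow_atTop hv0).comp (tendsto_natCast_atTop_atTop (R := ℝ))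
  filter_upwards [hE.1 k v η hv1 hη0, hfl, hlim.eventually_ge_atTop (2 * (6 * k / η) ^ 2),
    big (1 / v) (1 / u - δ) (η ^ 2) (3 * (144 * (k : ℝ) ^ 2)) (by linarith) (by positivity),
    eventually_ge_atTop 1] with N h1 h2 h3 h4 hN1
  intro H hH hk hHN w hw
  obtain ⟨y, hy⟩ : ∃ y : ℕ, y = ⌊(N : ℝ) ^ (1 / v)⌋₊ := ⟨_, rfl⟩
  rw [← hy] at h2
  have hNr : (1 : ℝ) ≤ N := by exact_mod_cast hN1
  have hyle : (y : ℝ) ≤ (N : ℝ) ^ (1 / v) := by
    rw [hy]
    exact Nat.floor_le (by positivity)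
  have hevn := h1 H y hH hk hHN hyle
  have hy1 : 1 ≤ y := by exact_mod_cast h2.2
  have hcard1 : 1 ≤ H.card := hH.card_pos
  have hcr : (1 : ℝ) ≤ H.card := by exact_mod_cast hcard1
  have hkr : (H.card : ℝ) ≤ k := by exact_mod_cast hk
  obtain ⟨L, hL⟩ : ∃ L : ℝ, L = 1 + Real.log ((2 * N : ℕ) : ℝ) := ⟨_, rfl⟩
  have hL0 : 0 < L := by
    rw [hL]
    have : 0 ≤ Real.log ((2 * N : ℕ) : ℝ) := Real.log_natCast_nonneg _
    linarith
  have hupp := Pool.Agent.Q48.EN.t_UPP a_COREA Pool.Agent.Q26.EN.t_TEL Set.univ 1 N y (sh H) w hN1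
    hy1 hy1 (adm_sh hH hHN) hw η L hη0 hL0 (by
      rw [card_sh]
      refine le_trans ?_ h2.1
      have e1 : (6 * ((1 : ℕ) : ℝ) * (H.card : ℝ) / η) ^ 2 ≤ (6 * k / η) ^ 2 := by
        apply pow_le_pow_left₀ (by positivity)
        apply div_le_div_of_nonneg_right _ hη0.le
        push_cast
        linarith
      linarith) (by
      rw [mul_one, hL]
      exact ms_log _ _ _)
  rw [mul_one] at hupp
  refine le_trans ?_ (hupp.trans ?_)
  · norm_cast
    apply Finset.card_le_card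
    intro a ha
    rw [Finset.mem_filter] at ha ⊢
    refine ⟨ha.1, ?_⟩
    rw [fs_sh]
    refine le_trans ?_ ha.2
    have e1 : (evn Set.univ (sh H) (2 * N) N y : ℝ) ≤ (rho v + η) * N := hevn
    have e2 : rho u = rho v + η + η := by rw [hη]; ring
    rw [e2]
    linarith
  · apply mul_le_mul_of_nonneg_left _ (by positivity)
    apply Real.exp_le_exp.2
    rw [neg_le_neg_iff, card_sh, le_div_iff₀ (by positivity)]
    push_cast
    rw [← hL] at h4
    have e3 : 3 * (N : ℝ) ^ (1 / u - δ) * (72 * 1 ^ 2 * (H.card : ℝ) ^ 2 * L) ≤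
        3 * (N : ℝ) ^ (1 / u - δ) * (72 * (k : ℝ) ^ 2 * L) := by
      apply mul_le_mul_of_nonneg_left _ (by positivity)
      apply mul_le_mul_of_nonneg_right _ hL0.le
      have : (H.card : ℝ) ^ 2 ≤ (k : ℝ) ^ 2 := pow_le_pow_left₀ (by positivity) hkr 2
      linarith
    refine e3.trans ?_
    have e4 : η ^ 2 * ((N : ℝ) ^ (1 / v) / 2) ≤ η ^ 2 * (y : ℝ) :=
      mul_le_mul_of_nonneg_left h2.1 (by positivity)
    refine le_trans ?_ e4
    have e5 : 3 * (N : ℝ) ^ (1 / u - δ) * (72 * (k : ℝ) ^ 2 * L) =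
      (3 * (144 * (k : ℝ) ^ 2) * (N : ℝ) ^ (1 / u - δ) * L) / 2 := by ring
    rw [e5]
    linarith


open Classical in
/-- the number of the sets of at most `k` shifts up to `N` -/
lemma card_small (k N : ℕ) : ((range (N + 1)).powerset.filter fun H => H.card ≤ k).card ≤
    (k + 1) * (N + 1) ^ k := by
  have h1 : ((range (N + 1)).powerset.filter fun H => H.card ≤ k) ⊆
      (range (k + 1)).biUnion fun j => (range (N + 1)).powersetCard j := by
    intro H hH
    rw [Finset.mem_filter, Finset.mem_powerset] at hH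
    rw [Finset.mem_biUnion]
    exact ⟨H.card, Finset.mem_range.2 (by omega), Finset.mem_powersetCard.2 ⟨hH.1, rfl⟩⟩
  refine (Finset.card_le_card h1).trans ?_
  refine Finset.card_biUnion_le.trans ?_
  have h2 : ∀ j ∈ range (k + 1), ((range (N + 1)).powersetCard j).card ≤ (N + 1) ^ k := by
    intro j hj
    rw [Finset.card_powersetCard, Finset.card_range]
    refine (Nat.choose_le_pow _ _).trans ?_
    exact Nat.pow_le_pow_right (by omega) (by have := Finset.mem_range.1 hj; omega)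
  refine (Finset.sum_le_card_nsmul _ _ _ h2).trans ?_
  rw [Finset.card_range, smul_eq_mul]

open Classical in
/-- **upper bound**, all sets of shifts and a large family of weights at once -/
theorem ex_upp (hE : S_EVS) (u δ : ℝ) (hu : 1 < u) (hδ : 0 < δ) (hδu : δ < 1 / u) (k : ℕ) :
    ∀ᶠ N : ℕ in atTop, ∀ W : Finset (ℕ → ℂ), (W.card : ℝ) ≤ Real.exp ((N : ℝ) ^ (1 / u - δ)) →
    (∀ w ∈ W, ∀ n, ‖w n‖ ≤ 1) →
    ((((pr Set.univ (2 * N)).powerset.filter fun a => ∃ H : Finset ℕ, H.Nonempty ∧ H.card ≤ k ∧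
      H ⊆ range (N + 1) ∧ ∃ w ∈ W, rho u * N ≤ ‖csH (sgn a) H w N‖).card : ℕ) : ℝ) ≤
      2 ^ (pr Set.univ (2 * N)).card * Real.exp (-((N : ℝ) ^ (1 / u - δ))) := by
  have hr : 0 < 1 / u - δ := by linarith
  have hlim : ∀ᶠ N : ℕ in atTop, Real.log ((k + 1 : ℕ) : ℝ) + k * (1 + Real.log N) ≤
      (N : ℝ) ^ (1 / u - δ) := by
    have h1 : (fun x : ℝ => Real.log ((k + 1 : ℕ) : ℝ) + k * (1 + Real.log x)) =o[atTop]
        fun x : ℝ => x ^ (1 / u - δ) := by
      refine Asymptotics.IsLittleO.add ?_ ?_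
      · exact Asymptotics.isLittleO_const_left.2 (Or.inr ((tendsto_norm_atTop_atTop).comp
          (tendsto_rpow_atTop hr)))
      · refine Asymptotics.IsLittleO.const_mul_left ?_ _
        refine Asymptotics.IsLittleO.add ?_ (isLittleO_log_rpow_atTop hr)
        exact Asymptotics.isLittleO_const_left.2 (Or.inr ((tendsto_norm_atTop_atTop).comp
          (tendsto_rpow_atTop hr)))
    filter_upwards [(tendsto_natCast_atTop_atTop (R := ℝ)).eventually
      (h1.bound (show (0 : ℝ) < 1 by norm_num)), eventually_ge_atTop 1] with N h2 h3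
    rw [one_mul, Real.norm_eq_abs, Real.norm_eq_abs, abs_of_nonneg
      (show (0 : ℝ) ≤ (N : ℝ) ^ (1 / u - δ) by positivity)] at h2
    exact (le_abs_self _).trans h2
  filter_upwards [ex_upp1 hE u δ hu hδ k, hlim, eventually_ge_atTop 1] with
    N h1 h2 hN1
  intro W hW hw
  obtain ⟨S, hS⟩ : ∃ S, S = pr Set.univ (2 * N) := ⟨_, rfl⟩
  obtain ⟨E, hEE⟩ : ∃ E : ℝ, E = (N : ℝ) ^ (1 / u - δ) := ⟨_, rfl⟩
  obtain ⟨F, hF⟩ : ∃ F, F = (range (N + 1)).powerset.filter fun H => H.card ≤ k := ⟨_, rfl⟩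
  rw [← hS, ← hEE]
  rw [← hEE] at hW h2
  have hNr : (1 : ℝ) ≤ N := by exact_mod_cast hN1
  have hsub : (S.powerset.filter fun a => ∃ H : Finset ℕ, H.Nonempty ∧ H.card ≤ k ∧
      H ⊆ range (N + 1) ∧ ∃ w ∈ W, rho u * N ≤ ‖csH (sgn a) H w N‖) ⊆
      (F.filter fun H => H.Nonempty).biUnion fun H => W.biUnion fun w =>
        S.powerset.filter fun a => rho u * N ≤ ‖csH (sgn a) H w N‖ := by
    intro a ha
    rw [Finset.mem_filter] at ha
    obtain ⟨ha1, H, hH1, hH2, hH3, w, hw1, hw2⟩ := ha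
    rw [Finset.mem_biUnion]
    refine ⟨H, ?_, ?_⟩
    · rw [hF, Finset.mem_filter, Finset.mem_filter, Finset.mem_powerset]
      exact ⟨⟨hH3, hH2⟩, hH1⟩
    · rw [Finset.mem_biUnion]
      exact ⟨w, hw1, Finset.mem_filter.2 ⟨ha1, hw2⟩⟩
  have hle : ((((S.powerset.filter fun a => ∃ H : Finset ℕ, H.Nonempty ∧ H.card ≤ k ∧
      H ⊆ range (N + 1) ∧ ∃ w ∈ W, rho u * N ≤ ‖csH (sgn a) H w N‖).card : ℕ) : ℕ) : ℝ) ≤
      ∑ H ∈ F.filter (fun H => H.Nonempty), ∑ w ∈ W, 2 ^ S.card * Real.exp (-(3 * E)) := by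
    have e1 := (Finset.card_le_card hsub).trans Finset.card_biUnion_le
    refine (Nat.cast_le.2 e1).trans ?_
    rw [Nat.cast_sum]
    refine Finset.sum_le_sum fun H hH => ?_
    rw [hF, Finset.mem_filter, Finset.mem_filter, Finset.mem_powerset] at hH
    refine (Nat.cast_le.2 Finset.card_biUnion_le).trans ?_
    rw [Nat.cast_sum]
    refine Finset.sum_le_sum fun w hw1 => ?_
    have e2 := h1 H hH.2 hH.1.2 hH.1.1 w (hw w hw1)
    rw [← hS, ← hEE] at e2
    exact e2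
  refine hle.trans ?_
  rw [Finset.sum_const, Finset.sum_const, nsmul_eq_mul, nsmul_eq_mul]
  have hFc : ((F.filter fun H => H.Nonempty).card : ℝ) ≤ Real.exp E := by
    have e1 : (F.filter fun H => H.Nonempty).card ≤ (k + 1) * (N + 1) ^ k := by
      refine (Finset.card_le_card (Finset.filter_subset _ _)).trans ?_
      rw [hF]
      exact card_small k N
    have e2 : (((k + 1) * (N + 1) ^ k : ℕ) : ℝ) ≤ Real.exp E := by
      rw [← Real.log_le_iff_le_exp (by positivity)]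
      push_cast
      rw [Real.log_mul (by positivity) (by positivity), Real.log_pow]
      have e3 : Real.log ((N : ℝ) + 1) ≤ 1 + Real.log N := by
        have e4 : (N : ℝ) + 1 ≤ Real.exp 1 * N := by
          have := Real.add_one_le_exp (1 : ℝ)
          nlinarith
        have e5 := Real.log_le_log (by positivity) e4
        rw [Real.log_mul (Real.exp_pos 1).ne' (by positivity), Real.log_exp] at e5
        exact e5
      have e6 : (k : ℝ) * Real.log ((N : ℝ) + 1) ≤ k * (1 + Real.log N) :=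
        mul_le_mul_of_nonneg_left e3 (Nat.cast_nonneg _)
      push_cast at h2
      linarith
    exact (Nat.cast_le.2 e1).trans e2
  calc ((F.filter fun H => H.Nonempty).card : ℝ) * ((W.card : ℝ) *
        (2 ^ S.card * Real.exp (-(3 * E))))
      ≤ Real.exp E * (Real.exp E * (2 ^ S.card * Real.exp (-(3 * E)))) := by
        apply mul_le_mul hFc _ (by positivity) (by positivity)
        exact mul_le_mul_of_nonneg_right hW (by positivity)
    _ = 2 ^ S.card * (Real.exp E * Real.exp E * Real.exp (-(3 * E))) := by ring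
    _ = 2 ^ S.card * Real.exp (-E) := by
        rw [← Real.exp_add, ← Real.exp_add]
        congr 2
        ring


/-- the choice of `v < u` -/
lemma choose_v (u δ : ℝ) (hu : 1 < u) (hδ : 0 < δ) : ∃ v : ℝ, 1 < v ∧ v < u ∧
    1 / v ≤ 1 / u + δ / 2 := by
  refine ⟨u - min (δ / 2) ((u - 1) / 2), ?_, ?_, ?_⟩
  · have := min_le_right (δ / 2) ((u - 1) / 2)
    linarith
  · have : 0 < min (δ / 2) ((u - 1) / 2) := lt_min (by linarith) (by linarith)
    linarith
  · have h1 := min_le_right (δ / 2) ((u - 1) / 2)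
    have h2 := min_le_left (δ / 2) ((u - 1) / 2)
    have h3 : 0 < min (δ / 2) ((u - 1) / 2) := lt_min (by linarith) (by linarith)
    obtain ⟨t, ht⟩ : ∃ t, t = min (δ / 2) ((u - 1) / 2) := ⟨_, rfl⟩
    rw [← ht] at h1 h2 h3 ⊢
    have h4 : 1 < u - t := by linarith
    have h5 : 1 / (u - t) - 1 / u ≤ t := by
      rw [div_sub_div _ _ (by linarith) (by linarith), div_le_iff₀ (by nlinarith)]
      nlinarith [mul_pos h3 (show (0:ℝ) < (u - t) * u - 1 by nlinarith)]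
    linarith

lemma card_pr_le (P : Set ℕ) (y : ℕ) : (pr P y).card ≤ y := by
  classical
  have h1 : pr P y ⊆ Icc 1 y := by
    intro p hp
    rw [mem_pr] at hp
    rw [Finset.mem_Icc]
    exact ⟨hp.1.one_lt.le, hp.2.2⟩
  have h2 := Finset.card_le_card h1
  simpa using h2

/-- the numbers of the two lower bounds -/
lemma low_nums (hE : S_EVS) (u δ : ℝ) (hu : 1 < u) (hδ : 0 < δ) (h : ℕ) : ∃ η : ℝ, 0 < η ∧
    ∀ᶠ N : ℕ in atTop, ∃ y : ℕ, y ≤ 2 * N ∧
      (rho u + η) * N ≤ (evn Set.univ (sh {h}) (2 * N) N y : ℝ) ∧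
      (y : ℝ) + Real.log ((1 + η) / η) ≤ (N : ℝ) ^ (1 / u + δ) := by
  obtain ⟨v, hv1, hvu, hvd⟩ := choose_v u δ hu hδ
  have hst := Pool.Agent.Helper923.HRhoS.rho_strict hv1.le hvu
  obtain ⟨η, hη⟩ : ∃ η : ℝ, η = (rho v - rho u) / 2 := ⟨_, rfl⟩
  have hη0 : 0 < η := by rw [hη]; linarith
  refine ⟨η, hη0, ?_⟩
  have hv0 : 0 < 1 / v := by positivity
  have hlim : Tendsto (fun N : ℕ => (N : ℝ) ^ (1 / u + δ)) atTop atTop :=
    (tendsto_rpow_atTop (by positivity)).comp (tendsto_natCast_atTop_atTop (R := ℝ))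
  filter_upwards [hE.2 v η hv1 hη0 h, big (1 / u + δ) (1 / v) (1 / 2) 1 (by linarith) (by norm_num),
    hlim.eventually_ge_atTop (2 * (Real.log ((1 + η) / η) + 1)), eventually_ge_atTop 1]
    with N h1 h2 h3 hN1
  have hNr : (1 : ℝ) ≤ N := by exact_mod_cast hN1
  have hlog : 0 ≤ Real.log ((2 * N : ℕ) : ℝ) := Real.log_natCast_nonneg _
  have hNv : 0 ≤ (N : ℝ) ^ (1 / v) := by positivity
  have h4 : (N : ℝ) ^ (1 / v) ≤ 1 / 2 * (N : ℝ) ^ (1 / u + δ) := by
    refine le_trans ?_ h2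
    rw [one_mul]
    nlinarith
  have h5 : (N : ℝ) ^ (1 / v) ≤ N := by
    calc (N : ℝ) ^ (1 / v) ≤ (N : ℝ) ^ (1 : ℝ) := by
          apply Real.rpow_le_rpow_of_exponent_le hNr
          rw [div_le_one (by linarith)]
          exact hv1.le
      _ = N := Real.rpow_one _
  have h6 : (⌈(N : ℝ) ^ (1 / v)⌉₊ : ℝ) < (N : ℝ) ^ (1 / v) + 1 := Nat.ceil_lt_add_one hNv
  refine ⟨⌈(N : ℝ) ^ (1 / v)⌉₊, ?_, ?_, ?_⟩
  · have h7 : ⌈(N : ℝ) ^ (1 / v)⌉₊ ≤ N := Nat.ceil_le.2 h5
    omega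
  · have h7 := h1 ⌈(N : ℝ) ^ (1 / v)⌉₊ (Nat.le_ceil _)
    refine le_trans (le_of_eq ?_) h7
    rw [hη]
    ring
  · linarith

open Classical in
/-- **lower bound** -/
theorem ex_low (hE : S_EVS) (u δ : ℝ) (hu : 1 < u) (hδ : 0 < δ) (h : ℕ) : ∀ᶠ N : ℕ in atTop,
    2 ^ (pr Set.univ (2 * N)).card * Real.exp (-((N : ℝ) ^ (1 / u + δ))) ≤
    ((((pr Set.univ (2 * N)).powerset.filter fun a =>
      rho u * N ≤ ∑ n ∈ Icc 1 N, cmf Set.univ (sgn a) (n + h)).card : ℕ) : ℝ) := by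
  obtain ⟨η, hη0, hev⟩ := low_nums hE u δ hu hδ h
  filter_upwards [hev, eventually_ge_atTop (max 1 h)] with N h1 hN1
  obtain ⟨y, hy1, hy2, hy3⟩ := h1
  have hN1' : 1 ≤ N := (le_max_left _ _).trans hN1
  have hNh : h ≤ N := (le_max_right _ _).trans hN1
  have hlow := Pool.Agent.Q48.EN.t_LOW Set.univ 1 N y (sh {h}) hN1' (by rw [mul_one]; exact hy1)
    (adm_sh (Finset.singleton_nonempty h) (by
      intro x hx
      rw [Finset.mem_singleton] at hx
      rw [Finset.mem_range]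
      omega)) η hη0
  rw [mul_one] at hlow
  refine le_trans ?_ (hlow.trans ?_)
  · rw [div_mul_eq_mul_div, mul_div_assoc]
    apply mul_le_mul_of_nonneg_left _ (by positivity)
    have e1 : (2 : ℝ) ^ (pr Set.univ y).card ≤ Real.exp y := by
      have e2 : (2 : ℝ) ^ (pr Set.univ y).card ≤ 2 ^ y :=
        pow_le_pow_right₀ (by norm_num) (card_pr_le _ y)
      have e3 : (2 : ℝ) ^ y ≤ Real.exp 1 ^ y := by
        apply pow_le_pow_left₀ (by norm_num)
        have := Real.add_one_le_exp (1 : ℝ)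
        linarith
      rw [← Real.exp_nat_mul, mul_one] at e3
      exact e2.trans e3
    have e4 : η / (1 + η) = Real.exp (-Real.log ((1 + η) / η)) := by
      rw [Real.exp_neg, Real.exp_log (by positivity), inv_div]
    rw [le_div_iff₀ (by positivity), e4]
    calc Real.exp (-((N : ℝ) ^ (1 / u + δ))) * 2 ^ (pr Set.univ y).card
        ≤ Real.exp (-((N : ℝ) ^ (1 / u + δ))) * Real.exp y :=
          mul_le_mul_of_nonneg_left e1 (Real.exp_pos _).le
      _ = Real.exp (-((N : ℝ) ^ (1 / u + δ)) + y) := by rw [← Real.exp_add]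
      _ ≤ Real.exp (-Real.log ((1 + η) / η)) := by
          apply Real.exp_le_exp.2
          linarith
  · norm_cast
    apply Finset.card_le_card
    intro a ha
    rw [Finset.mem_filter] at ha ⊢
    refine ⟨ha.1, ?_⟩
    have e1 := ha.2
    have e2 : ∑ n ∈ Icc 1 N, ∏ q ∈ sh {h}, cmf Set.univ (sgn a) (q.1 * n + q.2) =
        ∑ n ∈ Icc 1 N, cmf Set.univ (sgn a) (n + h) := by
      refine Finset.sum_congr rfl fun n _ => ?_
      rw [prod_sh, Finset.prod_singleton]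
    rw [e2] at e1
    refine le_trans ?_ e1
    linarith

/-- **the price**, for every law -/
theorem ex_price (hE : S_EVS) (u δ : ℝ) (hu : 1 < u) (hδ : 0 < δ) (k : ℕ) : ∀ᶠ N : ℕ in atTop,
    ∀ (Ω : Type) [MeasurableSpace Ω] (μ : Measure Ω) [IsProbabilityMeasure μ] (e : ℕ → Ω → ℝ),
    Sgn e → defic μ e (pr Set.univ (2 * N)) ≤ (N : ℝ) ^ (1 / u - δ) →
    ∀ H : Finset ℕ, H.Nonempty → H.card ≤ k → H ⊆ range (N + 1) → ∀ w : ℕ → ℂ, (∀ n, ‖w n‖ ≤ 1) →
    ∫ ω, ‖csH (fun p => e p ω) H w N‖ ∂μ ≤ rho u * N := by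
  obtain ⟨v, hv⟩ : ∃ v : ℝ, v = u + δ / 2 := ⟨_, rfl⟩
  have hv1 : 1 < v := by rw [hv]; linarith
  have huv : u < v := by rw [hv]; linarith
  have hvu : 1 / u - δ / 2 ≤ 1 / v := by
    have h1 : 1 / u - 1 / v ≤ v - u := by
      rw [div_sub_div _ _ (by linarith) (by linarith), div_le_iff₀ (by nlinarith)]
      nlinarith [mul_pos (show (0:ℝ) < v - u by linarith) (show (0:ℝ) < u * v - 1 by nlinarith)]
    rw [hv] at h1 ⊢
    linarith
  obtain ⟨η, hη⟩ : ∃ η : ℝ, η = (rho u - rho v) / 3 := ⟨_, rfl⟩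
  have hst := Pool.Agent.Helper923.HRhoS.rho_strict hu.le huv
  have hη0 : 0 < η := by rw [hη]; linarith
  have hv0 : 0 < 1 / v := by positivity
  have hfl := floor_half (1 / v) hv0
  have hlim : Tendsto (fun N : ℕ => (N : ℝ) ^ (1 / v)) atTop atTop :=
    (tendsto_rpow_atTop hv0).comp (tendsto_natCast_atTop_atTop (R := ℝ))
  filter_upwards [hE.1 k v η hv1 hη0, hfl, hlim.eventually_ge_atTop (2 * (3 * k / η) ^ 2),
    big (1 / v) (1 / u - δ) (η ^ 2) (4 * (9 * (k : ℝ) ^ 2)) (by linarith) (by positivity),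
    eventually_ge_atTop 1] with N h1 h2 h3 h4 hN1
  intro Ω _ μ _ e he hdef H hH hk hHN w hw
  obtain ⟨y, hy⟩ : ∃ y : ℕ, y = ⌊(N : ℝ) ^ (1 / v)⌋₊ := ⟨_, rfl⟩
  rw [← hy] at h2
  have hNr : (1 : ℝ) ≤ N := by exact_mod_cast hN1
  have hyle : (y : ℝ) ≤ (N : ℝ) ^ (1 / v) := by
    rw [hy]
    exact Nat.floor_le (by positivity)
  have hevn := h1 H y hH hk hHN hyle
  have hy1 : 1 ≤ y := by exact_mod_cast h2.2
  have hkr : (H.card : ℝ) ≤ k := by exact_mod_cast hk
  have hpr := price μ e he Set.univ 1 N y (sh H) w hy1 hy1 (adm_sh hH hHN) hw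
  rw [mul_one, card_sh] at hpr
  have hcs : ∀ ω, cs Set.univ e (sh H) w N ω = csH (fun p => e p ω) H w N := by
    intro ω
    unfold cs csH
    refine Finset.sum_congr rfl fun n _ => ?_
    rw [prod_sh H n (fun m => cmf Set.univ (fun p => e p ω) m)]
  simp only [hcs] at hpr
  refine hpr.trans ?_
  obtain ⟨D, hD⟩ : ∃ D : ℝ, D = defic μ e (pr Set.univ (2 * N)) := ⟨_, rfl⟩
  obtain ⟨L, hL⟩ : ∃ L : ℝ, L = 1 + Real.log ((2 * N : ℕ) : ℝ) := ⟨_, rfl⟩
  have hL0 : 0 ≤ L := by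
    rw [hL]
    have : 0 ≤ Real.log ((2 * N : ℕ) : ℝ) := Real.log_natCast_nonneg _
    linarith
  have hms : ms Set.univ y (2 * N) ≤ L := by rw [hL]; exact ms_log _ _ _
  have hms0 := ms_nonneg Set.univ y (2 * N)
  rw [← hD] at hdef ⊢
  rw [← hL] at h4
  have hy0 : (0 : ℝ) < y := by linarith [h2.2]
  have hsy : 0 < Real.sqrt y := Real.sqrt_pos.2 hy0
  -- first error
  have f1 : 3 * ((1 : ℕ) : ℝ) * (H.card : ℝ) * N / Real.sqrt y ≤ η * N := by
    rw [div_le_iff₀ hsy]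
    have e1 : 3 * k / η ≤ Real.sqrt y := by
      apply Real.le_sqrt_of_sq_le
      linarith [h2.1]
    rw [div_le_iff₀ hη0] at e1
    push_cast
    have e2 : 3 * (H.card : ℝ) ≤ Real.sqrt y * η := by linarith
    have e3 := mul_le_mul_of_nonneg_right e2 (Nat.cast_nonneg (α := ℝ) N)
    linarith
  -- second error
  have f2 : 3 * (k : ℝ) * Real.sqrt (2 * ms Set.univ y (2 * N) * D) ≤ η * Real.sqrt y := by
    have e0 : 0 ≤ (N : ℝ) ^ (1 / u - δ) := by positivity
    have e1 : 2 * ms Set.univ y (2 * N) * D ≤ 2 * L * (N : ℝ) ^ (1 / u - δ) := by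
      calc 2 * ms Set.univ y (2 * N) * D ≤ 2 * ms Set.univ y (2 * N) * (N : ℝ) ^ (1 / u - δ) :=
            mul_le_mul_of_nonneg_left hdef (by positivity)
        _ ≤ 2 * L * (N : ℝ) ^ (1 / u - δ) :=
            mul_le_mul_of_nonneg_right (by linarith) e0
    have e2 : Real.sqrt (2 * ms Set.univ y (2 * N) * D) ≤
        Real.sqrt (2 * L * (N : ℝ) ^ (1 / u - δ)) := Real.sqrt_le_sqrt e1
    have e3 : 3 * (k : ℝ) * Real.sqrt (2 * L * (N : ℝ) ^ (1 / u - δ)) =
        Real.sqrt (9 * (k : ℝ) ^ 2 * (2 * L * (N : ℝ) ^ (1 / u - δ))) := by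
      rw [Real.sqrt_mul (by positivity) (2 * L * (N : ℝ) ^ (1 / u - δ))]
      congr 1
      rw [show 9 * (k : ℝ) ^ 2 = (3 * k) ^ 2 by ring, Real.sqrt_sq (by positivity)]
    have e4 : η * Real.sqrt y = Real.sqrt (η ^ 2 * y) := by
      rw [Real.sqrt_mul (by positivity), Real.sqrt_sq hη0.le]
    refine (mul_le_mul_of_nonneg_left e2 (by positivity)).trans ?_
    rw [e3, e4]
    apply Real.sqrt_le_sqrt
    have e5 : η ^ 2 * ((N : ℝ) ^ (1 / v) / 2) ≤ η ^ 2 * (y : ℝ) :=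
      mul_le_mul_of_nonneg_left h2.1 (by positivity)
    refine le_trans ?_ e5
    have e6 : 9 * (k : ℝ) ^ 2 * (2 * L * (N : ℝ) ^ (1 / u - δ)) =
        (4 * (9 * (k : ℝ) ^ 2) * (N : ℝ) ^ (1 / u - δ) * L) / 2 := by ring
    rw [e6]
    linarith
  have f3 : 3 * ((1 : ℕ) : ℝ) * (H.card : ℝ) * N / Real.sqrt y *
      (1 + Real.sqrt (2 * ms Set.univ y (2 * N) * D)) ≤ η * N + η * N := by
    rw [mul_add, mul_one]
    refine add_le_add f1 ?_
    rw [div_mul_eq_mul_div, div_le_iff₀ hsy]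
    push_cast
    have e1 : 3 * (H.card : ℝ) * Real.sqrt (2 * ms Set.univ y (2 * N) * D) ≤
        3 * (k : ℝ) * Real.sqrt (2 * ms Set.univ y (2 * N) * D) :=
      mul_le_mul_of_nonneg_right (by linarith) (Real.sqrt_nonneg _)
    have e2 := mul_le_mul_of_nonneg_right (e1.trans f2) (Nat.cast_nonneg (α := ℝ) N)
    linarith
  have f4 : rho u = rho v + η + (η + η) := by rw [hη]; ring
  rw [f4]
  linarith

/-- **a law with a small deficit which violates the bound** -/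
theorem ex_law (hE : S_EVS) (u δ : ℝ) (hu : 1 < u) (hδ : 0 < δ) (h : ℕ) : ∀ᶠ N : ℕ in atTop,
    ∃ (Ω : Type) (_ : MeasurableSpace Ω) (μ : Measure Ω) (_ : IsProbabilityMeasure μ)
      (e : ℕ → Ω → ℝ), Sgn e ∧ defic μ e (pr Set.univ (2 * N)) ≤ (N : ℝ) ^ (1 / u + δ) ∧
      rho u * N ≤ ∫ ω, ∑ n ∈ Icc 1 N, cmf Set.univ (fun p => e p ω) (n + h) ∂μ := by
  classical
  obtain ⟨η, hη0, hev⟩ := low_nums hE u δ hu hδ h
  filter_upwards [hev, eventually_ge_atTop (max 1 h)] with N h1 hN1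
  obtain ⟨y, hy1, hy2, hy3⟩ := h1
  have hN1' : 1 ≤ N := (le_max_left _ _).trans hN1
  have hNh : h ≤ N := (le_max_right _ _).trans hN1
  obtain ⟨S, hS⟩ : ∃ S, S = pr Set.univ (2 * N) := ⟨_, rfl⟩
  obtain ⟨S', hS'⟩ : ∃ S', S' = S.filter (y < ·) := ⟨_, rfl⟩
  have hB : (S'.powerset).Nonempty := ⟨∅, Finset.empty_mem_powerset _⟩
  have hS'S : S' ⊆ S := by rw [hS']; exact Finset.filter_subset _ _
  have hprob := Pool.Agent.Q48.EN.um_prob hB
  have hcard : S.card = S'.card + (pr Set.univ y).card := by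
    rw [hS', ← pr_filter_le (P := Set.univ) hy1, ← hS, add_comm]
    have h1 := Finset.card_filter_add_card_filter_not (s := S) (fun p => p ≤ y)
    simp only [not_le] at h1
    omega
  refine ⟨Pool.Agent.Q48.EN.Om, inferInstance, Pool.Agent.Q48.EN.um S'.powerset, hprob,
    Pool.Agent.Q48.EN.es, Pool.Agent.Q48.EN.es_sgn, ?_, ?_⟩
  · rw [← hS]
    unfold defic
    rw [Pool.Agent.Q48.EN.ent_um hB S (Finset.powerset_mono.2 hS'S), Finset.card_powerset, hcard]
    push_cast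
    rw [Real.log_pow]
    have e1 : (((S'.card : ℕ) : ℝ) + (((pr Set.univ y).card : ℕ) : ℝ)) * Real.log 2 -
        ((S'.card : ℕ) : ℝ) * Real.log 2 = ((pr Set.univ y).card : ℝ) * Real.log 2 := by ring
    rw [e1]
    have e2 : ((pr Set.univ y).card : ℝ) ≤ y := by exact_mod_cast card_pr_le _ y
    have e3 : 0 ≤ Real.log ((1 + η) / η) := by
      apply Real.log_nonneg
      rw [le_div_iff₀ hη0]
      linarith
    have e4 := Real.log_two_lt_d9
    have e5 : 0 < Real.log 2 := Real.log_pos (by norm_num)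
    have e6 : ((pr Set.univ y).card : ℝ) * Real.log 2 ≤ y * 1 :=
      mul_le_mul e2 (by linarith) e5.le (Nat.cast_nonneg _)
    linarith
  · rw [Pool.Agent.Q48.EN.um_int]
    have hes : ∀ a : Finset ℕ, (fun p => Pool.Agent.Q48.EN.es p (Pool.Agent.Q48.EN.Om.mk a)) =
        sgn a := fun a => rfl
    simp only [hes]
    obtain ⟨M, hM⟩ : ∃ M : ℕ → ℕ, M = fun n => ∏ q ∈ sh {h}, (q.1 * n + q.2) := ⟨_, rfl⟩
    have hAd : Adm 1 (1 * N) (sh {h}) := adm_sh (Finset.singleton_nonempty h) (by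
      intro x hx
      rw [Finset.mem_singleton] at hx
      rw [Finset.mem_range]
      omega)
    have hG1 : ∀ a : Finset ℕ, ∑ n ∈ Icc 1 N, cmf Set.univ (sgn a) (n + h) =
        ∑ n ∈ Icc 1 N, ∏ p ∈ odd S (M n), sgn a p := by
      intro a
      refine Finset.sum_congr rfl fun n hn => ?_
      have e1 := Pool.Agent.Q48.EN.prod_cmf (P := Set.univ) (Pool.Agent.Q48.EN.sgn_val a) hAd hn
      rw [mul_one, ← hS, prod_sh, Finset.prod_singleton] at e1
      rw [e1, hM]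
    simp only [hG1]
    have hev2 : ∑ a ∈ S'.powerset, ∑ n ∈ Icc 1 N, ∏ p ∈ odd S (M n), sgn a p =
        2 ^ S'.card * (evn Set.univ (sh {h}) (2 * N) N y : ℝ) := by
      rw [Finset.sum_comm]
      have h1 : ∀ n ∈ Icc 1 N, ∑ a ∈ S'.powerset, ∏ p ∈ odd S (M n), sgn a p =
          if (∀ p ∈ pr Set.univ (2 * N), y < p →
            Even ((∏ q ∈ sh {h}, (q.1 * n + q.2)).factorization p)) then
            (2 : ℝ) ^ S'.card else 0 := by
        intro n _
        rw [Pool.Agent.Q48.EN.sum_powerset_sgn]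
        congr 1
        apply propext
        constructor
        · intro hh p hp hyp
          by_contra h2
          rw [Nat.not_even_iff_odd] at h2
          refine hh p (Finset.mem_filter.2 ⟨by rw [hS]; exact hp, by rw [hM]; exact h2⟩) ?_
          rw [hS', Finset.mem_filter, hS]
          exact ⟨hp, hyp⟩
        · intro hh p hp hp2
          rw [hS', Finset.mem_filter] at hp2
          have h3 := (Finset.mem_filter.1 hp).2
          rw [hS] at hp2
          have h4 := hh p hp2.1 hp2.2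
          rw [hM] at h3
          rw [← Nat.not_even_iff_odd] at h3
          exact h3 h4
      rw [Finset.sum_congr rfl h1, ← Finset.sum_filter, Finset.sum_const, nsmul_eq_mul, mul_comm]
      congr 2
    rw [hev2, Finset.card_powerset]
    push_cast
    rw [← mul_assoc, inv_mul_cancel₀ (by positivity), one_mul]
    refine le_trans ?_ hy2
    have hNn : (0 : ℝ) ≤ N := Nat.cast_nonneg _
    nlinarith

end Pool.Agent.Q270.EN
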