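import Pool.Agent.Q270.EN.Core

set_option autoImplicit false

/-!
# The finite inequality
-/

namespace Pool.Agent.Q270.EN

open Finset Filter Topology MeasureTheory

lemma pr_filter_le {P : Set ℕ} {t X : ℕ} (h : t ≤ X) : (pr P X).filter (· ≤ t) = pr P t := by
  ext p
  simp only [Finset.mem_filter, mem_pr]
  constructor
  · rintro ⟨⟨h1, h2, _⟩, h4⟩
    exact ⟨h1, h2, h4⟩
  · rintro ⟨h1, h2, h3⟩
    exact ⟨⟨h1, h2, by omega⟩, h3⟩

/-- partial summation (proof by helper26) -/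
theorem abel2 (P : Set ℕ) (D : ℕ → ℝ) (ρ : ℝ) (y z : ℕ) (hD : ∀ p, 0 ≤ D p) (hρ : 0 ≤ ρ)
    (hyz : y ≤ z) (hle : ∀ t, y ≤ t → t ≤ z → ∑ p ∈ pr P t, D p ≤ ρ * (pr P t).card) :
    ∑ p ∈ (pr P z).filter (y < ·), D p / (p : ℝ) ≤
      ρ * (1 + ∑ p ∈ (pr P z).filter (y < ·), 1 / (p : ℝ)) := by
  classical
  let J : ℕ → ℝ := fun p => if p.Prime ∧ p ∈ P then 1 else 0
  have hJ0 : ∀ p, 0 ≤ J p := fun p => by
    simp only [J]
    split_ifs <;> norm_num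
  have hJ1 : ∀ p, J p ≤ 1 := fun p => by
    simp only [J]
    split_ifs <;> norm_num
  have hpr : ∀ (g : ℕ → ℝ) (t : ℕ), ∑ p ∈ pr P t, g p = ∑ p ∈ Icc 1 t, J p * g p := by
    intro g t
    unfold pr
    rw [sum_filter]
    refine sum_congr rfl fun p _ => ?_
    simp only [J]
    split_ifs <;> simp
  have hprf : ∀ (g : ℕ → ℝ) (t : ℕ), ∑ p ∈ (pr P t).filter (y < ·), g p =
      ∑ p ∈ Icc 1 t, J p * (if y < p then g p else 0) := by
    intro g t
    rw [sum_filter, hpr]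
  -- partial sums
  let B : ℕ → ℝ := fun t => ∑ p ∈ Icc 1 t, J p * (D p - ρ)
  let S : ℕ → ℝ := fun t => ∑ p ∈ Icc 1 t, J p * (if y < p then (D p - ρ) / p else 0)
  have hB : ∀ t, y ≤ t → t ≤ z → B t ≤ 0 := by
    intro t h1 h2
    have h3 := hle t h1 h2
    have h4 : ((pr P t).card : ℝ) = ∑ p ∈ Icc 1 t, J p * 1 := by
      rw [← hpr]
      simp
    rw [hpr, h4] at h3
    have h5 : B t = ∑ p ∈ Icc 1 t, J p * D p - ρ * ∑ p ∈ Icc 1 t, J p * 1 := by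
      simp only [B]
      rw [mul_sum, ← sum_sub_distrib]
      exact sum_congr rfl fun p _ => by ring
    rw [h5]
    linarith
  have hBy : -(ρ * y) ≤ B y := by
    have h1 : ∑ p ∈ Icc 1 y, (-ρ) ≤ B y := by
      refine sum_le_sum fun p _ => ?_
      have h2 : J p * (D p - ρ) = J p * D p - J p * ρ := by ring
      rw [h2]
      have h3 : 0 ≤ J p * D p := mul_nonneg (hJ0 p) (hD p)
      have h4 : J p * ρ ≤ 1 * ρ := mul_le_mul_of_nonneg_right (hJ1 p) hρ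
      linarith
    rw [sum_const, Nat.card_Icc, nsmul_eq_mul] at h1
    have h5 : ((y + 1 - 1 : ℕ) : ℝ) = y := by simp
    rw [h5] at h1
    linarith
  have hSy : ∀ t, t ≤ y → S t = 0 := by
    intro t ht
    simp only [S]
    refine sum_eq_zero fun p hp => ?_
    rw [mem_Icc] at hp
    rw [if_neg (by omega), mul_zero]
  have hinv : ∀ t, y ≤ t → t ≤ z → S t - B t / (t + 1) ≤ ρ := by
    intro t h1
    induction t, h1 using Nat.le_induction with
    | base =>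
      intro _
      rw [hSy y le_rfl, zero_sub, neg_le, le_div_iff₀ (by positivity)]
      have : (0 : ℝ) ≤ ρ := hρ
      nlinarith
    | succ t h1 ih =>
      intro h2
      have h3 := ih (by omega)
      have h4 := hB (t + 1) (by omega) h2
      have e1 : B (t + 1) = B t + J (t + 1) * (D (t + 1) - ρ) := by
        simp only [B]
        rw [Finset.sum_Icc_succ_top (by omega)]
      have e2 : S (t + 1) = S t + J (t + 1) * ((D (t + 1) - ρ) / ((t + 1 : ℕ) : ℝ)) := by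
        simp only [S]
        rw [Finset.sum_Icc_succ_top (by omega), if_pos (by omega)]
      have e3 : S (t + 1) = S t + (B (t + 1) - B t) / ((t : ℝ) + 1) := by
        rw [e2, e1]
        push_cast
        ring
      rw [e3]
      push_cast
      have e4 : S t + (B (t + 1) - B t) / ((t : ℝ) + 1) - B (t + 1) / ((t : ℝ) + 1 + 1) =
          (S t - B t / ((t : ℝ) + 1)) + B (t + 1) * (1 / ((t : ℝ) + 1) - 1 / ((t : ℝ) + 1 + 1)) := by
        ring
      rw [e4]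
      have h5 : 0 ≤ 1 / ((t : ℝ) + 1) - 1 / ((t : ℝ) + 1 + 1) := by
        rw [sub_nonneg]
        exact one_div_le_one_div_of_le (by positivity) (by linarith)
      have h6 : B (t + 1) * (1 / ((t : ℝ) + 1) - 1 / ((t : ℝ) + 1 + 1)) ≤ 0 :=
        mul_nonpos_of_nonpos_of_nonneg h4 h5
      linarith
  have hSz : S z ≤ ρ := by
    have h1 := hinv z hyz le_rfl
    have h2 := hB z hyz le_rfl
    have h3 : B z / ((z : ℝ) + 1) ≤ 0 := div_nonpos_of_nonpos_of_nonneg h2 (by positivity)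
    linarith
  obtain ⟨L, hL⟩ : ∃ L : ℝ, L = ∑ p ∈ (pr P z).filter (y < ·), 1 / (p : ℝ) := ⟨_, rfl⟩
  have hL0 : 0 ≤ L := by
    rw [hL]
    exact sum_nonneg fun p _ => by positivity
  have h1 : ∑ p ∈ (pr P z).filter (y < ·), D p / (p : ℝ) = S z + ρ * L := by
    rw [hL, hprf, hprf]
    simp only [S]
    rw [mul_sum, ← sum_add_distrib]
    refine sum_congr rfl fun p _ => ?_
    split_ifs
    · ring
    · ring
  rw [h1, ← hL]
  linarith

lemma dd_pr {Ω : Type} [MeasurableSpace Ω] (μ : Measure Ω) (e : ℕ → Ω → ℝ) (P : Set ℕ) {p X : ℕ}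
    (hp : p ≤ X) : dd μ e (pr P X) p = dd μ e (pr P p) p := by
  have h1 : (pr P X).filter (· ≤ p) = (pr P p).filter (· ≤ p) := by
    rw [pr_filter_le hp, pr_filter_le le_rfl]
  have h2 : (pr P X).filter (· < p) = (pr P p).filter (· < p) := by
    ext q
    simp only [Finset.mem_filter, mem_pr]
    constructor
    · rintro ⟨⟨h1, h2, _⟩, h4⟩
      exact ⟨⟨h1, h2, h4.le⟩, h4⟩
    · rintro ⟨⟨h1, h2, _⟩, h4⟩
      exact ⟨⟨h1, h2, h4.le.trans hp⟩, h4⟩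
  unfold dd
  rw [h1, h2]

/-- the conditional deficits at the primes of `(y, X]` -/
theorem drift (hTel : S_TEL) {Ω : Type} [MeasurableSpace Ω] (μ : Measure Ω)
    [IsProbabilityMeasure μ] (e : ℕ → Ω → ℝ) (he : Sgn e) (P : Set ℕ) (X y : ℕ) (hy : y ≤ X)
    (ρ : ℝ) (hρ : 0 ≤ ρ) (h0 : ∀ p, p.Prime → p ∈ P → 0 ≤ dd μ e (pr P p) p)
    (h : ∀ t, y ≤ t → t ≤ X → defic μ e (pr P t) ≤ ρ * (pr P t).card) :
    ∑ p ∈ (pr P X).filter (y < ·), dd μ e (pr P p) p / (p : ℝ) ≤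
      ρ * (1 + ∑ p ∈ (pr P X).filter (y < ·), 1 / (p : ℝ)) := by
  classical
  have h1 := abel2 P (fun p => if p.Prime ∧ p ∈ P then dd μ e (pr P p) p else 0) ρ y X (by
    intro p
    split_ifs with hp
    · exact h0 p hp.1 hp.2
    · exact le_refl _) hρ hy (by
    intro t ht1 ht2
    have h2 := h t ht1 ht2
    rw [← pr_filter_le ht2, ← hTel Ω μ e he (pr P X) t] at h2
    rw [← pr_filter_le ht2]
    refine le_trans (le_of_eq ?_) h2
    refine Finset.sum_congr rfl fun p hp => ?_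
    have hp' := mem_pr.1 (Finset.mem_filter.1 hp).1
    rw [if_pos ⟨hp'.1, hp'.2.1⟩, dd_pr μ e P hp'.2.2])
  refine le_trans (le_of_eq ?_) h1
  refine Finset.sum_congr rfl fun p hp => ?_
  have hp' := mem_pr.1 (Finset.mem_filter.1 hp).1
  rw [if_pos ⟨hp'.1, hp'.2.1⟩]

/-- the drift, pointwise Cauchy-Schwarz -/
lemma drift_cs (Q : Finset ℕ) (m : ℕ → ℝ) :
    (∑ p ∈ Q, 1 / (p : ℝ) * |m p|) ^ 2 ≤ (∑ p ∈ Q, 1 / (p : ℝ)) * ∑ p ∈ Q, m p ^ 2 / (p : ℝ) := by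
  have h1 := Finset.sum_mul_sq_le_sq_mul_sq Q (fun p => Real.sqrt (1 / (p : ℝ)))
    (fun p => Real.sqrt (1 / (p : ℝ)) * |m p|)
  have h2 : ∀ p : ℕ, Real.sqrt (1 / (p : ℝ)) * (Real.sqrt (1 / (p : ℝ)) * |m p|) =
      1 / (p : ℝ) * |m p| := by
    intro p
    rw [← mul_assoc, Real.mul_self_sqrt (by positivity)]
  have h3 : ∀ p : ℕ, Real.sqrt (1 / (p : ℝ)) ^ 2 = 1 / (p : ℝ) := fun p =>
    Real.sq_sqrt (by positivity)
  have h4 : ∀ p : ℕ, (Real.sqrt (1 / (p : ℝ)) * |m p|) ^ 2 = m p ^ 2 / (p : ℝ) := by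
    intro p
    rw [mul_pow, h3, sq_abs]
    ring
  simp only [h2, h3, h4] at h1
  exact h1

/-- first and second moments -/
lemma mean_le_sqrt {Ω : Type} [MeasurableSpace Ω] {μ : Measure Ω} [IsProbabilityMeasure μ]
    {Z : Ω → ℝ} (hZi : Integrable Z μ) (hZ2i : Integrable (fun ω => Z ω ^ 2) μ) {A : ℝ}
    (hA : ∫ ω, Z ω ^ 2 ∂μ ≤ A) : ∫ ω, Z ω ∂μ ≤ Real.sqrt A := by
  refine Real.le_sqrt_of_sq_le (le_trans ?_ hA)
  have h2 : 0 ≤ ∫ ω, (Z ω - ∫ ω', Z ω' ∂μ) ^ 2 ∂μ := integral_nonneg fun ω => sq_nonneg _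
  obtain ⟨c, hc⟩ : ∃ c, c = ∫ ω', Z ω' ∂μ := ⟨_, rfl⟩
  rw [← hc] at h2 ⊢
  have h3 : ∀ ω, (Z ω - c) ^ 2 = Z ω ^ 2 - 2 * c * Z ω + c ^ 2 := fun ω => by ring
  simp only [h3] at h2
  have e0 : Integrable (fun ω => 2 * c * Z ω) μ := hZi.const_mul (2 * c)
  have e1 : Integrable (fun ω => Z ω ^ 2 - 2 * c * Z ω) μ := hZ2i.sub e0
  have e2 : ∫ ω, (Z ω ^ 2 - 2 * c * Z ω + c ^ 2) ∂μ =
      ∫ ω, (Z ω ^ 2 - 2 * c * Z ω) ∂μ + ∫ _, c ^ 2 ∂μ := integral_add e1 (integrable_const _)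
  have e3 : ∫ ω, (Z ω ^ 2 - 2 * c * Z ω) ∂μ = ∫ ω, Z ω ^ 2 ∂μ - ∫ ω, 2 * c * Z ω ∂μ :=
    integral_sub hZ2i e0
  have e4 : ∫ ω, 2 * c * Z ω ∂μ = 2 * c * ∫ ω, Z ω ∂μ := integral_const_mul _ _
  rw [e2, e3, e4, ← hc, integral_const] at h2
  simp only [probReal_univ, smul_eq_mul, one_mul] at h2
  nlinarith

/-- **The finite inequality.** -/
theorem fin_ineq (hC : S_COREP) {Ω : Type} [MeasurableSpace Ω]
    (μ : Measure Ω) [IsProbabilityMeasure μ] (e : ℕ → Ω → ℝ) (he : Sgn e) (P : Set ℕ) (N y : ℕ)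
    (T : Finset ℕ) (w : ℕ → ℂ) (hy : 1 ≤ y) (hTn : T.Nonempty)
    (hT : T ⊆ range (N + 1)) (hw : ∀ n, ‖w n‖ ≤ 1) (L W : ℝ)
    (hL : ∑ p ∈ (pr P (2 * N)).filter (y < ·), 1 / (p : ℝ) ≤ L)
    (hW : ∑ p ∈ (pr P (2 * N)).filter (y < ·), dd μ e (pr P p) p / (p : ℝ) ≤ W) :
    ∫ ω, ‖∑ n ∈ Icc 1 N, w n * ((∏ h ∈ T, cmf P (fun p => e p ω) (n + h) : ℝ) : ℂ)‖ ∂μ ≤
      (((Icc 1 N).filter fun n : ℕ => ∀ p ∈ pr P (2 * N), y < p →
            Even ((∏ h ∈ T, (n + h)).factorization p)).card : ℕ) +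
      3 * T.card * N / Real.sqrt y + 3 * T.card * N * Real.sqrt (L * (2 * W)) := by
  classical
  obtain ⟨m, hm1, hm2, hm0, hm3, hm4⟩ := hC Ω μ e he P
  obtain ⟨Z, hZ1, hZ2, hZ3, hZ4, hZ5⟩ := hm4 (2 * N) N y T w hy le_rfl hTn hT hw
  obtain ⟨B, hB⟩ : ∃ B : ℝ, B = (((Icc 1 N).filter fun n : ℕ => ∀ p ∈ pr P (2 * N), y < p →
            Even ((∏ h ∈ T, (n + h)).factorization p)).card : ℕ) := ⟨_, rfl⟩
  obtain ⟨Q, hQ⟩ : ∃ Q, Q = (pr P (2 * N)).filter (y < ·) := ⟨_, rfl⟩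
  rw [← hQ] at hL hW
  simp only [← hQ] at hZ5
  rw [← hB]
  simp only [← hB] at hZ5
  have hQp : ∀ p ∈ Q, p.Prime ∧ p ∈ P := by
    intro p hp
    rw [hQ, Finset.mem_filter, mem_pr] at hp
    exact ⟨hp.1.1, hp.1.2.1⟩
  have hZi : Integrable Z μ := by
    refine Integrable.of_bound hZ1.aestronglyMeasurable (4 * N * (2 * N : ℕ)) ?_
    filter_upwards with ω
    rw [Real.norm_eq_abs, abs_of_nonneg (hZ2 ω)]
    exact hZ3 ω
  have hZ2i : Integrable (fun ω => Z ω ^ 2) μ := by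
    refine Integrable.of_bound (hZ1.pow_const 2).aestronglyMeasurable ((4 * N * (2 * N : ℕ) : ℝ) ^ 2) ?_
    filter_upwards with ω
    rw [Real.norm_eq_abs, abs_of_nonneg (by positivity)]
    exact pow_le_pow_left₀ (hZ2 ω) (hZ3 ω) 2
  have hmi : ∀ p, Integrable (fun ω => |m p ω|) μ := by
    intro p
    refine Integrable.of_bound (hm1 p).norm.aestronglyMeasurable 1 ?_
    filter_upwards with ω
    rw [Real.norm_eq_abs, abs_abs]
    exact hm2 p ω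
  have hm2i : ∀ p, Integrable (fun ω => m p ω ^ 2) μ := by
    intro p
    refine Integrable.of_bound ((hm1 p).pow_const 2).aestronglyMeasurable 1 ?_
    filter_upwards with ω
    rw [Real.norm_eq_abs, abs_of_nonneg (by positivity), ← sq_abs]
    exact pow_le_one₀ (abs_nonneg _) (hm2 p ω)
  -- second moment
  have hy0 : (0 : ℝ) < y := by exact_mod_cast hy
  have hZm : ∫ ω, Z ω ∂μ ≤ 3 * T.card * N / Real.sqrt y := by
    refine (mean_le_sqrt hZi hZ2i hZ4).trans (le_of_eq ?_)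
    have h1 : (9 * (T.card : ℝ) ^ 2 * N ^ 2 / y) = (3 * T.card * N / Real.sqrt y) ^ 2 := by
      rw [div_pow, Real.sq_sqrt hy0.le]
      ring
    rw [h1, Real.sqrt_sq (by positivity)]
  -- the drift
  obtain ⟨U, hU⟩ : ∃ U : Ω → ℝ, U = fun ω => ∑ p ∈ Q, 1 / (p : ℝ) * |m p ω| := ⟨_, rfl⟩
  have hUi : Integrable U μ := by
    rw [hU]
    exact integrable_finsetSum _ fun p _ => (hmi p).const_mul _
  have hU0 : ∀ ω, 0 ≤ U ω := by
    intro ω
    rw [hU]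
    exact Finset.sum_nonneg fun p _ => by positivity
  have hL0 : 0 ≤ ∑ p ∈ Q, 1 / (p : ℝ) := Finset.sum_nonneg fun p _ => by positivity
  have hUm : Measurable U := by
    rw [hU]
    exact Finset.measurable_sum _ fun p _ => ((hm1 p).abs).const_mul _
  have hU2i : Integrable (fun ω => U ω ^ 2) μ := by
    refine Integrable.of_bound (hUm.pow_const 2).aestronglyMeasurable
      ((∑ p ∈ Q, 1 / (p : ℝ)) ^ 2) ?_
    filter_upwards with ω
    rw [Real.norm_eq_abs, abs_of_nonneg (by positivity)]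
    refine pow_le_pow_left₀ (hU0 ω) ?_ 2
    rw [hU]
    refine Finset.sum_le_sum fun p _ => ?_
    have h1 : (0 : ℝ) ≤ 1 / (p : ℝ) := by positivity
    nlinarith [hm2 p ω]
  have hUm2 : ∫ ω, U ω ^ 2 ∂μ ≤ L * (2 * W) := by
    have h1 : ∫ ω, U ω ^ 2 ∂μ ≤ ∫ ω, (∑ p ∈ Q, 1 / (p : ℝ)) * ∑ p ∈ Q, m p ω ^ 2 / (p : ℝ) ∂μ := by
      refine integral_mono hU2i ?_ ?_
      · exact (integrable_finsetSum _ fun p _ => (hm2i p).div_const _).const_mul _
      · intro ω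
        simp only [hU]
        exact drift_cs Q fun p => m p ω
    refine h1.trans ?_
    rw [integral_const_mul, integral_finsetSum _ (fun p _ => (hm2i p).div_const _)]
    simp only [integral_div]
    have h2 : ∑ p ∈ Q, (∫ ω, m p ω ^ 2 ∂μ) / (p : ℝ) ≤ 2 * W := by
      refine le_trans (Finset.sum_le_sum fun p hp => ?_) (mul_le_mul_of_nonneg_left hW two_pos.le |>.trans' (le_of_eq (Finset.mul_sum _ _ _).symm))
      have h3 := hm3 p (hQp p hp).1 (hQp p hp).2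
      have h4 : (0 : ℝ) < p := by exact_mod_cast (hQp p hp).1.pos
      rw [← mul_div_assoc]
      exact (div_le_div_iff_of_pos_right h4).2 h3
    have h3 : 0 ≤ ∑ p ∈ Q, (∫ ω, m p ω ^ 2 ∂μ) / (p : ℝ) :=
      Finset.sum_nonneg fun p _ => div_nonneg (integral_nonneg fun ω => sq_nonneg _) (by positivity)
    exact mul_le_mul hL h2 h3 (hL0.trans hL)
  have hUmean : ∫ ω, U ω ∂μ ≤ Real.sqrt (L * (2 * W)) := mean_le_sqrt hUi hU2i hUm2
  have hint : ∫ ω, ‖∑ n ∈ Icc 1 N, w n * ((∏ h ∈ T, cmf P (fun p => e p ω) (n + h) : ℝ) : ℂ)‖ ∂μ ≤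
      ∫ ω, (B + Z ω + 3 * T.card * N * U ω) ∂μ := by
    refine integral_mono_of_nonneg ?_ ?_ ?_
    · filter_upwards with ω
      exact norm_nonneg _
    · exact ((integrable_const B).add hZi).add (hUi.const_mul _)
    · filter_upwards with ω
      rw [hU]
      exact hZ5 ω
  refine hint.trans ?_
  have d2 : Integrable (fun ω => B + Z ω) μ := (integrable_const B).add hZi
  have d3 : ∫ ω, (B + Z ω + 3 * T.card * N * U ω) ∂μ = ∫ ω, (B + Z ω) ∂μ +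
      ∫ ω, 3 * T.card * N * U ω ∂μ := integral_add d2 (hUi.const_mul _)
  have d4 : ∫ ω, (B + Z ω) ∂μ = ∫ _, B ∂μ + ∫ ω, Z ω ∂μ := integral_add (integrable_const B) hZi
  rw [d3, d4, integral_const, integral_const_mul]
  have h6 := mul_le_mul_of_nonneg_left hUmean (by positivity : (0 : ℝ) ≤ 3 * T.card * N)
  simp only [probReal_univ, smul_eq_mul, one_mul]
  linarith

end Pool.Agent.Q270.EN
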