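import Pool.Agent.Q270.EN.CoreA

set_option autoImplicit false

/-!
# The finite inequality for affine forms
-/

namespace Pool.Agent.Q270.EN

open Finset Filter Topology MeasureTheory

/-- the mean of the pointwise bound -/
lemma mean_bound {Ω : Type} [MeasurableSpace Ω] {μ : Measure Ω} [IsProbabilityMeasure μ]
    {m : ℕ → Ω → ℝ} (hm1 : ∀ p, Measurable (m p)) (hm2 : ∀ p ω, |m p ω| ≤ 1) (Q : Finset ℕ)
    (D : ℕ → ℝ) (hm3 : ∀ p ∈ Q, 0 < p ∧ ∫ ω, m p ω ^ 2 ∂μ ≤ 2 * D p)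
    {Z F : Ω → ℝ} (hZ1 : Measurable Z) (hZ2 : ∀ ω, 0 ≤ Z ω) (hZ3 : ∃ B : ℝ, ∀ ω, Z ω ≤ B)
    (B C y L W : ℝ) (hC : 0 ≤ C) (hy0 : 0 < y) (hZ4 : ∫ ω, Z ω ^ 2 ∂μ ≤ C ^ 2 / y)
    (hF0 : ∀ ω, 0 ≤ F ω)
    (hZ5 : ∀ ω, F ω ≤ B + Z ω + C * ∑ p ∈ Q, 1 / (p : ℝ) * |m p ω|)
    (hL : ∑ p ∈ Q, 1 / (p : ℝ) ≤ L) (hW : ∑ p ∈ Q, D p / (p : ℝ) ≤ W) :
    ∫ ω, F ω ∂μ ≤ B + C / Real.sqrt y + C * Real.sqrt (L * (2 * W)) := by
  classical
  obtain ⟨B0, hB0⟩ := hZ3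
  have hZi : Integrable Z μ := by
    refine Integrable.of_bound hZ1.aestronglyMeasurable B0 ?_
    filter_upwards with ω
    rw [Real.norm_eq_abs, abs_of_nonneg (hZ2 ω)]
    exact hB0 ω
  have hZ2i : Integrable (fun ω => Z ω ^ 2) μ := by
    refine Integrable.of_bound (hZ1.pow_const 2).aestronglyMeasurable (B0 ^ 2) ?_
    filter_upwards with ω
    rw [Real.norm_eq_abs, abs_of_nonneg (by positivity)]
    exact pow_le_pow_left₀ (hZ2 ω) (hB0 ω) 2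
  have hmi : ∀ p, Integrable (fun ω => |m p ω|) μ := by
    intro p
    refine Integrable.of_bound (hm1 p).norm.aestronglyMeasurable 1 ?_
    filter_upwards with ω
    rw [Real.norm_eq_abs, abs_abs]
    exact hm2 p ω
  have hm2i : ∀ p, Integrable (fun ω => m p ω ^ 2) μ := by
    intro p
    refine Integrable.of_bound ((hm1 p).pow_const 2).aestronglyMeasurable 1 ?_
    filter_upwards with ω
    rw [Real.norm_eq_abs, abs_of_nonneg (by positivity), ← sq_abs]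
    exact pow_le_one₀ (abs_nonneg _) (hm2 p ω)
  -- second moment
  have hZm : ∫ ω, Z ω ∂μ ≤ C / Real.sqrt y := by
    refine (mean_le_sqrt hZi hZ2i hZ4).trans (le_of_eq ?_)
    have h1 : C ^ 2 / y = (C / Real.sqrt y) ^ 2 := by
      rw [div_pow, Real.sq_sqrt hy0.le]
    rw [h1, Real.sqrt_sq (by positivity)]
  -- the drift
  obtain ⟨U, hU⟩ : ∃ U : Ω → ℝ, U = fun ω => ∑ p ∈ Q, 1 / (p : ℝ) * |m p ω| := ⟨_, rfl⟩
  have hUi : Integrable U μ := by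
    rw [hU]
    exact integrable_finsetSum _ fun p _ => (hmi p).const_mul _
  have hU0 : ∀ ω, 0 ≤ U ω := by
    intro ω
    rw [hU]
    exact Finset.sum_nonneg fun p _ => by positivity
  have hL0 : 0 ≤ ∑ p ∈ Q, 1 / (p : ℝ) := Finset.sum_nonneg fun p _ => by positivity
  have hUm : Measurable U := by
    rw [hU]
    exact Finset.measurable_sum _ fun p _ => ((hm1 p).abs).const_mul _
  have hU2i : Integrable (fun ω => U ω ^ 2) μ := by
    refine Integrable.of_bound (hUm.pow_const 2).aestronglyMeasurable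
      ((∑ p ∈ Q, 1 / (p : ℝ)) ^ 2) ?_
    filter_upwards with ω
    rw [Real.norm_eq_abs, abs_of_nonneg (by positivity)]
    refine pow_le_pow_left₀ (hU0 ω) ?_ 2
    rw [hU]
    refine Finset.sum_le_sum fun p _ => ?_
    have h1 : (0 : ℝ) ≤ 1 / (p : ℝ) := by positivity
    nlinarith [hm2 p ω]
  have hUm2 : ∫ ω, U ω ^ 2 ∂μ ≤ L * (2 * W) := by
    have h1 : ∫ ω, U ω ^ 2 ∂μ ≤ ∫ ω, (∑ p ∈ Q, 1 / (p : ℝ)) * ∑ p ∈ Q, m p ω ^ 2 / (p : ℝ) ∂μ := by
      refine integral_mono hU2i ?_ ?_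
      · exact (integrable_finsetSum _ fun p _ => (hm2i p).div_const _).const_mul _
      · intro ω
        simp only [hU]
        exact drift_cs Q fun p => m p ω
    refine h1.trans ?_
    rw [integral_const_mul, integral_finsetSum _ (fun p _ => (hm2i p).div_const _)]
    simp only [integral_div]
    have h2 : ∑ p ∈ Q, (∫ ω, m p ω ^ 2 ∂μ) / (p : ℝ) ≤ 2 * W := by
      refine le_trans (Finset.sum_le_sum fun p hp => ?_) (mul_le_mul_of_nonneg_left hW two_pos.le |>.trans' (le_of_eq (Finset.mul_sum _ _ _).symm))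
      have h3 := (hm3 p hp).2
      have h4 : (0 : ℝ) < p := by exact_mod_cast (hm3 p hp).1
      rw [← mul_div_assoc]
      exact (div_le_div_iff_of_pos_right h4).2 h3
    have h3 : 0 ≤ ∑ p ∈ Q, (∫ ω, m p ω ^ 2 ∂μ) / (p : ℝ) :=
      Finset.sum_nonneg fun p _ => div_nonneg (integral_nonneg fun ω => sq_nonneg _) (by positivity)
    exact mul_le_mul hL h2 h3 (hL0.trans hL)
  have hUmean : ∫ ω, U ω ∂μ ≤ Real.sqrt (L * (2 * W)) := mean_le_sqrt hUi hU2i hUm2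
  have hint : ∫ ω, F ω ∂μ ≤ ∫ ω, (B + Z ω + C * U ω) ∂μ := by
    refine integral_mono_of_nonneg ?_ ?_ ?_
    · filter_upwards with ω
      exact hF0 ω
    · exact ((integrable_const B).add hZi).add (hUi.const_mul _)
    · filter_upwards with ω
      rw [hU]
      exact hZ5 ω
  refine hint.trans ?_
  have d2 : Integrable (fun ω => B + Z ω) μ := (integrable_const B).add hZi
  have d3 : ∫ ω, (B + Z ω + C * U ω) ∂μ = ∫ ω, (B + Z ω) ∂μ +
      ∫ ω, C * U ω ∂μ := integral_add d2 (hUi.const_mul _)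
  have d4 : ∫ ω, (B + Z ω) ∂μ = ∫ _, B ∂μ + ∫ ω, Z ω ∂μ := integral_add (integrable_const B) hZi
  rw [d3, d4, integral_const, integral_const_mul]
  have h6 := mul_le_mul_of_nonneg_left hUmean hC
  simp only [probReal_univ, smul_eq_mul, one_mul]
  linarith

/-- **The finite inequality for affine forms.** -/
theorem fin_ineqA (hC : S_COREA) {Ω : Type} [MeasurableSpace Ω]
    (μ : Measure Ω) [IsProbabilityMeasure μ] (e : ℕ → Ω → ℝ) (he : Sgn e) (P : Set ℕ) (A N y : ℕ)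
    (T : Finset (ℕ × ℕ)) (w : ℕ → ℂ) (hy : 1 ≤ y) (hAy : A ≤ y) (hT : Adm A (A * N) T)
    (hw : ∀ n, ‖w n‖ ≤ 1) (L W : ℝ)
    (hL : ∑ p ∈ (pr P (2 * A * N)).filter (y < ·), 1 / (p : ℝ) ≤ L)
    (hW : ∑ p ∈ (pr P (2 * A * N)).filter (y < ·), dd μ e (pr P p) p / (p : ℝ) ≤ W) :
    ∫ ω, ‖∑ n ∈ Icc 1 N, w n *
        ((∏ q ∈ T, cmf P (fun p => e p ω) (q.1 * n + q.2) : ℝ) : ℂ)‖ ∂μ ≤
      (((Icc 1 N).filter fun n : ℕ => ∀ p ∈ pr P (2 * A * N), y < p →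
            Even ((∏ q ∈ T, (q.1 * n + q.2)).factorization p)).card : ℕ) +
      3 * A * T.card * N / Real.sqrt y + 3 * A * T.card * N * Real.sqrt (L * (2 * W)) := by
  classical
  obtain ⟨m, hm1, hm2, hm0, hm3, hm4⟩ := hC Ω μ e he P
  obtain ⟨Z, hZ1, hZ2, hZ3, hZ4, hZ5⟩ := hm4 A N y T w hy hAy hT hw
  refine mean_bound hm1 hm2 ((pr P (2 * A * N)).filter (y < ·)) (fun p => dd μ e (pr P p) p)
    ?_ hZ1 hZ2 hZ3 _ _ y L W (by positivity) (by exact_mod_cast hy) hZ4 (fun ω => norm_nonneg _)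
    hZ5 hL hW
  intro p hp
  have h1 := mem_pr.1 (Finset.mem_filter.1 hp).1
  exact ⟨h1.1.pos, hm3 p h1.1 h1.2.1⟩

end Pool.Agent.Q270.EN
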