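import Pool.Agent.Q270.EN.Fin

set_option autoImplicit false

/-!
# The decomposition for arbitrary sequences of integers and arbitrary weights
-/

namespace Pool.Agent.Q270.EN

open Finset Filter Topology MeasureTheory

section

variable {ι : Type}

/-- the coefficient of the sign at `p` -/
noncomputable def dlg (S : Finset ℕ) (M : ι → ℕ) (w : ι → ℂ) (I : Finset ι) (p : ℕ)
    (a : Finset ℕ) : ℂ :=
  ∑ n ∈ I.filter (fun n => p ∈ odd S (M n) ∧ ∀ q ∈ odd S (M n), q ≤ p),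
    w n * ((sg ((odd S (M n)).erase p) a : ℝ) : ℂ)

lemma norm_dlg (S : Finset ℕ) (M : ι → ℕ) (w : ι → ℂ) (I : Finset ι) (p : ℕ)
    (a : Finset ℕ) : ‖dlg S M w I p a‖ ≤ ∑ n ∈ I.filter (fun n => p ∈ odd S (M n)), ‖w n‖ := by
  classical
  unfold dlg
  refine (norm_sum_le _ _).trans ?_
  have h1 : ∀ n ∈ I.filter (fun n => p ∈ odd S (M n) ∧ ∀ q ∈ odd S (M n), q ≤ p),
      ‖w n * ((sg ((odd S (M n)).erase p) a : ℝ) : ℂ)‖ ≤ ‖w n‖ := by
    intro n _
    rw [norm_mul, Complex.norm_real, Real.norm_eq_abs, abs_sg, mul_one]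
  refine (Finset.sum_le_sum h1).trans ?_
  refine Finset.sum_le_sum_of_subset_of_nonneg ?_ fun n _ _ => norm_nonneg _
  intro n hn
  rw [Finset.mem_filter] at hn ⊢
  exact ⟨hn.1, hn.2.1⟩

/-- the decomposition -/
lemma decompg {Ω : Type} {e : ℕ → Ω → ℝ} (hv : ∀ p ω, e p ω = 1 ∨ e p ω = -1) (S : Finset ℕ)
    (M : ι → ℕ) (w : ι → ℂ) (I : Finset ι) (y : ℕ) (ω : Ω) :
    ∑ n ∈ I, w n * ((∏ p ∈ odd S (M n), e p ω : ℝ) : ℂ) =
      ∑ n ∈ I.filter (fun n => ∀ p ∈ S, y < p → Even ((M n).factorization p)),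
        w n * ((∏ p ∈ odd S (M n), e p ω : ℝ) : ℂ) +
      ∑ p ∈ S.filter (y < ·), ((e p ω : ℝ) : ℂ) * dlg S M w I p (neg e (S.filter (· < p)) ω) := by
  classical
  rw [← Finset.sum_filter_add_sum_filter_not I
    (fun n => ∀ p ∈ S, y < p → Even ((M n).factorization p))]
  congr 1
  -- each term on the right
  have h1 : ∀ p ∈ S.filter (y < ·), ((e p ω : ℝ) : ℂ) * dlg S M w I p (neg e (S.filter (· < p)) ω) =
      ∑ n ∈ I.filter (fun n => ¬ ∀ p ∈ S, y < p → Even ((M n).factorization p)),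
        if (p ∈ odd S (M n) ∧ ∀ q ∈ odd S (M n), q ≤ p) then
          w n * ((∏ p ∈ odd S (M n), e p ω : ℝ) : ℂ) else 0 := by
    intro p hp
    obtain ⟨hp1, hp2⟩ := Finset.mem_filter.1 hp
    rw [← Finset.sum_filter]
    unfold dlg
    rw [Finset.mul_sum]
    have h2 : (I.filter (fun n => ¬ ∀ p ∈ S, y < p → Even ((M n).factorization p))).filter
        (fun n => p ∈ odd S (M n) ∧ ∀ q ∈ odd S (M n), q ≤ p) =
        I.filter (fun n => p ∈ odd S (M n) ∧ ∀ q ∈ odd S (M n), q ≤ p) := by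
      ext n
      simp only [Finset.mem_filter]
      constructor
      · rintro ⟨⟨h3, _⟩, h4⟩
        exact ⟨h3, h4⟩
      · rintro ⟨h3, h4⟩
        refine ⟨⟨h3, ?_⟩, h4⟩
        intro h5
        have h6 := h5 p hp1 hp2
        have h7 := (Finset.mem_filter.1 h4.1).2
        rw [← Nat.not_even_iff_odd] at h7
        exact h7 h6
    rw [h2]
    refine Finset.sum_congr rfl fun n hn => ?_
    obtain ⟨_, h3, h4⟩ := Finset.mem_filter.1 hn
    have h5 : ∏ q ∈ odd S (M n), e q ω = e p ω * sg ((odd S (M n)).erase p)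
        (neg e (S.filter (· < p)) ω) := by
      rw [← Finset.mul_prod_erase _ _ h3]
      congr 1
      apply prod_sg hv
      intro q hq
      obtain ⟨h6, h7⟩ := Finset.mem_erase.1 hq
      refine Finset.mem_filter.2 ⟨(Finset.mem_filter.1 h7).1, ?_⟩
      have := h4 q h7
      omega
    rw [h5]
    push_cast
    ring
  rw [Finset.sum_congr rfl h1, Finset.sum_comm]
  refine Finset.sum_congr rfl fun n hn => ?_
  obtain ⟨_, h2⟩ := Finset.mem_filter.1 hn
  push Not at h2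
  obtain ⟨p0, h3, h4, h5⟩ := h2
  have h6 : p0 ∈ odd S (M n) := Finset.mem_filter.2 ⟨h3, by
    rw [← Nat.not_even_iff_odd]
    exact h5⟩
  have hne : (odd S (M n)).Nonempty := ⟨p0, h6⟩
  obtain ⟨pm, hpm⟩ : ∃ pm, pm = (odd S (M n)).max' hne := ⟨_, rfl⟩
  have h7 : pm ∈ odd S (M n) := by
    rw [hpm]
    exact Finset.max'_mem _ _
  have h8 : ∀ q ∈ odd S (M n), q ≤ pm := by
    intro q hq
    rw [hpm]
    exact Finset.le_max' _ _ hq
  rw [Finset.sum_eq_single pm]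
  · rw [if_pos ⟨h7, h8⟩]
  · intro q _ hq
    rw [if_neg]
    rintro ⟨h9, h10⟩
    apply hq
    exact le_antisymm (h8 q h9) (h10 pm h7)
  · intro h9
    exfalso
    apply h9
    refine Finset.mem_filter.2 ⟨(Finset.mem_filter.1 h7).1, ?_⟩
    have := h8 p0 h6
    omega

end

/-- **GEN.** The decomposition for arbitrary sequences `M` of integers and arbitrary weights. The
predictable part `m` depends only on the law of the signs. -/
def S_GEN : Prop := ∀ (Ω : Type) [MeasurableSpace Ω] (μ : Measure Ω) [IsProbabilityMeasure μ]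
  (e : ℕ → Ω → ℝ), Sgn e → ∀ (P : Set ℕ), ∃ m : ℕ → Ω → ℝ,
    (∀ p, Measurable (m p)) ∧ (∀ p ω, |m p ω| ≤ 1) ∧
    (∀ p, p.Prime → p ∈ P → 0 ≤ dd μ e (pr P p) p) ∧
    (∀ p, p.Prime → p ∈ P → ∫ ω, m p ω ^ 2 ∂μ ≤ 2 * dd μ e (pr P p) p) ∧
    ∀ (X y : ℕ) (ι : Type) (I : Finset ι) (M : ι → ℕ) (w : ι → ℂ) (c : ℕ → ℝ),
      (∀ p ∈ (pr P X).filter (y < ·), ∑ n ∈ I.filter (fun n => p ∈ odd (pr P X) (M n)), ‖w n‖ ≤ c p) →
      ∃ Z : Ω → ℝ, Measurable Z ∧ (∀ ω, 0 ≤ Z ω) ∧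
        (∀ ω, Z ω ≤ 2 * ∑ p ∈ (pr P X).filter (y < ·), c p) ∧
        ∫ ω, Z ω ^ 2 ∂μ ≤ ∑ p ∈ (pr P X).filter (y < ·), c p ^ 2 ∧
        ∀ ω, ‖∑ n ∈ I, w n * ((∏ p ∈ odd (pr P X) (M n), e p ω : ℝ) : ℂ)‖ ≤
          ∑ n ∈ I.filter (fun n => ∀ p ∈ pr P X, y < p → Even ((M n).factorization p)), ‖w n‖ +
            Z ω + ∑ p ∈ (pr P X).filter (y < ·), c p * |m p ω|

theorem t_GEN (hD : S_DECP) : S_GEN := by
  intro Ω _ μ _ e he P
  classical
  obtain ⟨m, hm1, hm2, hm0, hm3, hm4⟩ := hD Ω μ e he P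
  refine ⟨m, hm1, hm2, hm0, hm3, ?_⟩
  intro X y ι I M w c hc
  have hm4 := hm4 X
  obtain ⟨S, hS⟩ : ∃ S, S = pr P X := ⟨_, rfl⟩
  rw [← hS] at hm4 hc
  obtain ⟨R, hR⟩ : ∃ R, R = S.filter (y < ·) := ⟨_, rfl⟩
  rw [← hR] at hc
  have hRS : R ⊆ S := by
    rw [hR]
    exact Finset.filter_subset _ _
  rw [← hS, ← hR]
  obtain ⟨Zc, hZc⟩ : ∃ Zc : Ω → ℂ, Zc = fun ω => ∑ p ∈ R, ((e p ω - m p ω : ℝ) : ℂ) *
    dlg S M w I p (neg e (S.filter (· < p)) ω) := ⟨_, rfl⟩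
  have hcb : ∀ p ∈ R, ∀ a, ‖dlg S M w I p a‖ ≤ c p := by
    intro p hp a
    exact (norm_dlg S M w I p a).trans (hc p hp)
  have hmeasd : ∀ p, Measurable fun ω => dlg S M w I p (neg e (S.filter (· < p)) ω) := by
    intro p
    have h1 := meas_neg he (S.filter (· < p))
    exact (@measurable_from_top (Finset ℕ) ℂ _ (dlg S M w I p)).comp h1
  have hZm : Measurable Zc := by
    rw [hZc]
    refine Finset.measurable_sum _ fun p _ => ?_
    exact (Complex.measurable_ofReal.comp ((he.meas p).sub (hm1 p))).mul (hmeasd p)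
  refine ⟨fun ω => ‖Zc ω‖, hZm.norm, fun ω => norm_nonneg _, ?_, ?_, ?_⟩
  · intro ω
    rw [hZc]
    refine (norm_sum_le _ _).trans ?_
    rw [Finset.mul_sum]
    refine Finset.sum_le_sum fun p hp => ?_
    rw [norm_mul, Complex.norm_real, Real.norm_eq_abs]
    have h2 : |e p ω - m p ω| ≤ 2 := by
      have h3 := abs_le.1 (hm2 p ω)
      rw [abs_le]
      rcases he.val p ω with h4 | h4 <;> rw [h4] <;> constructor <;> linarith [h3.1, h3.2]
    exact mul_le_mul h2 (hcb p hp _) (norm_nonneg _) (by norm_num)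
  · have h1 := hm4 R (dlg S M w I) c hRS hcb
    have h3 : ∀ ω, ‖Zc ω‖ ^ 2 = ‖∑ p ∈ R, ((e p ω - m p ω : ℝ) : ℂ) *
      dlg S M w I p (neg e (S.filter (· < p)) ω)‖ ^ 2 := by
      intro ω
      rw [hZc]
    simp only [h3]
    exact h1
  · intro ω
    rw [decompg he.val S M w I y ω]
    have h2 : ∑ p ∈ S.filter (y < ·), ((e p ω : ℝ) : ℂ) * dlg S M w I p (neg e (S.filter (· < p)) ω) =
        Zc ω + ∑ p ∈ R, ((m p ω : ℝ) : ℂ) * dlg S M w I p (neg e (S.filter (· < p)) ω) := by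
      rw [hZc, hR, ← Finset.sum_add_distrib]
      refine Finset.sum_congr rfl fun p _ => ?_
      push_cast
      ring
    rw [h2]
    have h3 : ‖∑ n ∈ I.filter (fun n => ∀ p ∈ S, y < p → Even ((M n).factorization p)),
        w n * ((∏ p ∈ odd S (M n), e p ω : ℝ) : ℂ)‖ ≤
        ∑ n ∈ I.filter (fun n => ∀ p ∈ S, y < p → Even ((M n).factorization p)), ‖w n‖ := by
      refine (norm_sum_le _ _).trans ?_
      refine Finset.sum_le_sum fun n _ => ?_
      rw [norm_mul, Complex.norm_real, Real.norm_eq_abs, prod_sg he.val (odd S (M n)) S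
        (Finset.filter_subset _ _), abs_sg, mul_one]
    have h4 : ‖∑ p ∈ R, ((m p ω : ℝ) : ℂ) * dlg S M w I p (neg e (S.filter (· < p)) ω)‖ ≤
        ∑ p ∈ R, c p * |m p ω| := by
      refine (norm_sum_le _ _).trans ?_
      refine Finset.sum_le_sum fun p hp => ?_
      rw [norm_mul, Complex.norm_real, Real.norm_eq_abs]
      calc |m p ω| * ‖dlg S M w I p (neg e (S.filter (· < p)) ω)‖ ≤
          |m p ω| * c p := mul_le_mul_of_nonneg_left (hcb p hp _) (abs_nonneg _)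
        _ = _ := by ring
    refine (norm_add_le _ _).trans ?_
    have h5 := norm_add_le (Zc ω) (∑ p ∈ R, ((m p ω : ℝ) : ℂ) *
      dlg S M w I p (neg e (S.filter (· < p)) ω))
    linarith

end Pool.Agent.Q270.EN
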