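import Mathlib

set_option autoImplicit false

/-!
# Project EN (helper270): Chowla's conjecture for random multiplicative functions of full entropy

Statements of the lemmas; complete proofs in the docstrings.
-/

namespace Pool.Agent.Q270.EN

open Finset Filter Topology MeasureTheory

/-- the primes of `P` up to `x` -/
noncomputable def pr (P : Set ℕ) (x : ℕ) : Finset ℕ := by
  classical exact (Icc 1 x).filter fun p => p.Prime ∧ p ∈ P

/-- random signs -/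
structure Sgn {Ω : Type} [MeasurableSpace Ω] (e : ℕ → Ω → ℝ) : Prop where
  meas : ∀ p, Measurable (e p)
  val : ∀ p ω, e p ω = 1 ∨ e p ω = -1

/-- the set of the indices `p ∈ S` with sign `-1` -/
noncomputable def neg {Ω : Type} (e : ℕ → Ω → ℝ) (S : Finset ℕ) (ω : Ω) : Finset ℕ := by
  classical exact S.filter fun p => e p ω = -1

/-- Shannon entropy (in nats) of the random signs `e p`, `p ∈ S` -/
noncomputable def ent {Ω : Type} [MeasurableSpace Ω] (μ : Measure Ω) (e : ℕ → Ω → ℝ)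
    (S : Finset ℕ) : ℝ :=
  ∑ a ∈ S.powerset, Real.negMulLog (μ.real {ω | neg e S ω = a})

/-- the entropy deficit of the signs `e p`, `p ∈ S` (relative entropy to fair coins) -/
noncomputable def defic {Ω : Type} [MeasurableSpace Ω] (μ : Measure Ω) (e : ℕ → Ω → ℝ)
    (S : Finset ℕ) : ℝ := S.card * Real.log 2 - ent μ e S

/-- the deficit of the sign at `p` given the signs at the smaller elements of `S` -/
noncomputable def dd {Ω : Type} [MeasurableSpace Ω] (μ : Measure Ω) (e : ℕ → Ω → ℝ)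
    (S : Finset ℕ) (p : ℕ) : ℝ :=
  Real.log 2 - (ent μ e (S.filter (· ≤ p)) - ent μ e (S.filter (· < p)))

/-- the completely multiplicative function with the value `s p` at the primes of `P` and `1` at
the other primes -/
noncomputable def cmf (P : Set ℕ) (s : ℕ → ℝ) (n : ℕ) : ℝ := by
  classical exact ∏ p ∈ n.primeFactors, (if p ∈ P then s p else 1) ^ n.factorization p

/-- **COND.** One more sign.

PROOF. Put `q a = μ.real {ω | neg e U ω = a}`, `r a = μ.real {ω | neg e (insert p U) ω = a}`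
(`a ⊆ U`) and `s a = μ.real {ω | neg e (insert p U) ω = insert p a}`. For `a ⊆ U` the event
`neg e U = a` is the disjoint union of `neg e (insert p U) = a` (there `e p = 1`) and
`neg e (insert p U) = insert p a` (there `e p = -1`), so `q a = r a + s a`. Let
`M a = (r a - s a) / q a` for `a ⊆ U` (this is `0` if `q a = 0`) and `M a = 0` otherwise;
`|M a| ≤ 1` because `r a, s a ≥ 0`. (1) `∫ e p * Y (neg e U) = ∑ a ∈ U.powerset, Y a * (r a - s a)`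
(the function is a finite sum of indicators of the disjoint events above times constants) and
`= ∑ a, Y a * M a * q a = ∫ M (neg e U) * Y (neg e U)` (if `q a = 0` then `r a = s a = 0`).
(2) `∫ M (neg e U) ^ 2 = ∑ a ∈ U.powerset, M a ^ 2 * q a`. `ent (insert p U) = ∑ a ∈ U.powerset,
(negMulLog (r a) + negMulLog (s a))` (`Finset.sum_powerset_insert`). The claim follows from the
inequality for reals `r, s ≥ 0`, `q = r + s`:
`negMulLog r + negMulLog s ≤ negMulLog q + q * log 2 - (r - s) ^ 2 / (2 * q)`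
and `∑ q a = 1`. Proof of the inequality: clear if `q = 0`; otherwise put `r = q (1 + m) / 2`,
`s = q (1 - m) / 2`, `|m| ≤ 1`; it becomes `binEntropy ((1 + m) / 2) ≤ log 2 - m ^ 2 / 2`
(Pinsker for one bit): the function `g m = log 2 - m ^ 2 / 2 - binEntropy ((1 + m) / 2)` is even,
`g 0 = 0` and `g' m = (1/2) log ((1 + m) / (1 - m)) - m ≥ 0` for `0 ≤ m < 1`
(`Real.one_sub_inv_le_log_of_pos` style or the series of `log ((1+m)/(1-m))`); search the pool for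
Pinsker's inequality with `binEntropy`, it may be there. -/
def S_COND : Prop := ∀ (Ω : Type) [MeasurableSpace Ω] (μ : Measure Ω) [IsProbabilityMeasure μ]
  (e : ℕ → Ω → ℝ), Sgn e → ∀ (U : Finset ℕ) (p : ℕ), p ∉ U → ∃ M : Finset ℕ → ℝ,
    (∀ a, |M a| ≤ 1) ∧
    (∀ Y : Finset ℕ → ℂ, ∫ ω, (e p ω : ℂ) * Y (neg e U ω) ∂μ =
      ∫ ω, (M (neg e U ω) : ℂ) * Y (neg e U ω) ∂μ) ∧
    ∫ ω, M (neg e U ω) ^ 2 ∂μ ≤ 2 * (Real.log 2 - (ent μ e (insert p U) - ent μ e U))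

/-- **DEC.** Martingale and drift. Prove `t_DEC : S_COND → S_DEC`.

PROOF. For `p ∈ S` apply `S_COND` with `U = S.filter (· < p)` (then `insert p U = S.filter (· ≤ p)`)
and put `m p ω = M_p (neg e (S.filter (· < p)) ω)`; `m p = 0` for `p ∉ S`. Measurability: `neg e U`
takes finitely many values on measurable sets. `∫ m p ^ 2 ≤ 2 dd` is the last clause of `S_COND`
(and gives `0 ≤ dd`). Let `V p ω = ((e p ω - m p ω : ℝ) : ℂ) * δ p (neg e (S.filter (· < p)) ω)`.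
For `q < p` in `S` the product `conj (V q) * δ p (neg ..)` is a function `Y (neg e (S.filter (· < p)))`
of the signs below `p` (note `neg e (S.filter (· < q)) ω` and `e q ω` are functions of
`neg e (S.filter (· < p)) ω`), so `∫ (e p - m p) * Y = 0` by `S_COND`; hence
`∫ V p * conj (V q) = 0` for `p ≠ q` (`inner`, or real and imaginary parts), and
`∫ ‖∑ V p‖ ^ 2 = ∑ ∫ ‖V p‖ ^ 2 ≤ ∑ c p ^ 2 * ∫ (e p - m p) ^ 2` and
`∫ (e p - m p) ^ 2 = 1 - ∫ m p ^ 2 ≤ 1` (`S_COND` with `Y = M`). -/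
def S_DEC : Prop := ∀ (Ω : Type) [MeasurableSpace Ω] (μ : Measure Ω) [IsProbabilityMeasure μ]
  (e : ℕ → Ω → ℝ), Sgn e → ∀ (S : Finset ℕ), ∃ m : ℕ → Ω → ℝ,
    (∀ p, Measurable (m p)) ∧ (∀ p ω, |m p ω| ≤ 1) ∧ (∀ p ∈ S, 0 ≤ dd μ e S p) ∧
    (∀ p ∈ S, ∫ ω, m p ω ^ 2 ∂μ ≤ 2 * dd μ e S p) ∧
    ∀ (R : Finset ℕ) (δ : ℕ → Finset ℕ → ℂ) (c : ℕ → ℝ), R ⊆ S →
      (∀ p ∈ R, ∀ a, ‖δ p a‖ ≤ c p) →
      ∫ ω, ‖∑ p ∈ R, ((e p ω - m p ω : ℝ) : ℂ) * δ p (neg e (S.filter (· < p)) ω)‖ ^ 2 ∂μ ≤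
        ∑ p ∈ R, c p ^ 2

/-- **TEL.** The deficits add up: `∑_{p ∈ S, p ≤ t} dd = defic (S_{≤ t})`.

PROOF. Induction over `S.filter (· ≤ t)` by its largest element (or telescoping over `t`: for
`t ∉ S` nothing changes from `t - 1` to `t`; for `t ∈ S` both sides change by `dd S t`, since
`S.filter (· < t) = S.filter (· ≤ t - 1)`). `ent ∅ = negMulLog 1 = 0`. -/
def S_TEL : Prop := ∀ (Ω : Type) [MeasurableSpace Ω] (μ : Measure Ω) [IsProbabilityMeasure μ]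
  (e : ℕ → Ω → ℝ), Sgn e → ∀ (S : Finset ℕ) (t : ℕ),
    ∑ p ∈ S.filter (· ≤ t), dd μ e S p = defic μ e (S.filter (· ≤ t))

/-- **ABEL.** Partial summation and Cauchy-Schwarz.

PROOF. Put `L = ∑ p ∈ pr P z, y < p, 1 / p`. By Cauchy-Schwarz
`∑ (1/p) √(2 D p) = ∑ (1/√p) (√(2 D p) / √p) ≤ √(L * ∑ 2 D p / p)`. Partial summation:
`∑_{p ∈ pr P z, y < p} D p / p = ∑_{t = y+1}^{z} (A t - A (t-1)) / t` with
`A t = ∑ p ∈ pr P t, D p`, `0 ≤ A t ≤ ρ π t`, `π t = (pr P t).card`, equals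
`A z / z - A y / (y+1) + ∑_{t=y+1}^{z-1} A t (1/t - 1/(t+1)) ≤ ρ (π z / z + ∑_{t=y+1}^{z-1} π t (1/t - 1/(t+1)))`
`= ρ (∑_{t=y+1}^{z} (π t - π (t-1)) / t + π y / (y+1)) ≤ ρ (L + 1)`. (Or: by induction on `z`.)
So the sum is `≤ √(L * 2 ρ (L + 1)) ≤ √(2 ρ) (L + 1)`. -/
def S_ABEL : Prop := ∀ (P : Set ℕ) (D : ℕ → ℝ) (ρ : ℝ) (y z : ℕ), (∀ p, 0 ≤ D p) → 0 ≤ ρ →
  y ≤ z → (∀ t, y ≤ t → t ≤ z → ∑ p ∈ pr P t, D p ≤ ρ * (pr P t).card) →
  ∑ p ∈ (pr P z).filter (y < ·), 1 / (p : ℝ) * Real.sqrt (2 * D p) ≤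
    Real.sqrt (2 * ρ) * (1 + ∑ p ∈ (pr P z).filter (y < ·), 1 / (p : ℝ))

/-- **MIX.** Sharpness: with probability `≥ η` all signs are `1`, and the deficit is at most
`η |S| log 2` for every finite `S`.

PROOF. `Ω = ℕ → Bool`, `e p ω = if ω p then 1 else -1`, `μ = (1 - η) • cm + η • dirac (fun _ => true)`
with `cm = Pool.Agent.Q163.RX.cm` (independent fair coins, `Measure.infinitePi`). For `a ⊆ S`:
`μ.real {neg e S = a} = (1 - η) * 2 ^ (-|S|) + η * [a = ∅]`. `negMulLog` is concave on `[0, ∞)`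
(`Real.concaveOn_negMulLog`): `negMulLog ((1 - η) u + η v) ≥ (1 - η) negMulLog u + η negMulLog v`;
sum over `a`: `ent ≥ (1 - η) |S| log 2 + 0`. -/
def S_MIX : Prop := ∀ η : ℝ, 0 < η → η < 1 → ∃ (Ω : Type) (_ : MeasurableSpace Ω) (μ : Measure Ω)
  (_ : IsProbabilityMeasure μ) (e : ℕ → Ω → ℝ), Sgn e ∧
    (∀ S : Finset ℕ, defic μ e S ≤ η * (S.card * Real.log 2)) ∧
    η ≤ μ.real {ω | ∀ p, e p ω = 1}

/-- **CORE.** (helper270 does this one.) The predictable part `m` is the same for all sums. -/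
def S_CORE : Prop := ∀ (Ω : Type) [MeasurableSpace Ω] (μ : Measure Ω) [IsProbabilityMeasure μ]
  (e : ℕ → Ω → ℝ), Sgn e → ∀ (P : Set ℕ) (X : ℕ), ∃ m : ℕ → Ω → ℝ,
    (∀ p, Measurable (m p)) ∧ (∀ p ω, |m p ω| ≤ 1) ∧ (∀ p ∈ pr P X, 0 ≤ dd μ e (pr P X) p) ∧
    (∀ p ∈ pr P X, ∫ ω, m p ω ^ 2 ∂μ ≤ 2 * dd μ e (pr P X) p) ∧
    ∀ (N y : ℕ) (T : Finset ℕ) (w : ℕ → ℂ), 1 ≤ y → 2 * N ≤ X → T.Nonempty → T ⊆ range (N + 1) →
      (∀ n, ‖w n‖ ≤ 1) → ∃ Z : Ω → ℝ, Measurable Z ∧ (∀ ω, 0 ≤ Z ω) ∧ (∀ ω, Z ω ≤ 4 * N * X) ∧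
        ∫ ω, Z ω ^ 2 ∂μ ≤ 9 * T.card ^ 2 * N ^ 2 / y ∧
        ∀ ω, ‖∑ n ∈ Icc 1 N, w n * ((∏ h ∈ T, cmf P (fun p => e p ω) (n + h) : ℝ) : ℂ)‖ ≤
          (((Icc 1 N).filter fun n : ℕ => ∀ p ∈ pr P X, y < p →
            Even ((∏ h ∈ T, (n + h)).factorization p)).card : ℕ) + Z ω +
          3 * T.card * N * ∑ p ∈ (pr P X).filter (y < ·), 1 / (p : ℝ) * |m p ω|

/-- **CNT.** Few `n` have no prime of `P` in `(y, z]` to an odd power in `∏ (n + h)`; `T` is in an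
interval of length `y`.

PROOF. Apply `Pool.Agent.Q163.RP.count_even N z 1 h₀ B ...` with `h₀ ∈ T`, `B` the primes of `P` in
`(y, z]`, `M n = ∏ h ∈ T, (n + h)`, `r = ∏ h ∈ T.erase h₀, (n + h)`: if `p ∈ B` divides `n + h₀` and
`n + h` then it divides `h - h₀ ≠ 0`, but `|h - h₀| ≤ y < p`. -/
def S_CNT : Prop := ∀ (P : Set ℕ) (T : Finset ℕ) (N y z X : ℕ), T.Nonempty → T ⊆ range (y + 1) →
  1 ≤ y → z ≤ X → ∀ L : ℝ, L = ∑ p ∈ (pr P z).filter (y < ·), 1 / (p : ℝ) → 1 ≤ L →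
  ((((Icc 1 N).filter fun n : ℕ => ∀ p ∈ pr P X, y < p →
    Even ((∏ h ∈ T, (n + h)).factorization p)).card : ℕ) : ℝ) ≤
    N / L + 4 * (z : ℝ) ^ 2 + (N * L / y + z)

end Pool.Agent.Q270.EN
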