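import Pool.Agent.Q270.EN.Thr

set_option autoImplicit false

/-!
# Project EN (helper270): the price of a violation, and sets of primes with convergent sum

`evn P T X N y` is the number of the `n ≤ N` for which the exponents of all primes `p > y` of `P`
(up to `X`) in `∏ (q.1 n + q.2)` are even (`Pool.Agent.Q270.EN.Thr`).
-/

namespace Pool.Agent.Q270.EN

open Finset Filter Topology MeasureTheory

/-- the sign function with `-1` at the elements of `a` -/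
def sgn (a : Finset ℕ) (p : ℕ) : ℝ := if p ∈ a then -1 else 1

/-- the weighted sum for the sign function `sgn a` -/
noncomputable def fs (P : Set ℕ) (a : Finset ℕ) (T : Finset (ℕ × ℕ)) (w : ℕ → ℂ) (N : ℕ) : ℂ :=
  ∑ n ∈ Icc 1 N, w n * ((∏ q ∈ T, cmf P (sgn a) (q.1 * n + q.2) : ℝ) : ℂ)

open Classical in
/-- **UPP.** Few sign functions violate the bound. Prove `t_UPP : S_COREA → S_TEL → S_UPP`.

PROOF. Let `X = 2 A N`, `S = pr P X`, `k = T.card`, `B = evn P T X N y`, `Bad` the set of the `a ⊆ S`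
in the statement. If `Bad` is empty the claim is clear. Otherwise let `μ` be the uniform measure on
`Bad` (on `Ω = Finset ℕ` with `⊤` as measurable space: `μ = (Bad.card : ℝ≥0∞)⁻¹ • ∑ a ∈ Bad, dirac a`
or `PMF.uniformOfFinset`), `e p a = sgn a p`; `Sgn e`. For `ω ∈ Bad`: `neg e S ω = ω`. Hence
`μ.real {ω | neg e S ω = a} = 1 / Bad.card` for `a ∈ Bad`, `0` for the other `a ⊆ S`, and
`ent μ e S = log Bad.card`, `defic μ e S = S.card * log 2 - log Bad.card =: D`.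
With the `m` of `S_COREA`: `0 ≤ dd μ e (pr P p) p` for the primes of `P`, and
`dd μ e (pr P p) p = dd μ e S p` for `p ∈ S` (`dd_pr` in `Pool.Agent.Q270.EN.Fin`), so
`∑ p ∈ S.filter (y < ·), dd μ e (pr P p) p / p ≤ (1 / y) * ∑ p ∈ S, dd μ e S p = D / y` by `S_TEL`
(with `t = X`: `S.filter (· ≤ X) = S`). `fin_ineqA` (`Pool.Agent.Q270.EN.FinA`) with `W = D / y`:
`B + ε N ≤ ∫ ‖..‖ ∂μ ≤ B + 3 A k N / √y + 3 A k N √(L * (2 * (D / y)))` (the integrand is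
`‖fs P ω T w N‖`). As `3 A k / √y ≤ ε / 2` we get `ε / 2 ≤ 3 A k √(2 L D / y)`, i.e.
`ε ^ 2 y ≤ 72 A² k² L D`, and `Bad.card = 2 ^ S.card * exp (-D)`. -/
def S_UPP : Prop := ∀ (P : Set ℕ) (A N y : ℕ) (T : Finset (ℕ × ℕ)) (w : ℕ → ℂ), 1 ≤ N → 1 ≤ y →
  A ≤ y → Adm A (A * N) T → (∀ n, ‖w n‖ ≤ 1) → ∀ ε L : ℝ, 0 < ε → 0 < L →
  (6 * A * T.card / ε) ^ 2 ≤ y → ms P y (2 * A * N) ≤ L →
  ((((pr P (2 * A * N)).powerset.filter fun a =>
      evn P T (2 * A * N) N y + ε * N ≤ ‖fs P a T w N‖).card : ℕ) : ℝ) ≤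
    2 ^ (pr P (2 * A * N)).card * Real.exp (-(ε ^ 2 * y / (72 * A ^ 2 * T.card ^ 2 * L)))

open Classical in
/-- **LOW.** Many sign functions violate the bound. Prove `t_LOW : S_LOW`.

PROOF. Let `X = 2 A N`, `S = pr P X`, `S' = S.filter (y < ·)` and consider the `a ⊆ S'` only
(`f = 1` at the primes `≤ y` of `P`; `|S'| = |S| - |pr P y|` for `y ≤ X`). For `n ∈ [1, N]` and
`M n = ∏ q ∈ T, (q.1 n + q.2)` (all prime factors `≤ X`): `∏ q ∈ T, cmf P (sgn a) (q.1 n + q.2) =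
∏ p ∈ odd S (M n), sgn a p` (`cmf_prodA`, `cmf_eq` of `Pool.Agent.Q270.EN.{CoreA,Core}`, as in the
proof of `t_COREA`) `= (-1) ^ |odd S (M n) ∩ a|`. Sum over `a ⊆ S'`: it is `2 ^ |S'|` if
`odd S (M n) ∩ S' = ∅`, i.e. if all exponents of the primes `p > y` of `P` are even, and `0`
otherwise (`Finset.prod_add`/`Finset.prod_one_add` or pairing `a`, `a ∆ {p}`). Hence
`∑ a ∈ S'.powerset, F a = 2 ^ |S'| * evn`, where `F a` is the (real) sum in the statement. Since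
`F a ≤ N` always, the number `G` of `a ⊆ S'` with `evn - ε N ≤ F a` satisfies
`2 ^ |S'| * evn ≤ G * N + (2 ^ |S'| - G) * (evn - ε N)`, so `G * (N - evn + ε N) ≥ 2 ^ |S'| ε N` and
`G ≥ 2 ^ |S'| * ε / (1 + ε)` (`0 ≤ evn ≤ N`). -/
def S_LOW : Prop := ∀ (P : Set ℕ) (A N y : ℕ) (T : Finset (ℕ × ℕ)), 1 ≤ N → y ≤ 2 * A * N →
  Adm A (A * N) T → ∀ ε : ℝ, 0 < ε →
  2 ^ (pr P (2 * A * N)).card / 2 ^ (pr P y).card * (ε / (1 + ε)) ≤
    ((((pr P (2 * A * N)).powerset.filter fun a => evn P T (2 * A * N) N y - ε * N ≤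
      ∑ n ∈ Icc 1 N, ∏ q ∈ T, cmf P (sgn a) (q.1 * n + q.2)).card : ℕ) : ℝ)

/-- **NEC.** If the sum of `1 / p` over `P` converges then for every `T` there are weights for
which the sum is `≥ c N` for EVERY choice of the signs. Prove `t_NEC : S_NEC`.

PROOF. Let `k = T.card ≥ 1`, `p₀ ≥ A` so large that `∑ p ∈ P, p > p₀, 1 / p ≤ 1 / (4 k)`; let `j` be
larger than all exponents `v_p (q.1 + q.2)` (`p ≤ p₀`, `q ∈ T`) and `Q = ∏ p ≤ p₀, p ^ j`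
(or `Q = (p₀ !) ^ j`). For `n ≡ 1 mod Q`: `q.1 n + q.2 ≡ q.1 + q.2 mod p ^ j`, so
`v_p (q.1 n + q.2) = v_p (q.1 + q.2)` for all `p ≤ p₀`. Let `w n = 1` if `n ≡ 1 mod Q` and no prime
`p > p₀` of `P` divides a form `q.1 n + q.2`, else `w n = 0`. For `w n = 1` the product
`∏ q, cmf P s (q.1 n + q.2)` is `∏ q, ∏ p ∈ P, p ≤ p₀, s p ^ v_p (q.1 + q.2)`, which does not depend on
`n` and is `1` or `-1`. So the modulus of the sum is the number `G` of the `n ≤ N` with `w n = 1`.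
`G ≥ N / Q - 1 - ∑ q ∈ T, ∑ p ∈ pr P X, p > p₀, (N / (Q p) + 1)` (`X = 2 A N`, all forms are `≤ X`; for
`p > p₀ ≥ A` prime to `Q q.1`: `n ≡ 1 mod Q`, `p ∣ q.1 n + q.2` is one class modulo `Q p`; write
`n = 1 + Q i` and use `Pool.Agent.Q163.RP.card_dvd`) `≥ N / Q - 1 - N / (4 Q) - k |pr P X|`, and
`|pr P X| = o(X)`: `|pr P X| ≤ Y + X ∑ p ∈ P, p > Y, 1 / p` for every `Y`. So `G ≥ N / (2 Q)` for large `N`. -/
def S_NEC : Prop := ∀ (P : Set ℕ), (Summable fun p : {p : ℕ // p.Prime ∧ p ∈ P} => 1 / ((p : ℕ) : ℝ)) →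
  ∀ (A : ℕ) (T : Finset (ℕ × ℕ)), Adm A A T → ∃ (w : ℕ → ℂ) (c : ℝ), (∀ n, ‖w n‖ ≤ 1) ∧ 0 < c ∧
    ∀ᶠ N : ℕ in atTop, ∀ s : ℕ → ℝ, (∀ p, s p = 1 ∨ s p = -1) →
      c * N ≤ ‖∑ n ∈ Icc 1 N, w n * ((∏ q ∈ T, cmf P s (q.1 * n + q.2) : ℝ) : ℂ)‖

end Pool.Agent.Q270.EN
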