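import Pool.Agent.Q270.EN.Thr

set_option autoImplicit false

/-!
# Project EL (helper270): joint correlations of the von Mangoldt function and of every random
multiplicative function of full entropy (Q1 of MP_e6fa8b_nt, `l ≥ 1`)

`vT T n` is the product of the values of the von Mangoldt function at the forms of `T`. Three sieve
estimates; `Adm A A T`: forms `q.1 n + q.2`, `1 ≤ q.1 ≤ A`, `q.2 ≤ A`, pairwise not proportional.

Tools: `Pool.Agent.Q259.RM.Sv.sieve` (upper bound sieve for `k` forms and one further form at a set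
`T` of primes, uniform in the coefficients), `Pool.Agent.Q259.RM.Asy3.mean_asy` (with `θ = 0`: for
`x ≤ N` and `k` forms with coefficients up to `N ^ A` the sum `∑_{n ≤ x} ∏ Λ(|a_i n + b_i|)` is at
most `C(A, k) N (D / φ(D)) ^ k`, `D` the discriminant `disc a b`; take `l = 1` and any form `c n + d` not
proportional to the others), `Pool.Agent.Q259.RM.Mean.vL` (`∏ Λ(|a_i n + b_i|)`),
`Pool.Agent.Q259.RM.Asy3.yN`, `Pool.Agent.Q259.RM.Asy1.recip_PD`, `exp_recip_le`.
-/

namespace Pool.Agent.Q270.EN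

open Finset Filter Topology MeasureTheory

/-- the product of the values of the von Mangoldt function at the forms of `T` -/
noncomputable def vT (T : Finset (ℕ × ℕ)) (n : ℕ) : ℝ :=
  ∏ q ∈ T, ArithmeticFunction.vonMangoldt (q.1 * n + q.2)

/-- **CLS.** Residue classes modulo a prime or the square of a prime.

PROOF. Enumerate `T` by `Fin k`, `k = T.card`. For `n = m i + r'` (`m = p ^ j`, `r' = r % m`, `i ≥ 1`; the
term `n = r'` is at most `(log (2 A N)) ^ k`, and `N / m ≥ N ^ δ`) the forms are `(a m) i + (a r' + b)`;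
their coefficients are at most `(N / m) ^ A'` with `A' = A'(δ)`, since `N ≤ (N / m) ^ (1 / δ)`;
`disc` of the new forms is a product of powers of `p` and divisors of the old `disc ≠ 0`, so its
`D / φ(D)` is at most `2` times the old one. Apply `mean_asy` (`θ = 0`) with `⌊N / m⌋` in place of `N`. (For
`T = ∅` the sum is a number of elements of a class.) -/
def S_CLS : Prop := ∀ (A : ℕ) (T : Finset (ℕ × ℕ)), (T = ∅ ∨ Adm A A T) → ∀ δ : ℝ, 0 < δ → δ < 1 →
  ∃ C : ℝ, 0 < C ∧ ∀ᶠ N : ℕ in atTop, ∀ p j r : ℕ, p.Prime → 1 ≤ j → j ≤ 2 →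
    ((p ^ j : ℕ) : ℝ) ≤ (N : ℝ) ^ (1 - δ) →
    ∑ n ∈ (Icc 1 N).filter (fun n => n % p ^ j = r % p ^ j), vT T n ≤ C * N / ((p ^ j : ℕ) : ℝ)

open Classical in
/-- **BIG.** Few `n` for which a form of `U` has a prime factor above `N ^ (1 - δ)`; `C` does not
depend on `δ`.

PROOF. Let `u = (c, d) ∈ U`, `c n + d = m p` with `p > N ^ (1 - δ)`, `m ≤ 2 A N ^ δ`. For fixed `m` write
`p = i`: `n = (m i - d) / c`, so `m i ≡ d mod c`, i.e. `i` lies in certain classes mod `c` (at most `c ≤ A`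
of them; `i = c t + s`, `0 ≤ s < c`, `c ∣ m s - d`, `n = m t + (m s - d) / c`, integer coefficients). For
each class: the `k + 1` forms in `t`: `c t + s` (`= p`) and `a (m t + (m s - d) / c) + b`, `(a, b) ∈ T`
(`= a n + b`), `t ≤ T_m = 2 A N / m + 1`. As `log p ≥ (log N) / 2`, the sum over these `n` of `vT T n` is at
most `(2 / log N) ∑_t Λ(c t + s) ∏ Λ(..) ≤ (2 / log N) C N / m * (D / φ(D)) ^ (k + 1)` (`mean_asy` with
`θ = 0`, `k + 1` forms, coefficients up to a fixed power of `T_m ≥ N ^ (1/2)`), where the discriminant `D`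
is a product of divisors of a fixed number and of powers of `m`: the determinant of `c t + s` and
`a m t + a (m s - d) / c + b` is `c b - a d ≠ 0`, that of two forms of `T` is `m` times the old one. So
`(D / φ(D)) ^ (k + 1) ≤ C' (m / φ(m)) ^ (k + 1)`, and `∑_{m ≤ M} (m / φ(m)) ^ (k + 1) / m ≤ C'' (1 + log M)`
(this is in the pool: search for sums of powers of `n / φ(n)`; for instance from
`m / φ(m) ≤ C exp (∑_{p ∣ m} 1 / p)`, or `(m / φ(m)) ^ r ≤ C_r ∑_{d ∣ m} d ^ (-1/2)`). With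
`M = 2 A N ^ δ`: total `≤ C N (1 + δ log N) / log N ≤ 2 C δ N` for large `N`. -/
def S_BIG : Prop := ∀ (A : ℕ) (T U : Finset (ℕ × ℕ)), Adm A A (T ∪ U) → Disjoint T U →
  ∃ C : ℝ, 0 < C ∧ ∀ δ : ℝ, 0 < δ → δ ≤ 1 / 4 → ∀ᶠ N : ℕ in atTop,
    ∑ n ∈ (Icc 1 N).filter (fun n => ∃ p : ℕ, p.Prime ∧ (N : ℝ) ^ (1 - δ) < p ∧
      p ∣ ∏ q ∈ U, (q.1 * n + q.2)), vT T n ≤ C * δ * N

/-- **EVN.** Few `n` such that all primes of a large set have even exponents in `∏_U (c n + d)`.

PROOF. Let `u = (c, d) ∈ U`. The primes `p ∈ Q` are `> 2 A ^ 2 + 2`, so they divide no leading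
coefficient and no determinant of two forms of `T ∪ U`. If all exponents of `p ∈ Q` in `∏_U` are even
then either (a) no `p ∈ Q` divides `c n + d`, or (b) some `p ∈ Q` divides it, and then `p ^ 2 ∣ c n + d`, as `p`
divides no other form of `U` at `n`. (b): by `S_CLS` with `j = 2` (`p ^ 2 ≤ N ^ (2 c₀) ≤ N ^ (1/2)`) at most
`∑_{p ∈ Q} C N / p ^ 2 ≤ C N / y`. (a): the `n` for which some form of `T` at `n` is a proper prime power or
a prime `≤ y' = yN E N` (a small power of `N`) contribute `≤ N ^ (2/3)`; for the others `vT T n ≤ (2 log N) ^ k` and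
no prime `≤ y'` divides a form of `T`: `Q259.RM.Sv.sieve` with `y'` and the set `T := Q` of primes (`c₀` so
small that `N ^ c₀ ≤ y'`, so `Q ⊆ PD k y' D`): at most
`2 N exp (- k ∑_{PD} 1 / p - ∑_Q 1 / p) + error` with `error ≤ N ^ (2/3)` and
`exp (- ∑_{PD} 1 / p) ≤ C / log N` (`recip_PD`). Finally `N ^ (2/3) (log N) ^ k ≤ N / (log N) ^ 2 ≤
N exp (- ∑_Q 1 / p) * const`, since `∑_Q 1 / p ≤ log log N + C`. -/
def S_EVN : Prop := ∀ (A : ℕ) (T U : Finset (ℕ × ℕ)), Adm A A (T ∪ U) → Disjoint T U →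
  U.Nonempty → ∃ C c : ℝ, 0 < C ∧ 0 < c ∧ ∀ᶠ N : ℕ in atTop, ∀ (y : ℕ) (Q : Finset ℕ),
    2 * A ^ 2 + 2 ≤ y → (∀ p ∈ Q, p.Prime ∧ y < p ∧ (p : ℝ) ≤ (N : ℝ) ^ c) →
    ∑ n ∈ (Icc 1 N).filter (fun n => ∀ p ∈ Q, Even ((∏ q ∈ U, (q.1 * n + q.2)).factorization p)),
      vT T n ≤ C * N * (Real.exp (-(∑ p ∈ Q, 1 / (p : ℝ))) + 1 / y)

end Pool.Agent.Q270.EN
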