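import Pool.Agent.Q270.EN.Asm
import Pool.Agent.Helper923.HUpperQ
import Pool.Agent.Helper923.HRhoS

set_option autoImplicit false

/-!
# Project EN, third part (helper270): the exact number of the exceptional functions (MP_f3f922_nt)

`rho` is the Dickman function (`Pool.Agent.Helper923.HRho.rho`, continuous, `rho_anti`, `rho_pos`,
`rho_strict`, `rho_cont`).
-/

namespace Pool.Agent.Q270.EN

open Finset Filter Topology MeasureTheory
open Pool.Agent.Helper923.HRho (rho)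

/-- the number of the `n ≤ N` for which `n + h` is `y`-smooth -/
def smc (N h y : ℕ) : ℕ :=
  ((Icc 1 N).filter fun n => ∀ p ∈ (n + h).primeFactors, p ≤ y).card

/-- **SMO.** Smooth numbers, uniformly in the shift `h ≤ N`.

PROOF. `Ψ(x, y) := smc x 0 y = F (Pr y x) x` for `y ≤ x` (`Helper923.HCount.F`, `Helper923.HUpperQ.Pr`: no
prime in `(y, x]` divides `m ≤ x`). (a) Let `y = ⌊N ^ (1/v)⌋`. `Helper923.HUpperQ.upper` gives for
`N ≤ x ≤ 2 N` (here `Gs y x = ∑_{y < p ≤ x} 1/p`, bounded by Mertens' theorem `mertens_ratio`, and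
`exp (Gs y x) ≥ (log x / log y) exp (- C / log y) ≥ v - o(1)`, so `rho (exp (Gs y x)) ≤ rho (v - o(1)) ≤
rho v + δ / 4` by `rho_lip`) `Ψ(x, y) ≤ x (rho v + δ / 2)`, and for `x ≤ N` `Helper923.HLower.lower` with
`S = ∅`, `P = Pr y x` (`mm P x = rho (E (rr P) (x + 1)) = rho (exp (Gs y x))`; compare `HUpperQ.upper`, where
it is used) gives `Ψ(x, y) ≥ x (rho (exp (Gs y x)) - δ / 8) ≥ x (rho v - δ / 4)` (for `x ≤ N`
`exp (Gs y x) ≤ v + o(1)`; for `x ≤ y`, `Ψ(x, y) = x`). Hence for `h ≤ N`: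
`smc N h y = Ψ(N + h, y) - Ψ(h, y) ≤ (N + h) (rho v + δ / 2) - h (rho v - δ / 4)`, so use `δ / 4` in place of
`δ`. Smaller `y`: monotonicity. (b) `smc N h y ≥ Ψ(N, y) - h` and `lower` with `y = ⌈N ^ (1/v)⌉`. -/
def S_SMO : Prop :=
  (∀ v δ : ℝ, 1 < v → 0 < δ → ∀ᶠ N : ℕ in atTop, ∀ h y : ℕ, h ≤ N → (y : ℝ) ≤ (N : ℝ) ^ (1 / v) →
    (smc N h y : ℝ) ≤ (rho v + δ) * N) ∧
  (∀ v δ : ℝ, 1 < v → 0 < δ → ∀ h : ℕ, ∀ᶠ N : ℕ in atTop, ∀ y : ℕ, (N : ℝ) ^ (1 / v) ≤ y →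
    (rho v - δ) * N ≤ (smc N h y : ℝ))

/-- the forms `n + h`, `h ∈ H` -/
def sh (H : Finset ℕ) : Finset (ℕ × ℕ) := H.image fun h => (1, h)

/-- **EVS.** The number `evn` for all primes and shifts. Prove `t_EVS : S_SMO → S_EVS`.

PROOF. (a) `evn Set.univ (sh H) (2 N) N y` is monotone in `y`, so let `y = ⌊N ^ (1/v)⌋`. Let `h₀ ∈ H`. If all
primes `p > y` have even exponents in `∏_H (n + h)` then `n + h₀` is `y`-smooth, or some prime
`p > y` divides `n + h₀` (so `p ≤ 2 N`), and then either `p ^ 2 ∣ n + h₀` (`y < p ≤ √(2 N)`: at most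
`∑ (N / p ^ 2 + 1) ≤ N / y + √(2 N)` such `n`; `inv_sq_sum` in `Pool.Agent.Q270.EN.Core`), or `p ∣ n + h`,
`h ∈ H`, `h ≠ h₀`, so `p ∣ |h - h₀| ≤ N`: for each `h` at most `log N / log y + 1 ≤ v + 2` such primes `p`, and
for each at most `N / p + 1 ≤ N / y + 1` values of `n`. Total `o(N)`, uniformly. (b) If `n + h` is
`y`-smooth then the exponents of the primes `p > y` are `0`. -/
def S_EVS : Prop :=
  (∀ (k : ℕ) (v δ : ℝ), 1 < v → 0 < δ → ∀ᶠ N : ℕ in atTop, ∀ (H : Finset ℕ) (y : ℕ), H.Nonempty →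
    H.card ≤ k → H ⊆ range (N + 1) → (y : ℝ) ≤ (N : ℝ) ^ (1 / v) →
    (evn Set.univ (sh H) (2 * N) N y : ℝ) ≤ (rho v + δ) * N) ∧
  (∀ v δ : ℝ, 1 < v → 0 < δ → ∀ h : ℕ, ∀ᶠ N : ℕ in atTop, ∀ y : ℕ, (N : ℝ) ^ (1 / v) ≤ y →
    (rho v - δ) * N ≤ (evn Set.univ (sh {h}) (2 * N) N y : ℝ))

end Pool.Agent.Q270.EN
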