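import Pool.Agent.Q270.EN.EL
import Pool.Agent.Q177.EL.Base

set_option autoImplicit false

/-!
# Project EL (helper270): the condition on the set of primes is necessary, also with one factor
of von Mangoldt's function
-/

namespace Pool.Agent.Q270.EN

open Finset Filter Topology MeasureTheory

/-- **NECL.** Prove `t_NECL : S_BIG → S_NECL` (use `t_BIG`, or take it as a hypothesis).

PROOF. Let `(a, b)` be the form of `T`, `gcd (a, b) = 1`, `U` the other forms.
(1) `S_CLS` with a constant uniform in the class. By `Pool.Agent.Q177.EL.MA` (upper bound sieve,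
uniform in the coefficients; `vT_eq`, `vT_prog` in `Pool.Agent.Q177.EL.Base`) with ONE von Mangoldt form
there is an absolute `C₁` such that for all fixed `m ≥ 1`, `r`, all `δ ∈ (0, 1)`, all large `N`, all primes
`p ≤ N ^ (1 - δ)` not dividing `a m` and every class `r' mod p`:
`∑_{n ≤ N, n ≡ r (m), n ≡ r' (p)} Λ(a n + b) ≤ C₁(δ) (N / (m p)) (a m p / φ(a m p)) ≤ 2 C₁(δ) (N / (m p)) (a m / φ(a m))`.
The constant may depend on `δ`; use it with `δ = 1 / 2` for `p ≤ √N` (absolute constant `C₁`), with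
`δ = δ₁(m)` for `√N < p ≤ N ^ (1 - δ₁)` (there `∑_{p ∈ P, p > √N} 1 / p → 0`, so the constant does not matter)
and `S_BIG` for `p > N ^ (1 - δ₁)`, `δ₁` so small (depending on `m`) that its bound `C δ₁ N` is at most a
quarter of the main term in (3). (`S_BIG` for the class: the sum over the class is at most the sum over
all `n`.)
(2) Choose `y ≥ ` all `c`, `2 A ^ 2 + 2` with `2 C₁ |U| ∑_{p ∈ P, p > y} 1 / p ≤ 1 / 8`. Let `m` be the product
over the primes `p ≤ y` of `p ^ j`, with a class `r mod m` such that `gcd (a r + b, m) = 1` and `p ^ j` does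
not divide `∏_U (c r + d)` for any `p ≤ y` (for each `p ≤ y` choose `r` mod `p` with `p ∤ a r + b`, possible as
`gcd (a, b) = 1`, then `r ≥ 1` with these classes by CRT, `∏_U (c r + d) ≠ 0`, and `j` large). Then for
`n ≡ r mod m` the exponent of `p ≤ y` in `∏_U (c n + d)` is the constant `v_p (∏_U (c r + d))`.
(3) Primes in progressions (`Pool.Agent.Cov.PNT.pnt_residueClass`, or any other form in the
pool): `∑_{n ≤ N, n ≡ r (m)} Λ(a n + b) ≥ (1 / 2) (N / m) (a m / φ(a m))` for large `N`.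
(4) `w n = 1` if `n ≡ r mod m` and no prime `p > y` of `P` divides `∏_U (c n + d)`, else `0`. By (1), (2), (3) the
sum of `Λ(a n + b)` over these `n ≤ N` is at least `c N`, and for these `n` the product
`∏_U cmf P s (c n + d)` is the constant `∏_{p ≤ y, p ∈ P} s_p ^ (v_p (..))`, of absolute value `1`.
For `T = ∅` this is `Pool.Agent.Q48.EN.t_NEC` (`vT ∅ n = 1`). -/
def S_NECL : Prop := ∀ P : Set ℕ,
  (Summable fun p : {p : ℕ // p.Prime ∧ p ∈ P} => 1 / ((p : ℕ) : ℝ)) →
  ∀ (A : ℕ) (T U : Finset (ℕ × ℕ)), Adm A A (T ∪ U) → Disjoint T U → U.Nonempty → T.card ≤ 1 →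
    (∀ q ∈ T, Nat.Coprime q.1 q.2) → ∃ (w : ℕ → ℂ) (c : ℝ), (∀ n, ‖w n‖ ≤ 1) ∧
    0 < c ∧ ∀ᶠ N : ℕ in atTop, ∀ s : ℕ → ℝ, (∀ p, s p = 1 ∨ s p = -1) →
      c * N ≤ ‖∑ n ∈ Icc 1 N, w n * (vT T n : ℂ) *
        ((∏ q ∈ U, cmf P s (q.1 * n + q.2) : ℝ) : ℂ)‖

end Pool.Agent.Q270.EN
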